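import Pool.Agent.H92.EL.CFin

/-!
# Project T5 (MP_a3214d), odd `l`, analytic part: definitions

Families indexed by the classes `u : ι` of elements of least index; `v u` is the vector of the
class, `W u` the subgroup of commutators of an element of the class.
-/

set_option autoImplicit false

open scoped BigOperators Topology
open Filter

namespace Pool.Agent.H92.EL

namespace SysL

variable {l : ℕ} [Fact l.Prime] (S : SysL l) {d n : ℕ} {ι : Type} [Fintype ι]

/-- the condition at the primes of a family indexed by classes -/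
def okc5 (Bd : BD l d n) (v : ι → VV l d) (c : ι → VV l n → S.El) (x : ι → Finset S.P) : Prop :=
  ∀ u, ∀ p ∈ x u, ∀ ζ : VV l n,
    ∑ w, (∑ q ∈ x w, S.J q p) * (ζ ⬝ᵥ Bd.B (v w) (v u)) + S.ex (c u ζ) p = 0

/-- the outer characters are additive, everything depends on the dual vector on `W u` only -/
structure Ann (Bd : BD l d n) (v : ι → VV l d) (W : ι → Submodule (ZMod l) (VV l n))
    (c : ι → VV l n → S.El) : Prop where
  add : ∀ u ζ ζ', c u (ζ + ζ') = c u ζ + c u ζ'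
  bil : ∀ u ζ, (∀ z ∈ W u, ζ ⬝ᵥ z = 0) → ∀ w : VV l d, ζ ⬝ᵥ Bd.B w (v u) = 0
  chr : ∀ u ζ, (∀ z ∈ W u, ζ ⬝ᵥ z = 0) → c u ζ = 0

/-- patterns that generate -/
def Gen5 (Bd : BD l d n) (v : ι → VV l d) (W : ι → Submodule (ZMod l) (VV l n))
    (c : ι → VV l n → S.El) (Φ : Finset ι → Prop) : Prop :=
  ∀ U : Finset ι, Φ U → ∀ u, ∀ ζ : VV l n, c u ζ = 0 →
    (∀ w ∈ U, ζ ⬝ᵥ Bd.B (v w) (v u) = 0) → ∀ z ∈ W u, ζ ⬝ᵥ z = 0

/-- characters given by functions of the types -/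
def cT5 (c : ι → VV l n → S.T) (u : ι) (ζ : VV l n) : S.El := (c u ζ, 0)

/-- the allowed types of the primes of `x u` -/
def Al5 (Bd : BD l d n) (v : ι → VV l d) (c : ι → VV l n → S.T) (u : ι) (t : S.T) : Prop :=
  ∀ ζ : VV l n, (∀ w : ι, ζ ⬝ᵥ Bd.B (v w) (v u) = 0) → c u ζ ⬝ᵥ t = 0

open Classical in
/-- the sum over the families satisfying the conditions, of bounded norm -/
noncomputable def S5 (Bd : BD l d n) (v : ι → VV l d) (W : ι → Submodule (ZMod l) (VV l n))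
    (c : ι → VV l n → S.El) (M : Finset S.P) (Φ : Finset ι → Prop)
    (E : (ι → Finset S.P) → Prop) (θ : (ι → S.T) → ℝ) (Y : ℝ) : ℝ :=
  ∑ x ∈ Fintype.piFinset (fun _ : ι => S.bx Y),
    if S.Gd x ∧ S.Off M x ∧ S.okc5 Bd v c x ∧ Φ (S.pat x) ∧ E x ∧
      ((∏ u, S.nm (x u) : ℕ) : ℝ) ≤ Y
    then θ (fun u => S.tys (x u)) * ∏ u, (Nat.card (W u) : ℝ) ^ (x u).card else 0

end SysL

end Pool.Agent.H92.EL
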