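import Pool.Agent.H92.T5.CDefs

/-!
# Project T5 (MP_a3214d), odd `l`, analytic part: the three results used in the assembly
-/

set_option autoImplicit false

open scoped BigOperators Topology
open Filter

namespace Pool.Agent.H92.EL

open Classical in
/-- the asymptotic formula for a fixed frame -/
def SFix5 : Prop := ∀ (l : ℕ) [Fact l.Prime] (S : SysL l) (d n : ℕ) (Bd : SysL.BD l d n)
  (ι : Type) [Fintype ι] [Nonempty ι] (v : ι → SysL.VV l d)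
  (W : ι → Submodule (ZMod l) (SysL.VV l n)) (c : ι → SysL.VV l n → S.T)
  (Φ : Finset ι → Prop) (θ : (ι → S.T) → ℝ), S.Ann Bd v W (S.cT5 c) →
  S.Gen5 Bd v W (S.cT5 c) Φ → Φ Finset.univ → (∀ t, 0 ≤ θ t) →
  ∃ L : ℝ, 0 ≤ L ∧ Tendsto (fun Y : ℝ => S.S5 Bd v W (S.cT5 c) ∅ Φ (fun _ => True) θ Y /
      (Y * Real.log Y ^ (Fintype.card ι - 1))) atTop (𝓝 L) ∧
    ((∃ x : ι → Finset S.P, S.Gd x ∧ S.okc5 Bd v (S.cT5 c) x ∧
      0 < θ (fun u => S.tys (x u))) → 0 < L)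

open Classical in
/-- families where an allowed type does not occur in a variable are negligible -/
def SExc5 : Prop := ∀ (l : ℕ) [Fact l.Prime] (S : SysL l) (d n : ℕ) (Bd : SysL.BD l d n)
  (ι : Type) [Fintype ι] [Nonempty ι] (v : ι → SysL.VV l d)
  (W : ι → Submodule (ZMod l) (SysL.VV l n)) (c : ι → SysL.VV l n → S.T)
  (Φ : Finset ι → Prop), S.Ann Bd v W (S.cT5 c) → S.Gen5 Bd v W (S.cT5 c) Φ →
  Φ Finset.univ → ∀ (u1 : ι) (t1 : S.T), S.Al5 Bd v c u1 t1 →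
  Tendsto (fun Y : ℝ => S.S5 Bd v W (S.cT5 c) ∅ Φ (fun x => ∀ p ∈ x u1, S.ty p ≠ t1)
      (fun _ => 1) Y / (Y * Real.log Y ^ (Fintype.card ι - 1))) atTop (𝓝 0)

open Classical in
/-- the uniform bound -/
def SUnf5 : Prop := ∀ (l : ℕ) [Fact l.Prime] (S : SysL l) (d n : ℕ) (Bd : SysL.BD l d n)
  (ι : Type) [Fintype ι] [Nonempty ι] (v : ι → SysL.VV l d)
  (W : ι → Submodule (ZMod l) (SysL.VV l n)) (ε : ℝ), 0 < ε → ∃ C : ℝ, 0 ≤ C ∧
  ∀ (c : ι → SysL.VV l n → S.El) (M : Finset S.P) (Φ : Finset ι → Prop), S.Ann Bd v W c →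
    S.Stb M → (∀ u ζ, (c u ζ).2.support ⊆ M) → S.Gen5 Bd v W c Φ →
    ∀ Y : ℝ, 2 ≤ Y → S.S5 Bd v W c M Φ (fun _ => True) (fun _ => 1) Y ≤
      C * (S.nm M : ℝ) ^ ε * (Y * Real.log Y ^ (Fintype.card ι - 1))

end Pool.Agent.H92.EL
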