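import Pool.Agent.H92.EL.CFin

/-!
# Project T5 (MP_a3214d), odd `l`: interface between the analysis and the homomorphisms
-/

set_option autoImplicit false

open scoped BigOperators Topology
open Filter

namespace Pool.Agent.H92.T5

open Pool.Agent.H92.EL
open Pool.Agent.H92.EL.SysL (VV BD)

section

variable {l : ℕ} [Fact l.Prime] {S : SysL l} {d n : ℕ} {ι : Type} [Fintype ι]

/-- the condition at the primes of a configuration -/
def okc5 (Bd : BD l d n) (v : ι → VV l d) (c : ι → VV l n → S.El)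
    (x : ι → Finset S.P) : Prop :=
  ∀ u, ∀ p ∈ x u, ∀ ζ : VV l n,
    ∑ w, (∑ q ∈ x w, S.J q p) * (ζ ⬝ᵥ Bd.B (v w) (v u)) + S.ex (c u ζ) p = 0

/-- the dual vectors vanishing on `W u` do not occur at the primes of `x u` -/
def Ann5 (Bd : BD l d n) (v : ι → VV l d) (W : ι → Submodule (ZMod l) (VV l n))
    (c : ι → VV l n → S.El) : Prop :=
  ∀ u ζ, (∀ z ∈ W u, ζ ⬝ᵥ z = 0) → (∀ w : VV l d, ζ ⬝ᵥ Bd.B w (v u) = 0) ∧ c u ζ = 0

/-- additivity in the dual vector -/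
def Adc5 (c : ι → VV l n → S.El) : Prop := ∀ u ζ ζ', c u (ζ + ζ') = c u ζ + c u ζ'

/-- patterns that generate -/
def Gen5 (Bd : BD l d n) (v : ι → VV l d) (W : ι → Submodule (ZMod l) (VV l n))
    (c : ι → VV l n → S.El) (Φ : Finset ι → Prop) : Prop :=
  ∀ U : Finset ι, Φ U → ∀ u ζ, c u ζ = 0 → (∀ w ∈ U, ζ ⬝ᵥ Bd.B (v w) (v u) = 0) →
    ∀ z ∈ W u, ζ ⬝ᵥ z = 0

/-- outer characters that are functions of the types -/
def cT5 (S : SysL l) (c : ι → VV l n → S.T) (u : ι) (ζ : VV l n) : S.El := (c u ζ, 0)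

/-- the number of choices of central elements at the primes of a configuration -/
noncomputable def nW {P : Type} (W : ι → Submodule (ZMod l) (VV l n)) (x : ι → Finset P) : ℝ :=
  ∏ u, (Nat.card (W u) : ℝ) ^ (x u).card

open Classical in
/-- the weighted number of configurations of bounded norm -/
noncomputable def S5 (Bd : BD l d n) (v : ι → VV l d) (W : ι → Submodule (ZMod l) (VV l n))
    (c : ι → VV l n → S.El) (M : Finset S.P) (Φ : Finset ι → Prop)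
    (E : (ι → Finset S.P) → Prop) (θ : (ι → S.T) → ℝ) (Y : ℝ) : ℝ :=
  ∑ x ∈ Fintype.piFinset (fun _ : ι => S.bx Y),
    if S.Gd x ∧ S.Off M x ∧ okc5 Bd v c x ∧ Φ (S.pat x) ∧ E x ∧
      ((∏ u, S.nm (x u) : ℕ) : ℝ) ≤ Y
    then θ (fun u => S.tys (x u)) * nW W x else 0

end

open Classical in
/-- the asymptotic formula for a fixed frame -/
def SFix5 : Prop := ∀ (l : ℕ) [Fact l.Prime] (S : SysL l) (d n : ℕ) (Bd : BD l d n)
  (ι : Type) [Fintype ι] [Nonempty ι] (v : ι → VV l d) (W : ι → Submodule (ZMod l) (VV l n))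
  (c : ι → VV l n → S.T) (Φ : Finset ι → Prop) (θ : (ι → S.T) → ℝ),
  Ann5 Bd v W (cT5 S c) → Adc5 (cT5 S c) → Gen5 Bd v W (cT5 S c) Φ → Φ Finset.univ →
  (∀ t, 0 ≤ θ t) → ∃ L : ℝ, 0 ≤ L ∧ Tendsto (fun Y : ℝ =>
    S5 Bd v W (cT5 S c) ∅ Φ (fun _ => True) θ Y / (Y * Real.log Y ^ (Fintype.card ι - 1)))
      atTop (𝓝 L) ∧
    ((∃ x : ι → Finset S.P, S.Gd x ∧ okc5 Bd v (cT5 S c) x ∧
      0 < θ (fun u => S.tys (x u))) → 0 < L)

open Classical in
/-- configurations where one variable has no prime of a given type are negligible -/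
def SExc5 : Prop := ∀ (l : ℕ) [Fact l.Prime] (S : SysL l) (d n : ℕ) (Bd : BD l d n)
  (ι : Type) [Fintype ι] [Nonempty ι] (v : ι → VV l d) (W : ι → Submodule (ZMod l) (VV l n))
  (c : ι → VV l n → S.T) (Φ : Finset ι → Prop),
  Ann5 Bd v W (cT5 S c) → Adc5 (cT5 S c) → Gen5 Bd v W (cT5 S c) Φ → Φ Finset.univ →
  ∀ (u1 : ι) (t1 : S.T), Tendsto (fun Y : ℝ =>
    S5 Bd v W (cT5 S c) ∅ Φ (fun x => ∀ p ∈ x u1, S.ty p ≠ t1) (fun _ => 1) Y /
      (Y * Real.log Y ^ (Fintype.card ι - 1))) atTop (𝓝 0)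

/-- the uniform bound -/
def SUnf5 : Prop := ∀ (l : ℕ) [Fact l.Prime] (S : SysL l) (d n : ℕ) (Bd : BD l d n)
  (ι : Type) [Fintype ι] [Nonempty ι] (v : ι → VV l d) (W : ι → Submodule (ZMod l) (VV l n))
  (ε : ℝ), 0 < ε → ∃ C : ℝ, 0 ≤ C ∧
  ∀ (c : ι → VV l n → S.El) (M : Finset S.P) (Φ : Finset ι → Prop),
    Ann5 Bd v W c → Adc5 c → S.Stb M → (∀ u ζ, (c u ζ).2.support ⊆ M) → Gen5 Bd v W c Φ →
    ∀ Y : ℝ, 2 ≤ Y → S5 Bd v W c M Φ (fun _ => True) (fun _ => 1) Y ≤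
      C * (S.nm M : ℝ) ^ ε * (Y * Real.log Y ^ (Fintype.card ι - 1))

end Pool.Agent.H92.T5
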