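import Pool.Agent.H92.EL.GDefs
import Pool.Agent.TF.Defs
import Pool.Agent.H92.T5.Dat

/-!
# Project T5 (MP_a3214d): groups with a set `M` of elements of prime order `l` in the second
center, configurations; definitions (odd `l`)
-/

set_option autoImplicit false

open scoped BigOperators Topology
open NumberField IsDedekindDomain Filter

namespace Pool.Agent.H92.T5

open Pool.Agent.H98.MF (Om Gm Dec nrm rdN fld)
open Pool.Agent.H92.EL
open Pool.Agent.H92.EL.SysL (VV BD)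
open Pool.Agent.TF (HypM Mcl OkM Cg5 HI5 InnF5 InnU5 Inn5)

/-! ### the groups -/

/-- coordinates of the subgroup `N` generated by `M`: `nn v z` runs over `N`, the elements
`nn 0 z` over the commutators `[G, N]`, `bp` is the commutator pairing -/
structure Cd5 (l : ℕ) [Fact l.Prime] (G : Type) [Group G] (M : Set G) where
  d : ℕ
  n : ℕ
  Bd : BD l d n
  nn : VV l d → VV l n → G
  nn_mul : ∀ v w z y, nn v z * nn w y = nn (v + w) (z + y + (2 : ZMod l)⁻¹ • Bd.B v w)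
  nn_inj : ∀ v w z y, nn v z = nn w y → v = w ∧ z = y
  nn_iff : ∀ g : G, g ∈ Subgroup.closure M ↔ ∃ v z, g = nn v z
  nn_cen : ∀ z, nn 0 z ∈ Subgroup.center G
  bp : G → VV l d → VV l n
  bp_conj : ∀ g v z, g * nn v z * g⁻¹ = nn v (z + bp g v)
  bp_mul : ∀ g h v, bp (g * h) v = bp g v + bp h v
  bp_add : ∀ g v w, bp g (v + w) = bp g v + bp g w
  bp_nn : ∀ w z v, bp (nn w z) v = Bd.B w v
  bp_span : ∀ ζ : VV l n, (∀ g v, ζ ⬝ᵥ bp g v = 0) → ζ = 0

/-- H1: coordinates exist -/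
def SHCd : Prop := ∀ (l : ℕ) [Fact l.Prime], l ≠ 2 → ∀ (G : Type) [Group G] (M : Set G),
  HypM l G M → Nonempty (Cd5 l G M)

section

variable {l : ℕ} [Fact l.Prime] {G : Type} [Group G] {M : Set G}

/-- the commutators with `v` -/
def Cd5.W (C : Cd5 l G M) (v : VV l C.d) : Submodule (ZMod l) (VV l C.n) :=
  Submodule.span (ZMod l) (Set.range fun g => C.bp g v)

/-- representatives of the classes in `M` modulo the cyclotomic character of a system of primes -/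
structure Cls (C : Cd5 l G M) (S : SysL l) (ι : Type) (v : ι → VV l C.d) (z : ι → VV l C.n) :
    Prop where
  mem : ∀ u, C.nn (v u) (z u) ∈ M
  cov : ∀ w y, C.nn w y ∈ M → ∃ (u : ι) (g : S.D), w = (S.e g : ZMod l) • v u ∧
    ∃ t ∈ C.W (v u), y = (S.e g : ZMod l) • (z u + t)
  unq : ∀ (u u' : ι) (g : S.D), v u = (S.e g : ZMod l) • v u' →
    (∃ t ∈ C.W (v u'), z u = (S.e g : ZMod l) • (z u' + t)) → u = u' ∧ g = 1

end

/-- H2: the commutators with `v`, and the classes -/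
def SHW : Prop := ∀ (l : ℕ) [Fact l.Prime] (G : Type) [Group G] (M : Set G) (C : Cd5 l G M)
  (v : VV l C.d), (∀ z, z ∈ C.W v ↔ ∃ g, z = C.bp g v) ∧
    (∀ w, C.Bd.B w v ∈ C.W v) ∧
    ∀ (a : ZMod l), a ≠ 0 → C.W (a • v) = C.W v

/-- H3: representatives of the classes exist, their number -/
def SHCls : Prop := ∀ (l : ℕ) [Fact l.Prime], l ≠ 2 → ∀ (G : Type) [Group G] (M : Set G),
  HypM l G M → ∀ C : Cd5 l G M,
  (∀ ζ : VV l C.n, (∀ w y, C.nn w y ∈ M → ∀ t ∈ C.W w, ζ ⬝ᵥ t = 0) → ζ = 0) ∧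
  ∀ (k : Type) [Field k] [NumberField k] (S : SysL l),
    (∀ u : (ZMod l)ˣ, (∃ g, S.e g = u) ↔ u ∈ cyc k l) →
    ∃ (ι : Type) (_ : Fintype ι) (v : ι → VV l C.d) (z : ι → VV l C.n), Cls C S ι v z ∧
      Nonempty ι ∧ Fintype.card ι * Nat.card (cyc k l) = Nat.card (Mcl M)

/-! ### configurations -/

section

variable {k : Type} [Field k] [NumberField k] {l : ℕ} [Fact l.Prime] {T : TM k}
  {G : Type} [Group G] {M : Set G} (C : Cd5 l G M) (Fr : FrI k l T.tau T.phi)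
  {ι : Type} [Fintype ι]

/-- the noncentral part of a homomorphism -/
noncomputable def aa5 {d : ℕ} (Fr : FrI k l T.tau T.phi) (v : ι → VV l d)
    (y : Fin d → Fin Fr.U → ZMod l) (x : ι → Finset Fr.sys.P) (σ : Gm k) : VV l d :=
  fun i => Fr.un (y i) σ + ∑ u, v u i * ∑ p ∈ x u, Fr.al p σ

/-- the central part of a homomorphism: units and elements attached to the primes -/
noncomputable def cz5 {n : ℕ} (Fr : FrI k l T.tau T.phi) (x : ι → Finset Fr.sys.P)
    (u' : Fin n → Fin Fr.U → ZMod l) (ζ : Fr.sys.P → VV l n) (σ : Gm k) : VV l n :=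
  fun i => Fr.un (u' i) σ + ∑ u, ∑ p ∈ x u, ζ p i * Fr.al p σ

open Classical in
/-- the choices of central elements at the primes of a configuration -/
noncomputable def Zc {n : ℕ} {P : Type} (W : ι → Submodule (ZMod l) (VV l n))
    (z : ι → VV l n) (x : ι → Finset P) : Set (P → VV l n) :=
  {ζ | (∀ u, ∀ p ∈ x u, ζ p - z u ∈ W u) ∧ ∀ p, (∀ u, p ∉ x u) → ζ p = 0}

/-- the total type of a choice of central elements -/
noncomputable def tz5 {n : ℕ} (S : SysL l) (x : ι → Finset S.P) (ζ : S.P → VV l n) :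
    Fin n → S.T :=
  fun i => ∑ u, ∑ p ∈ x u, ζ p i • S.ty p

/-- the cocycle relation on `D` -/
def Coc5 (D : Subgroup (Gm k)) (ρ : Gm k →* G) (a : Gm k → VV l C.d) (c : Gm k → VV l C.n) :
    Prop :=
  ∀ σ ∈ D, ∀ τ ∈ D, c (σ * τ) = c σ + c τ + (2 : ZMod l)⁻¹ • C.Bd.B (a σ) (a τ) +
    C.bp (ρ σ) (a τ)

/-- `c` lifts the configuration `y`, `x` relative to `ρ0` -/
def Lft5 (v : ι → VV l C.d) (ρ0 : Gm k →* G) (y : Fin C.d → Fin Fr.U → ZMod l)
    (x : ι → Finset Fr.sys.P) (c : Gm k → VV l C.n) : Prop :=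
  IsLocallyConstant c ∧ Coc5 C ⊤ ρ0 (aa5 Fr v y x) c

/-- the outer characters of a base homomorphism twisted by units -/
noncomputable def oc5 (v : ι → VV l C.d) (ρ : Gm k →* G) (y : Fin C.d → Fin Fr.U → ZMod l)
    (u : ι) (ζ : VV l C.n) : Fr.sys.El :=
  Fr.cl fun σ => ζ ⬝ᵥ (C.bp (ρ σ) (v u) + C.Bd.B (fun i => Fr.un (y i) σ) (v u))

/-- the images of a base homomorphism twisted by units and of some vectors generate `G` modulo
the commutators `[G, N]` -/
def gen5 (v : ι → VV l C.d) (ρ : Gm k →* G) (y : Fin C.d → Fin Fr.U → ZMod l)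
    (U : Finset ι) : Prop :=
  Subgroup.closure ({g | ∃ σ, g = C.nn (fun i => Fr.un (y i) σ) 0 * ρ σ} ∪
    {g | ∃ u ∈ U, g = C.nn (v u) 0} ∪ {g | ∃ z, g = C.nn 0 z}) = ⊤

/-- the types of the primes of a configuration and the commutators span everything -/
def Ful {n : ℕ} (S : SysL l) (W : ι → Submodule (ZMod l) (VV l n)) (x : ι → Finset S.P) :
    Prop :=
  ∀ χ : Fin n → Fin S.m → ZMod l,
    (∀ u, ∀ p ∈ x u, ∀ t ∈ W u, ∑ i, ∑ j, χ i j * t i * S.ty p j = 0) → χ = 0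

/-! ### homomorphisms -/

/-- the configuration of a homomorphism: at the primes of `x u` the inertia has class `u`,
elsewhere outside `S` and `A` it is trivial -/
def Rec5 (v : ι → VV l C.d) (z : ι → VV l C.n) (A : Finset (HeightOneSpectrum (𝓞 k)))
    (ρ : Gm k →* G) (x : ι → Finset Fr.sys.P) : Prop :=
  Fr.sys.Gd x ∧ (∀ u, ∀ p ∈ x u, Fr.dn p ∉ A) ∧
    (∀ u, ∀ p ∈ x u, ∃ t ∈ C.W (v u), ρ (T.tau (Fr.dn p)) =
      C.nn (Fr.al p (T.tau (Fr.dn p)) • v u) (Fr.al p (T.tau (Fr.dn p)) • (z u + t))) ∧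
    ∀ P, P ∉ Fr.S → P ∉ A → (∀ u, ∀ p ∈ x u, Fr.dn p ≠ P) → ρ (T.tau P) = 1

end

end Pool.Agent.H92.T5
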