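import Pool.Agent.H92.T5.GDefs
import Pool.Agent.H92.EL.GStm

/-!
# Project T5 (MP_a3214d), odd `l`: statements about homomorphisms
-/

set_option autoImplicit false

open scoped BigOperators Topology
open NumberField IsDedekindDomain Filter

namespace Pool.Agent.H92.T5

open Pool.Agent.H98.MF (Om Gm Dec nrm rdN fld)
open Pool.Agent.H92.EL
open Pool.Agent.H92.EL.SysL (VV BD)
open Pool.Agent.TF (HypM Mcl OkM Cg5 HI5 InnF5 InnU5 Inn5)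

section

variable {k : Type} [Field k] [NumberField k] {l : ℕ} [Fact l.Prime] {T : TM k}

/-- no prime of `x` lies over `P` -/
def Nov (Fr : FrI k l T.tau T.phi) {ι : Type} (x : ι → Finset Fr.sys.P)
    (P : HeightOneSpectrum (𝓞 k)) : Prop := ∀ u, ∀ p ∈ x u, Fr.dn p ≠ P

/-- H4: values of the noncentral part -/
def SH4 (Fr : FrI k l T.tau T.phi) : Prop := ∀ (d : ℕ) (ι : Type) [Fintype ι] (v : ι → VV l d)
  (y : Fin d → Fin Fr.U → ZMod l) (x : ι → Finset Fr.sys.P), Fr.sys.Gd x →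
  (∀ i, Hm fun σ => aa5 Fr v y x σ i) ∧
  (∀ u, ∀ p ∈ x u, Fr.al p (T.tau (Fr.dn p)) ≠ 0 ∧
    aa5 Fr v y x (T.tau (Fr.dn p)) = Fr.al p (T.tau (Fr.dn p)) • v u) ∧
  (∀ P, P ∉ Fr.S → Nov Fr x P → aa5 Fr v y x (T.tau P) = 0) ∧
  ∀ u, ∀ q ∈ x u, ∀ f : VV l d →ₗ[ZMod l] ZMod l, f (v u) = 0 →
    Fr.cc (Fr.dn q) * f (aa5 Fr v y x (T.phi (Fr.dn q))) =
      Fr.cc (Fr.dn q) * f (fun i => Fr.un (y i) (T.phi (Fr.dn q))) +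
        ∑ w, f (v w) * ∑ p ∈ x w, Fr.sys.J p q

/-- H5: central homomorphisms ramified at the primes of `x` -/
def SH5 (Fr : FrI k l T.tau T.phi) : Prop := ∀ (n : ℕ) (ι : Type) [Fintype ι]
  (x : ι → Finset Fr.sys.P), Fr.sys.Gd x →
  (∀ (u' : Fin n → Fin Fr.U → ZMod l) (ζ : Fr.sys.P → VV l n),
    (∀ i, Hm fun σ => cz5 Fr x u' ζ σ i) ∧
    (∀ u, ∀ p ∈ x u, cz5 Fr x u' ζ (T.tau (Fr.dn p)) = Fr.al p (T.tau (Fr.dn p)) • ζ p) ∧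
    (∀ P, P ∉ Fr.S → Nov Fr x P → cz5 Fr x u' ζ (T.tau P) = 0) ∧
    ∀ P ∈ Fr.S, ∀ σ ∈ Dec P, ∀ i, cz5 Fr x u' ζ σ i =
      Fr.un (u' i) σ + Fr.lam (tz5 Fr.sys x ζ i) σ) ∧
  ∀ c : Gm k → VV l n, (∀ i, Hm fun σ => c σ i) →
    (∀ P, P ∉ Fr.S → Nov Fr x P → c (T.tau P) = 0) →
    ∃! w : (Fin n → Fin Fr.U → ZMod l) × (Fr.sys.P → VV l n),
      (∀ p, (∀ u, p ∉ x u) → w.2 p = 0) ∧ ∀ σ, c σ = cz5 Fr x w.1 w.2 σ

variable {G : Type} [Group G] {M : Set G} (C : Cd5 l G M)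

/-- H6: homomorphisms congruent modulo the subgroup generated by `M` -/
def SH6 (k : Type) [Field k] [NumberField k] (C : Cd5 l G M) : Prop := ∀ ρ ρ0 : Gm k →* G,
  IsLocallyConstant ρ0 →
  ((IsLocallyConstant ρ ∧ Cg5 M ρ ρ0) ↔ ∃ (a : Gm k → VV l C.d) (c : Gm k → VV l C.n),
    (∀ i, Hm fun σ => a σ i) ∧ IsLocallyConstant c ∧ Coc5 C ⊤ ρ0 a c ∧
      ∀ σ, ρ σ = C.nn (a σ) (c σ) * ρ0 σ)

/-- H6b: every cocycle gives a homomorphism -/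
def SH6b (k : Type) [Field k] [NumberField k] (C : Cd5 l G M) : Prop := ∀ (ρ0 : Gm k →* G)
  (a : Gm k → VV l C.d) (c : Gm k → VV l C.n), IsLocallyConstant ρ0 →
  (∀ i, Hm fun σ => a σ i) → IsLocallyConstant c → Coc5 C ⊤ ρ0 a c →
    ∃ ρ : Gm k →* G, IsLocallyConstant ρ ∧ ∀ σ, ρ σ = C.nn (a σ) (c σ) * ρ0 σ

/-- H7: the obstruction -/
def SH7 (Fr : FrI k l T.tau T.phi) : Prop := ∀ (ι : Type) [Fintype ι] (v : ι → VV l C.d),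
  Ctn Fr.S (Nat.card G) → ∀ ρ0 : Gm k →* G, IsLocallyConstant ρ0 → Unr T Fr.S ρ0 →
  ∀ y x, Fr.sys.Gd x →
    ((∃ c, Lft5 C Fr v ρ0 y x c) ↔
      ((∀ P ∈ Fr.S, ∃ c : Gm k → VV l C.n, IsLocallyConstant c ∧
        Coc5 C (Dec P) ρ0 (aa5 Fr v y x) c) ∧
      okc5 C.Bd v (oc5 C Fr v ρ0 y) x))

/-- a configuration with its cochain -/
structure Cfg (Fr : FrI k l T.tau T.phi) {ι : Type} [Fintype ι] (v : ι → VV l C.d)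
    (z : ι → VV l C.n) (ρ0 : Gm k →* G) (y : Fin C.d → Fin Fr.U → ZMod l)
    (x : ι → Finset Fr.sys.P) (c : Gm k → VV l C.n) : Prop where
  gd : Fr.sys.Gd x
  lft : Lft5 C Fr v ρ0 y x c
  cls : ∀ u, ∀ p ∈ x u, ∃ t ∈ C.W (v u), c (T.tau (Fr.dn p)) =
    Fr.al p (T.tau (Fr.dn p)) • (z u + t)
  off : ∀ P, P ∉ Fr.S → Nov Fr x P → c (T.tau P) = 0

/-- H8: parametrisation of the homomorphisms with inertia in `M` outside `S` -/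
def SH8 (Fr : FrI k l T.tau T.phi) : Prop := ∀ (ι : Type) [Fintype ι] (v : ι → VV l C.d)
  (z : ι → VV l C.n), Cls C Fr.sys ι v z → Ctn Fr.S (Nat.card G) →
  ∀ ρ0 : Gm k →* G, IsLocallyConstant ρ0 → Unr T Fr.S ρ0 →
  (∀ ρ : Gm k →* G, IsLocallyConstant ρ → Cg5 M ρ ρ0 → (∀ P, P ∉ Fr.S → OkM M (ρ (T.tau P))) →
    ∃ y x c, Cfg C Fr v z ρ0 y x c ∧ ∀ σ, ρ σ = C.nn (aa5 Fr v y x σ) (c σ) * ρ0 σ) ∧
  (∀ (ρ : Gm k →* G) (y x c), Cfg C Fr v z ρ0 y x c →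
    (∀ σ, ρ σ = C.nn (aa5 Fr v y x σ) (c σ) * ρ0 σ) →
    IsLocallyConstant ρ ∧ Cg5 M ρ ρ0 ∧ (∀ P, P ∉ Fr.S → OkM M (ρ (T.tau P))) ∧
    Rec5 C Fr v z ∅ ρ x) ∧
  ∀ y x c y' x' c', Cfg C Fr v z ρ0 y x c → Cfg C Fr v z ρ0 y' x' c' →
    (∀ σ, C.nn (aa5 Fr v y x σ) (c σ) = C.nn (aa5 Fr v y' x' σ) (c' σ)) →
    y = y' ∧ x = x' ∧ c = c'

/-- H8n: the product of the norms of the ramified primes -/
def SH8n (Fr : FrI k l T.tau T.phi) : Prop := ∀ (ι : Type) [Fintype ι] (v : ι → VV l C.d)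
  (z : ι → VV l C.n), Cls C Fr.sys ι v z → ∀ (A : Finset (HeightOneSpectrum (𝓞 k)))
  (ρ : Gm k →* G) (x : ι → Finset Fr.sys.P), Rec5 C Fr v z A ρ x →
    (open Classical in nO T (Fr.S ∪ A) ρ) = ∏ u, Fr.sys.nm (x u)

/-- H8a: surjectivity is a condition on the pattern -/
def SH8a (Fr : FrI k l T.tau T.phi) : Prop := ∀ (ι : Type) [Fintype ι] (v : ι → VV l C.d),
  ∀ ρ0 ρ : Gm k →* G, IsLocallyConstant ρ0 → IsLocallyConstant ρ → Unr T Fr.S ρ0 →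
  ∀ y x, ∀ c : Gm k → VV l C.n, Fr.sys.Gd x →
    (∀ σ, ρ σ = C.nn (aa5 Fr v y x σ) (c σ) * ρ0 σ) →
    (Function.Surjective ρ ↔ gen5 C Fr v ρ0 y (Fr.sys.pat x))

/-- H8b: the outer characters of a base homomorphism unramified outside `S` -/
def SH8b (Fr : FrI k l T.tau T.phi) : Prop := ∀ (ι : Type) [Fintype ι] (v : ι → VV l C.d),
  ∀ ρ0 : Gm k →* G, IsLocallyConstant ρ0 → Unr T Fr.S ρ0 → ∀ y,
  ∃ c : ι → VV l C.n → Fr.sys.T, oc5 C Fr v ρ0 y = cT5 Fr.sys c ∧ Adc5 (cT5 Fr.sys c) ∧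
    Ann5 C.Bd v (fun u => C.W (v u)) (cT5 Fr.sys c) ∧
    Gen5 C.Bd v (fun u => C.W (v u)) (cT5 Fr.sys c) (gen5 C Fr v ρ0 y) ∧
    ((∃ U, gen5 C Fr v ρ0 y U) → gen5 C Fr v ρ0 y Finset.univ)

/-- H8r: lifts vanishing at the tame generators outside `S` -/
def SH8r (Fr : FrI k l T.tau T.phi) : Prop := ∀ (ι : Type) [Fintype ι] (v : ι → VV l C.d),
  Ctn Fr.S (Nat.card G) → ∀ ρ0 : Gm k →* G, IsLocallyConstant ρ0 → Unr T Fr.S ρ0 →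
  ∀ y x, Fr.sys.Gd x → (∃ c, Lft5 C Fr v ρ0 y x c) →
    ∃ c, Lft5 C Fr v ρ0 y x c ∧ ∀ P, P ∉ Fr.S → c (T.tau P) = 0

open Classical in
/-- H8g: the number of twists by units satisfying a local condition -/
def SH8g (Fr : FrI k l T.tau T.phi) : Prop := ∀ (ι : Type) [Fintype ι] (v : ι → VV l C.d),
  Ctn Fr.S (Nat.card G) → ∀ ρ0 : Gm k →* G, IsLocallyConstant ρ0 → Unr T Fr.S ρ0 →
  ∀ H : (Gm k →* G) → Prop, HLo Fr.S H →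
  ∀ c0 : (Fin C.d → Fin Fr.U → ZMod l) → (ι → Finset Fr.sys.P) → Gm k → VV l C.n,
  (∀ y x, Fr.sys.Gd x → (∃ c, Lft5 C Fr v ρ0 y x c) → Lft5 C Fr v ρ0 y x (c0 y x)) →
  ∃ (g : (Fin C.d → Fin Fr.U → ZMod l) → (ι → Finset Fr.sys.P) → (Fin C.n → Fr.sys.T) → ℝ)
    (θ : (Fin C.d → Fin Fr.U → ZMod l) → (ι → Fr.sys.T) → ℝ),
    (∀ y x t, 0 ≤ g y x t ∧ g y x t ≤ 1) ∧ (∀ y t, 0 ≤ θ y t) ∧
    (∀ y x, Fr.sys.Gd x → okc5 C.Bd v (oc5 C Fr v ρ0 y) x →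
      (1 / ((l : ℝ) ^ Fr.sys.m) ^ C.n) * ∑ t : Fin C.n → Fr.sys.T, g y x t =
        θ y (fun u => Fr.sys.tys (x u))) ∧
    (H ρ0 → 0 < θ 0 (fun _ => 0)) ∧
    (∀ y x t, ¬ (Fr.sys.Gd x ∧ ∃ c, Lft5 C Fr v ρ0 y x c) → g y x t = 0) ∧
    ∀ y x t, Fr.sys.Gd x → (∃ c, Lft5 C Fr v ρ0 y x c) →
      ∀ ρu : (Fin C.n → Fin Fr.U → ZMod l) → (Gm k →* G),
      (∀ u σ, ρu u σ = C.nn (aa5 Fr v y x σ)
        (c0 y x σ + fun i => Fr.un (u i) σ + Fr.lam (t i) σ) * ρ0 σ) →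
        ((Finset.univ.filter fun u => H (ρu u)).card : ℝ) = g y x t * ((l : ℝ) ^ Fr.U) ^ C.n

/-- H8t: the total types of the choices are uniformly distributed -/
def SH8t : Prop := ∀ (l : ℕ) [Fact l.Prime] (S : SysL l) (n : ℕ) (ι : Type) [Fintype ι]
  (W : ι → Submodule (ZMod l) (VV l n)) (z : ι → VV l n) (x : ι → Finset S.P), S.Gd x →
  (Zc W z x).Finite ∧ ((Zc W z x).ncard : ℝ) = nW W x ∧
  (Ful S W x → ∀ t : Fin n → S.T,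
    (({ζ ∈ Zc W z x | tz5 S x ζ = t}.ncard : ℕ) : ℝ) * ((l : ℝ) ^ S.m) ^ n = nW W x)

/-- the homomorphisms with given configuration and a local condition -/
def HX (Fr : FrI k l T.tau T.phi) {ι : Type} [Fintype ι] (v : ι → VV l C.d)
    (z : ι → VV l C.n) (ρ0 : Gm k →* G) (H : (Gm k →* G) → Prop)
    (y : Fin C.d → Fin Fr.U → ZMod l) (x : ι → Finset Fr.sys.P) : Set (Gm k →* G) :=
  {ρ | H ρ ∧ ∃ c, Cfg C Fr v z ρ0 y x c ∧ ∀ σ, ρ σ = C.nn (aa5 Fr v y x σ) (c σ) * ρ0 σ}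

/-- H8c: the count for one configuration -/
def SH8c (Fr : FrI k l T.tau T.phi) : Prop := ∀ (ι : Type) [Fintype ι] (v : ι → VV l C.d)
  (z : ι → VV l C.n), Cls C Fr.sys ι v z → Ctn Fr.S (Nat.card G) →
  ∀ ρ0 : Gm k →* G, IsLocallyConstant ρ0 → Unr T Fr.S ρ0 →
  ∀ H : (Gm k →* G) → Prop, HLo Fr.S H →
  ∃ θ : (Fin C.d → Fin Fr.U → ZMod l) → (ι → Fr.sys.T) → ℝ,
    (∀ y t, 0 ≤ θ y t ∧ θ y t ≤ 1) ∧ (H ρ0 → 0 < θ 0 (fun _ => 0)) ∧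
    ∀ y x, Fr.sys.Gd x → (HX C Fr v z ρ0 H y x).Finite ∧
      (((HX C Fr v z ρ0 H y x).ncard : ℕ) : ℝ) ≤
        ((l : ℝ) ^ Fr.U) ^ C.n * nW (fun u => C.W (v u)) x ∧
      (¬ okc5 C.Bd v (oc5 C Fr v ρ0 y) x → HX C Fr v z ρ0 H y x = ∅) ∧
      (okc5 C.Bd v (oc5 C Fr v ρ0 y) x → Ful Fr.sys (fun u => C.W (v u)) x →
        (((HX C Fr v z ρ0 H y x).ncard : ℕ) : ℝ) = ((l : ℝ) ^ Fr.U) ^ C.n *
          (θ y (fun u => Fr.sys.tys (x u)) * nW (fun u => C.W (v u)) x))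

/-- H9: the asymptotic formula for a base homomorphism unramified outside `S` -/
def SH9 (Fr : FrI k l T.tau T.phi) : Prop := ∀ (ι : Type) [Fintype ι] [Nonempty ι]
  (v : ι → VV l C.d) (z : ι → VV l C.n), Cls C Fr.sys ι v z → Ctn Fr.S (Nat.card G) →
  ∀ ρ0 : Gm k →* G, ρ0 ∈ Hk k G → Unr T Fr.S ρ0 → ∀ H : (Gm k →* G) → Prop, HLo Fr.S H →
  (∀ Y : ℝ, (HI5 M T ρ0 H Fr.S Y).Finite) ∧
  ∃ L : ℝ, 0 ≤ L ∧ Tendsto (fun Y : ℝ => ((HI5 M T ρ0 H Fr.S Y).ncard : ℝ) /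
    (Y * Real.log Y ^ (Fintype.card ι - 1))) atTop (𝓝 L) ∧ (H ρ0 → 0 < L)

/-! ### the uniform bound -/

/-- the surjective homomorphisms with inertia trivial or in `M` outside `S` and `A` -/
def HkM (T : TM k) (M : Set G) (S A : Finset (HeightOneSpectrum (𝓞 k))) : Set (Gm k →* G) :=
  {ρ | ρ ∈ Hk k G ∧ ∀ P, P ∉ S → P ∉ A → OkM M (ρ (T.tau P))}

/-- the same homomorphism modulo `[G, N]` after removing the recorded ramification -/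
def Cls5 (Fr : FrI k l T.tau T.phi) {ι : Type} [Fintype ι] (v : ι → VV l C.d)
    (ρ1 : Gm k →* G) (x1 : ι → Finset Fr.sys.P) (ρ : Gm k →* G) (x : ι → Finset Fr.sys.P) :
    Prop :=
  ∀ σ, ∃ z, C.nn (-aa5 Fr v 0 x σ) 0 * ρ σ = C.nn (-aa5 Fr v 0 x1 σ) z * ρ1 σ

/-- H13a: every homomorphism has a record -/
def SH13a (Fr : FrI k l T.tau T.phi) : Prop := ∀ (ι : Type) [Fintype ι] (v : ι → VV l C.d)
  (z : ι → VV l C.n), Cls C Fr.sys ι v z → Ctn Fr.S (Nat.card G) →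
  ∀ (A : Finset (HeightOneSpectrum (𝓞 k))) (ρ : Gm k →* G), ρ ∈ HkM T M Fr.S A →
    ∃ x : ι → Finset Fr.sys.P, Rec5 C Fr v z A ρ x

/-- H13b: the number of classes -/
def SH13b (Fr : FrI k l T.tau T.phi) : Prop := ∀ (ι : Type) [Fintype ι] (v : ι → VV l C.d)
  (z : ι → VV l C.n), Cls C Fr.sys ι v z → Ctn Fr.S (Nat.card G) →
  ∃ C0 : ℕ, 1 ≤ C0 ∧ ∀ A : Finset (HeightOneSpectrum (𝓞 k)),
    ∃ W : Finset ((Gm k →* G) × (ι → Finset Fr.sys.P)), W.card ≤ C0 ^ (A.card + 1) ∧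
      (∀ w ∈ W, w.1 ∈ HkM T M Fr.S A ∧ Rec5 C Fr v z A w.1 w.2) ∧
      ∀ ρ ∈ HkM T M Fr.S A, ∀ x, Rec5 C Fr v z A ρ x → ∃ w ∈ W, Cls5 C Fr v w.1 w.2 ρ x

/-- the outer characters of a class -/
noncomputable def oc6 (Fr : FrI k l T.tau T.phi) {ι : Type} [Fintype ι] (v : ι → VV l C.d)
    (ρ1 : Gm k →* G) (x1 : ι → Finset Fr.sys.P) (u : ι) (ζ : VV l C.n) : Fr.sys.El :=
  Fr.cl fun σ => ζ ⬝ᵥ (C.bp (ρ1 σ) (v u) - C.Bd.B (aa5 Fr v 0 x1 σ) (v u))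

/-- the generation condition of a class -/
def gen6 (Fr : FrI k l T.tau T.phi) {ι : Type} [Fintype ι] (v : ι → VV l C.d)
    (ρ1 : Gm k →* G) (x1 : ι → Finset Fr.sys.P) (U : Finset ι) : Prop :=
  Subgroup.closure ({g | ∃ σ, g = C.nn (-aa5 Fr v 0 x1 σ) 0 * ρ1 σ} ∪
    {g | ∃ u ∈ U, g = C.nn (v u) 0} ∪ {g | ∃ z, g = C.nn 0 z}) = ⊤

/-- H13c: the data of a class -/
def SH13c (Fr : FrI k l T.tau T.phi) : Prop := ∀ (ι : Type) [Fintype ι] (v : ι → VV l C.d)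
  (z : ι → VV l C.n), Cls C Fr.sys ι v z → Ctn Fr.S (Nat.card G) →
  ∀ (A : Finset (HeightOneSpectrum (𝓞 k))) (ρ1 : Gm k →* G) (x1 : ι → Finset Fr.sys.P),
  ρ1 ∈ HkM T M Fr.S A → Rec5 C Fr v z A ρ1 x1 →
    ∃ Q : Finset Fr.sys.P, (∀ p, p ∈ Q ↔ (Fr.sys.rg p ∧ Fr.dn p ∈ A)) ∧ Fr.sys.Stb Q ∧
      Fr.sys.nm Q ≤ (∏ P ∈ A, nrm P) ^ Fintype.card Fr.sys.D ∧
      (∀ u ζ, (oc6 C Fr v ρ1 x1 u ζ).2.support ⊆ Q) ∧ Adc5 (oc6 C Fr v ρ1 x1) ∧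
      Ann5 C.Bd v (fun u => C.W (v u)) (oc6 C Fr v ρ1 x1) ∧
      Gen5 C.Bd v (fun u => C.W (v u)) (oc6 C Fr v ρ1 x1) (gen6 C Fr v ρ1 x1)

/-- H13d: the members of a class satisfy the conditions -/
def SH13d (Fr : FrI k l T.tau T.phi) : Prop := ∀ (ι : Type) [Fintype ι] (v : ι → VV l C.d)
  (z : ι → VV l C.n), Cls C Fr.sys ι v z → Ctn Fr.S (Nat.card G) →
  ∀ (A : Finset (HeightOneSpectrum (𝓞 k))) (ρ1 ρ : Gm k →* G) (x1 x : ι → Finset Fr.sys.P),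
  ρ1 ∈ HkM T M Fr.S A → ρ ∈ HkM T M Fr.S A →
  Rec5 C Fr v z A ρ1 x1 → Rec5 C Fr v z A ρ x → Cls5 C Fr v ρ1 x1 ρ x →
    okc5 C.Bd v (oc6 C Fr v ρ1 x1) x ∧ gen6 C Fr v ρ1 x1 (Fr.sys.pat x)

open Classical in
/-- the members of a class with bounded ramification -/
def HC5 (Fr : FrI k l T.tau T.phi) {ι : Type} [Fintype ι] (v : ι → VV l C.d)
    (z : ι → VV l C.n) (A : Finset (HeightOneSpectrum (𝓞 k))) (ρ1 : Gm k →* G)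
    (x1 : ι → Finset Fr.sys.P) (Y : ℝ) : Set (Gm k →* G) :=
  {ρ | ρ ∈ HkM T M Fr.S A ∧ (∃ x, Rec5 C Fr v z A ρ x ∧ Cls5 C Fr v ρ1 x1 ρ x) ∧
    (nO T (Fr.S ∪ A) ρ : ℝ) ≤ Y}

/-- H13e: the number of members of a class -/
def SH13e (Fr : FrI k l T.tau T.phi) : Prop := ∀ (ι : Type) [Fintype ι] (v : ι → VV l C.d)
  (z : ι → VV l C.n), Cls C Fr.sys ι v z → Ctn Fr.S (Nat.card G) →
  ∀ (A : Finset (HeightOneSpectrum (𝓞 k))) (ρ1 : Gm k →* G) (x1 : ι → Finset Fr.sys.P)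
  (Q : Finset Fr.sys.P), ρ1 ∈ HkM T M Fr.S A → Rec5 C Fr v z A ρ1 x1 →
  (∀ p, p ∈ Q ↔ (Fr.sys.rg p ∧ Fr.dn p ∈ A)) → ∀ Y : ℝ, 1 ≤ Y →
    (HC5 C Fr v z A ρ1 x1 Y).Finite ∧ (((HC5 C Fr v z A ρ1 x1 Y).ncard : ℕ) : ℝ) ≤
        ((l : ℝ) ^ Fr.U) ^ C.n * ((l : ℝ) ^ C.n) ^ A.card *
          S5 C.Bd v (fun u => C.W (v u)) (oc6 C Fr v ρ1 x1) Q (gen6 C Fr v ρ1 x1)
            (fun _ => True) (fun _ => 1) Y

end

/-! ### the results for odd `l` -/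

/-- H12: the inner statement for fixed data -/
def SInnF5 : Prop := ∀ (k : Type) [Field k] [NumberField k] (l : ℕ) [Fact l.Prime] (T : TM k)
  (G : Type) [Group G] (M : Set G), l ≠ 2 → HypM l G M → ∀ b : ℕ,
  b * Nat.card (cyc k l) = Nat.card (Mcl M) → InnF5 M T b

/-- H14: the uniform inner statement -/
def SInnU5 : Prop := ∀ (k : Type) [Field k] [NumberField k] (l : ℕ) [Fact l.Prime] (T : TM k)
  (G : Type) [Group G] (M : Set G), l ≠ 2 → HypM l G M → ∀ b : ℕ,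
  b * Nat.card (cyc k l) = Nat.card (Mcl M) → InnU5 M T b

end Pool.Agent.H92.T5
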