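import Pool.Agent.H92.T5.GStm
import Pool.Agent.H92.EL.GRel
import Pool.Agent.H92.EL.DFin

/-!
# Project T5 (MP_a3214d), homomorphisms for odd `l`: the inner statement for fixed data (row H12)
-/

set_option autoImplicit false

open scoped BigOperators Topology
open NumberField IsDedekindDomain Filter

namespace Pool.Agent.H92.T5

open Pool.Agent.H98.MF (Om Gm Dec nrm rdN fld)
open Pool.Agent.H92.EL
open Pool.Agent.H92.EL.SysL (VV BD)
open Pool.Agent.TF (HypM Mcl OkM Cg5 HI5 InnF5 InnU5 Inn5)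

/-- the growth function at a scaled argument -/
private theorem h12_scale (c : ℕ) {N : ℝ} (hN : 1 ≤ N) {f : ℝ → ℝ} {L : ℝ}
    (h : Tendsto (fun Y : ℝ => f Y / (Y * Real.log Y ^ c)) atTop (𝓝 L)) :
    Tendsto (fun Y : ℝ => f (Y / N) / (Y * Real.log Y ^ c)) atTop (𝓝 (L / N)) := by
  have hN0 : 0 < N := by linarith
  have h1 : Tendsto (fun Y : ℝ => Y / N) atTop atTop := tendsto_id.atTop_div_const hN0
  have h2 := h.comp h1
  have h3 : Tendsto (fun X : ℝ => 1 - Real.log N / Real.log X) atTop (𝓝 (1 - 0)) :=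
    tendsto_const_nhds.sub (Tendsto.const_div_atTop Real.tendsto_log_atTop _)
  rw [sub_zero] at h3
  have h4 := (h3.pow c).div_const N
  rw [one_pow] at h4
  have h5 := h2.mul h4
  rw [mul_one_div] at h5
  refine h5.congr' ?_
  filter_upwards [eventually_gt_atTop N] with X hX
  have hX0 : 0 < X := by linarith
  have hX1 : 1 < X := by linarith
  have hl : Real.log X ≠ 0 := (Real.log_pos hX1).ne'
  have hl2 : Real.log (X / N) ≠ 0 := (Real.log_pos ((one_lt_div hN0).2 hX)).ne'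
  have h6 : 1 - Real.log N / Real.log X = Real.log (X / N) / Real.log X := by
    rw [Real.log_div hX0.ne' hN0.ne']
    field_simp
  have h7 : Real.log (X / N) ^ c ≠ 0 := pow_ne_zero _ hl2
  have h8 : Real.log X ^ c ≠ 0 := pow_ne_zero _ hl
  simp only [Function.comp_apply]
  rw [h6, div_pow]
  generalize Real.log (X / N) ^ c = u at h7
  generalize Real.log X ^ c = v at h8
  field_simp

section

variable {k : Type} [Field k] [NumberField k] {G : Type} [Group G]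

private theorem h12_nrm (P : HeightOneSpectrum (𝓞 k)) : 1 ≤ nrm P := by
  unfold Pool.Agent.H98.MF.nrm
  exact Nat.one_le_iff_ne_zero.2 (by
    rw [Ne, Ideal.absNorm_eq_zero_iff]
    exact P.ne_bot)

private theorem h12_cg {M : Set G} {ρ ρ1 ρ0 : Gm k →* G} (h : Cg5 M ρ1 ρ0) :
    Cg5 M ρ ρ1 ↔ Cg5 M ρ ρ0 := by
  constructor
  · intro h1 σ
    have h2 := (Subgroup.closure M).mul_mem (h1 σ) (h σ)
    rwa [mul_assoc, inv_mul_cancel_left] at h2
  · intro h1 σ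
    have h2 := (Subgroup.closure M).mul_mem (h1 σ) ((Subgroup.closure M).inv_mem (h σ))
    rwa [mul_inv_rev, inv_inv, mul_assoc, inv_mul_cancel_left] at h2

open Classical in
private theorem h12_nO (T : TM k) [Finite G] {S S' : Finset (HeightOneSpectrum (𝓞 k))}
    (hS : S ⊆ S') {ρ : Gm k →* G} (hρ : IsLocallyConstant ρ) :
    nO T S ρ = nO T S' ρ * ∏ P ∈ (S' \ S).filter fun P => ρ (T.tau P) ≠ 1, nrm P := by
  have hf := finT T G ρ hρ
  have hset : {P : HeightOneSpectrum (𝓞 k) | P ∉ S ∧ ρ (T.tau P) ≠ 1} =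
      {P : HeightOneSpectrum (𝓞 k) | P ∉ S' ∧ ρ (T.tau P) ≠ 1} ∪
        (((S' \ S).filter fun P => ρ (T.tau P) ≠ 1 : Finset (HeightOneSpectrum (𝓞 k))) :
          Set (HeightOneSpectrum (𝓞 k))) := by
    ext P
    simp only [Set.mem_ofPred_eq, Set.mem_union, Finset.coe_filter, Finset.mem_sdiff]
    constructor
    · rintro ⟨h1, h2⟩
      by_cases h3 : P ∈ S'
      · exact Or.inr ⟨⟨h3, h1⟩, h2⟩
      · exact Or.inl ⟨h3, h2⟩
    · rintro (⟨h1, h2⟩ | ⟨⟨-, h1⟩, h2⟩)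
      · exact ⟨fun h3 => h1 (hS h3), h2⟩
      · exact ⟨h1, h2⟩
  unfold nO
  rw [hset, ← finprod_mem_coe_finset, ← finprod_mem_union]
  · rw [Set.disjoint_left]
    rintro P ⟨h1, -⟩ h2
    rw [Finset.mem_coe, Finset.mem_filter, Finset.mem_sdiff] at h2
    exact h1 h2.1.1
  · exact hf.subset fun P hP => hP.2
  · exact Finset.finite_toSet _

end

/-- H12 -/
theorem sinnF5
    (h9 : ∀ (k : Type) [Field k] [NumberField k] (l : ℕ) [Fact l.Prime] (T : TM k) (G : Type)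
      [Group G] (M : Set G), HypM l G M → l ≠ 2 → ∀ (C : Cd5 l G M)
      (Fr : FrI k l T.tau T.phi), SH9 C Fr)
    (hfr : ∀ (k : Type) [Field k] [NumberField k] (l : ℕ) [Fact l.Prime] (T : TM k), l ≠ 2 →
      SFrI k l T.tau T.phi)
    (hcd : SHCd) (hcl : SHCls) : SInnF5 := by
  classical
  intro k _ _ l _ T G _ M hl hG b hb ρ0 hρ0 S hS H hH
  have hfin : Finite G := hG.fin
  have hlp : l.Prime := Fact.out
  by_cases hne : ∃ Y, (HI5 M T ρ0 H S Y).Nonempty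
  swap
  · refine ⟨0, le_rfl, ?_, fun h => absurd h hne⟩
    have h1 : ∀ Y, HI5 M T ρ0 H S Y = ∅ := fun Y => by
      by_contra h
      exact hne ⟨Y, Set.nonempty_iff_ne_empty.2 h⟩
    simp only [h1, Set.ncard_empty, Nat.cast_zero, zero_div]
    exact tendsto_const_nhds
  obtain ⟨Y0, ρ1, hρ1, hcg, hH1, hl1, -⟩ := hne
  obtain ⟨C⟩ := hcd l hl G M hG
  obtain ⟨Fr, hFr⟩ := hfr k l T hl (S ∪ (finT T G ρ1 hρ1.2).toFinset)
  obtain ⟨ι, iι, v, z, hcls, hnι, hbb⟩ := (hcl l hl G M hG C).2 k Fr.sys Fr.e_iff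
  have hbe : Fintype.card ι = b := by
    have h1 := cyc_pos k hlp.one_lt
    exact Nat.eq_of_mul_eq_mul_right h1 (hbb.trans hb.symm)
  have hSS : S ⊆ Fr.S := Finset.subset_union_left.trans hFr
  have hS' : Ctn Fr.S (Nat.card G) := fun P hP => hS P fun h => hP (hSS h)
  have hU : Unr T Fr.S ρ1 := by
    intro P hP
    by_contra h
    exact hP (hFr (Finset.mem_union_right _ ((Set.Finite.mem_toFinset _).2 h)))
  obtain ⟨HE, hHE⟩ : ∃ HE : Finset (HeightOneSpectrum (𝓞 k)) → (Gm k →* G) → Prop,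
      ∀ E ρ, HE E ρ ↔ (H ρ ∧ ∀ P ∈ Fr.S \ S, OkM M (ρ (T.tau P)) ∧
        (ρ (T.tau P) ≠ 1 ↔ P ∈ E)) := ⟨_, fun _ _ => Iff.rfl⟩
  have hHEl : ∀ E, HLo Fr.S (HE E) := by
    intro E ρ ρ' h1 h2
    obtain ⟨h3, h4⟩ := (hHE E ρ).1 h2
    refine (hHE E ρ').2 ⟨hH ρ ρ' (fun P hP => h1 P (hSS hP)) h3, fun P hP => ?_⟩
    rw [← h1 P (Finset.mem_sdiff.1 hP).1 _ (T.tm P).decτ]
    exact h4 P hP
  have hlim := fun E => h9 k l T G M hG hl C Fr ι v z hcls hS' ρ1 hρ1 hU (HE E) (hHEl E)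
  have hfE := fun E => (hlim E).1
  have hlim2 := fun E => (hlim E).2
  choose L hL0 hLt hLp using hlim2
  rw [hbe] at hLt
  -- the decomposition
  obtain ⟨N, hN⟩ : ∃ N : Finset (HeightOneSpectrum (𝓞 k)) → ℝ,
      ∀ E, N E = ((∏ P ∈ E, nrm P : ℕ) : ℝ) := ⟨_, fun _ => rfl⟩
  have hN1 : ∀ E, 1 ≤ N E := by
    intro E
    rw [hN]
    exact_mod_cast Nat.one_le_iff_ne_zero.2
      (Finset.prod_ne_zero_iff.2 fun P _ => Nat.one_le_iff_ne_zero.1 (h12_nrm P))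
  obtain ⟨e, he⟩ : ∃ e : (Gm k →* G) → Finset (HeightOneSpectrum (𝓞 k)),
      ∀ ρ, e ρ = (Fr.S \ S).filter fun P => ρ (T.tau P) ≠ 1 := ⟨_, fun _ => rfl⟩
  have hmem : ∀ E ∈ (Fr.S \ S).powerset, ∀ (Y : ℝ) (ρ : Gm k →* G),
      ρ ∈ HI5 M T ρ1 (HE E) Fr.S (Y / N E) ↔ (ρ ∈ HI5 M T ρ0 H S Y ∧ e ρ = E) := by
    intro E hE Y ρ
    have hE' := Finset.mem_powerset.1 hE
    have hnO : IsLocallyConstant ρ → e ρ = E →
        ((nO T Fr.S ρ : ℝ) ≤ Y / N E ↔ (nO T S ρ : ℝ) ≤ Y) := by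
      intro h1 h2
      rw [h12_nO T hSS h1, ← he, h2, Nat.cast_mul, ← hN, le_div_iff₀ (by linarith [hN1 E])]
    have hev : (∀ P ∈ Fr.S \ S, (ρ (T.tau P) ≠ 1 ↔ P ∈ E)) ↔ e ρ = E := by
      rw [he]
      constructor
      · intro h
        ext P
        rw [Finset.mem_filter]
        exact ⟨fun h1 => (h P h1.1).1 h1.2, fun h1 => ⟨hE' h1, (h P (hE' h1)).2 h1⟩⟩
      · intro h P hP
        rw [← h, Finset.mem_filter]
        exact ⟨fun h1 => ⟨hP, h1⟩, fun h1 => h1.2⟩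
    constructor
    · rintro ⟨k1, k2, k3, k4, k5⟩
      obtain ⟨k6, k7⟩ := (hHE E ρ).1 k3
      have k8 := hev.1 fun P hP => (k7 P hP).2
      refine ⟨⟨k1, (h12_cg hcg).1 k2, k6, ?_, (hnO k1.2 k8).1 k5⟩, k8⟩
      intro P hP
      by_cases h1 : P ∈ Fr.S
      · exact (k7 P (Finset.mem_sdiff.2 ⟨h1, hP⟩)).1
      · exact k4 P h1
    · rintro ⟨⟨k1, k2, k3, k4, k5⟩, k8⟩
      refine ⟨k1, (h12_cg hcg).2 k2, (hHE E ρ).2 ⟨k3, fun P hP => ⟨?_, hev.2 k8 P hP⟩⟩, ?_,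
        (hnO k1.2 k8).2 k5⟩
      · exact k4 P (Finset.mem_sdiff.1 hP).2
      · exact fun P hP => k4 P fun h => hP (hSS h)
  have hfinS : ∀ Y, (HI5 M T ρ0 H S Y).Finite := by
    intro Y
    have h1 : (⋃ E ∈ (Fr.S \ S).powerset, HI5 M T ρ1 (HE E) Fr.S (Y / N E)).Finite :=
      Set.Finite.biUnion (Finset.finite_toSet _) fun E _ => hfE E _
    refine h1.subset fun ρ hρ => ?_
    have h2 : e ρ ∈ (Fr.S \ S).powerset := by
      rw [Finset.mem_powerset, he]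
      exact Finset.filter_subset _ _
    exact Set.mem_biUnion (Finset.mem_coe.2 h2) ((hmem (e ρ) h2 Y ρ).2 ⟨hρ, rfl⟩)
  have hcount : ∀ Y : ℝ, (HI5 M T ρ0 H S Y).ncard =
      ∑ E ∈ (Fr.S \ S).powerset, (HI5 M T ρ1 (HE E) Fr.S (Y / N E)).ncard := by
    intro Y
    rw [Set.ncard_eq_toFinset_card _ (hfinS Y),
      Finset.card_eq_sum_card_fiberwise (f := e) (t := (Fr.S \ S).powerset)]
    · refine Finset.sum_congr rfl fun E hE => ?_
      rw [← Set.ncard_coe_finset]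
      congr 1
      ext ρ
      rw [hmem E hE Y ρ, Finset.coe_filter, Set.mem_ofPred_eq, Set.Finite.mem_toFinset]
    · intro ρ _
      rw [Finset.mem_coe, Finset.mem_powerset, he]
      exact Finset.filter_subset _ _
  refine ⟨∑ E ∈ (Fr.S \ S).powerset, L E / N E, ?_, ?_, fun _ => ?_⟩
  · exact Finset.sum_nonneg fun E _ => div_nonneg (hL0 E) (by linarith [hN1 E])
  · have h1 : (fun Y : ℝ => ((HI5 M T ρ0 H S Y).ncard : ℝ) / (Y * Real.log Y ^ (b - 1))) =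
        fun Y : ℝ => ∑ E ∈ (Fr.S \ S).powerset,
          ((HI5 M T ρ1 (HE E) Fr.S (Y / N E)).ncard : ℝ) / (Y * Real.log Y ^ (b - 1)) := by
      funext Y
      rw [hcount Y, Nat.cast_sum, Finset.sum_div]
    rw [h1]
    refine tendsto_finsetSum _ fun E _ => ?_
    exact h12_scale (b - 1) (hN1 E)
      (f := fun Y => ((HI5 M T ρ1 (HE E) Fr.S Y).ncard : ℝ)) (hLt E)
  · refine Finset.sum_pos' (fun E _ => div_nonneg (hL0 E) (by linarith [hN1 E]))
      ⟨e ρ1, ?_, ?_⟩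
    · rw [Finset.mem_powerset, he]
      exact Finset.filter_subset _ _
    · refine div_pos (hLp _ ((hHE _ _).2 ⟨hH1, fun P hP => ⟨?_, ?_⟩⟩)) (by linarith [hN1 (e ρ1)])
      · exact hl1 P (Finset.mem_sdiff.1 hP).2
      · rw [he, Finset.mem_filter]
        exact ⟨fun h => ⟨hP, h⟩, fun h => h.2⟩

end Pool.Agent.H92.T5
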