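import Pool.Agent.H92.T5.GStm

/-!
# Project T5 (MP_a3214d), row H13b: the number of classes
-/

set_option autoImplicit false

open scoped BigOperators Topology
open NumberField IsDedekindDomain Filter

namespace Pool.Agent.H92.T5

open Pool.Agent.H98.MF (Om Gm Dec nrm rdN fld)
open Pool.Agent.H92.EL
open Pool.Agent.H92.EL.SysL (VV BD)
open Pool.Agent.TF (HypM Mcl OkM Cg5 HI5 InnF5 InnU5 Inn5)

section

variable {l : ℕ} [Fact l.Prime] {G : Type} [Group G] {M : Set G} (C : Cd5 l G M)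

theorem h13b_mul0 (v : VV l C.d) (z y : VV l C.n) :
    C.nn v z * C.nn 0 y = C.nn v (z + y) := by
  rw [C.nn_mul, add_zero, map_zero, smul_zero, add_zero]

theorem h13b_0mul (v : VV l C.d) (z y : VV l C.n) :
    C.nn 0 y * C.nn v z = C.nn v (y + z) := by
  rw [C.nn_mul, zero_add, map_zero, LinearMap.zero_apply, smul_zero, add_zero]

theorem h13b_one : C.nn 0 0 = 1 := by
  have h := h13b_mul0 C 0 0 0
  rw [add_zero] at h
  exact mul_eq_left.1 h

/-- the central subgroup of the elements `nn 0 z` -/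
def h13b_Z : Subgroup G where
  carrier := {g | ∃ z, g = C.nn 0 z}
  mul_mem' := by
    rintro _ _ ⟨z, rfl⟩ ⟨y, rfl⟩
    exact ⟨z + y, h13b_mul0 C 0 z y⟩
  one_mem' := ⟨0, (h13b_one C).symm⟩
  inv_mem' := by
    rintro _ ⟨z, rfl⟩
    refine ⟨-z, ?_⟩
    rw [inv_eq_iff_mul_eq_one, h13b_mul0, add_neg_cancel, h13b_one]

theorem h13b_mem {g : G} : g ∈ h13b_Z C ↔ ∃ z, g = C.nn 0 z := Iff.rfl

theorem h13b_normal : (h13b_Z C).Normal := by
  refine ⟨?_⟩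
  rintro _ ⟨z, rfl⟩ g
  refine ⟨z, ?_⟩
  rw [Subgroup.mem_center_iff.1 (C.nn_cen z) g, mul_inv_cancel_right]

end

section

variable {k : Type} [Field k] [NumberField k] {l : ℕ} [Fact l.Prime] {T : TM k}
  {G : Type} [Group G] {M : Set G}

/-- Row H13b: the number of classes. -/
theorem sh13b (_hl : l ≠ 2) (hG : HypM l G M) (C : Cd5 l G M) (Fr : FrI k l T.tau T.phi)
    (h4 : SH4 Fr) (hO : SOut) : SH13b C Fr := by
  classical
  intro ι _ v z hCl hS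
  have hfin : Finite G := hG.fin
  have hZn : (h13b_Z C).Normal := h13b_normal C
  have hnil : Group.IsNilpotent G := hG.nil
  have hQn : Group.IsNilpotent (G ⧸ h13b_Z C) :=
    Group.nilpotent_quotient_of_nilpotent (h13b_Z C)
  have hQd : Nat.card (G ⧸ h13b_Z C) ∣ Nat.card G := Subgroup.card_quotient_dvd_card _
  have hQS : Ctn Fr.S (Nat.card (G ⧸ h13b_Z C)) := fun P hP =>
    Nat.Coprime.coprime_dvd_left hQd (hS P hP)
  obtain ⟨C0, hC0, hC⟩ := hO k T (G ⧸ h13b_Z C) hQn Fr.S hQS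
  refine ⟨C0, hC0, fun A => ?_⟩
  obtain ⟨hHf, hHc⟩ := hC A
  -- the classes of the coordinates
  have hq1 : ∀ v z, (QuotientGroup.mk (C.nn v z) : G ⧸ h13b_Z C) = QuotientGroup.mk (C.nn v 0) := by
    intro v z
    rw [QuotientGroup.eq, h13b_mem]
    refine ⟨-z, ?_⟩
    rw [inv_mul_eq_iff_eq_mul, h13b_mul0, add_neg_cancel]
  have hq2 : ∀ v w, (QuotientGroup.mk (C.nn (v + w) 0) : G ⧸ h13b_Z C) =
      QuotientGroup.mk (C.nn v 0) * QuotientGroup.mk (C.nn w 0) := by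
    intro v w
    rw [← QuotientGroup.mk_mul, C.nn_mul]
    exact (hq1 _ _).symm
  have hq3 : ∀ (g : G) v, (QuotientGroup.mk g : G ⧸ h13b_Z C) * QuotientGroup.mk (C.nn v 0) =
      QuotientGroup.mk (C.nn v 0) * QuotientGroup.mk g := by
    intro g v
    have h1 : g * C.nn v 0 = C.nn v (0 + C.bp g v) * g := by
      rw [← C.bp_conj, inv_mul_cancel_right]
    rw [← QuotientGroup.mk_mul, h1, QuotientGroup.mk_mul, hq1]
  have hq0 : (QuotientGroup.mk (C.nn 0 0) : G ⧸ h13b_Z C) = 1 := by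
    rw [h13b_one, QuotientGroup.mk_one]
  -- the homomorphisms
  have hψ : ∀ (ρ : Gm k →* G) (x : ι → Finset Fr.sys.P), ρ ∈ HkM T M Fr.S A →
      Rec5 C Fr v z A ρ x → ∃ ψ : Gm k →* G ⧸ h13b_Z C, ψ ∈ hHf.toFinset ∧
        ∀ σ, ψ σ = QuotientGroup.mk (C.nn (-aa5 Fr v 0 x σ) 0 * ρ σ) := by
    intro ρ x hρ hx
    obtain ⟨ha, hb, hc, -⟩ := h4 C.d ι v 0 x hx.1
    have hadd : ∀ σ τ, aa5 Fr v 0 x (σ * τ) = aa5 Fr v 0 x σ + aa5 Fr v 0 x τ := by
      intro σ τ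
      funext i
      exact (ha i).add σ τ
    have hone : aa5 Fr v 0 x 1 = 0 := by
      have h := hadd 1 1
      rw [mul_one] at h
      exact left_eq_add.1 h
    refine ⟨⟨⟨fun σ => QuotientGroup.mk (C.nn (-aa5 Fr v 0 x σ) 0 * ρ σ), ?_⟩, ?_⟩, ?_,
      fun σ => rfl⟩
    · rw [hone, neg_zero, map_one, mul_one, hq0]
    · intro σ τ
      simp only [QuotientGroup.mk_mul, map_mul, hadd, neg_add, hq2]
      have h1 := hq3 (ρ σ) (-aa5 Fr v 0 x τ)
      calc (QuotientGroup.mk (C.nn (-aa5 Fr v 0 x σ) 0) : G ⧸ h13b_Z C) *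
            QuotientGroup.mk (C.nn (-aa5 Fr v 0 x τ) 0) *
            (QuotientGroup.mk (ρ σ) * QuotientGroup.mk (ρ τ)) =
            QuotientGroup.mk (C.nn (-aa5 Fr v 0 x σ) 0) *
            (QuotientGroup.mk (C.nn (-aa5 Fr v 0 x τ) 0) * QuotientGroup.mk (ρ σ)) *
              QuotientGroup.mk (ρ τ) := by group
        _ = _ := by rw [← h1]; group
    · rw [Set.Finite.mem_toFinset]
      refine ⟨?_, ?_⟩
      · rw [IsLocallyConstant.iff_exists_open]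
        intro s
        refine ⟨(⋂ i, {τ | aa5 Fr v 0 x τ i = aa5 Fr v 0 x s i}) ∩ {τ | ρ τ = ρ s}, ?_, ?_, ?_⟩
        · exact (isOpen_iInter_of_finite fun i => (ha i).lc.isOpen_fiber _).inter
            (hρ.1.2.isOpen_fiber _)
        · exact ⟨Set.mem_iInter.2 fun i => rfl, rfl⟩
        · rintro τ ⟨h1, h2⟩
          have h3 : aa5 Fr v 0 x τ = aa5 Fr v 0 x s := funext fun i => Set.mem_iInter.1 h1 i
          have h4' : ρ τ = ρ s := h2
          show (QuotientGroup.mk (C.nn (-aa5 Fr v 0 x τ) 0 * ρ τ) : G ⧸ h13b_Z C) =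
            QuotientGroup.mk (C.nn (-aa5 Fr v 0 x s) 0 * ρ s)
          rw [h3, h4']
      · intro P hP
        rw [Finset.mem_union, not_or] at hP
        show (QuotientGroup.mk (C.nn (-aa5 Fr v 0 x (T.tau P)) 0 * ρ (T.tau P)) :
          G ⧸ h13b_Z C) = 1
        by_cases hN : ∀ u, ∀ p ∈ x u, Fr.dn p ≠ P
        · rw [hx.2.2.2 P hP.1 hP.2 hN, hc P hP.1 hN, neg_zero, mul_one, hq0]
        · push Not at hN
          obtain ⟨u, p, hp, rfl⟩ := hN
          obtain ⟨t, -, ht⟩ := hx.2.2.1 u p hp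
          rw [ht, (hb u p hp).2, QuotientGroup.mk_mul, hq1 _ (_ • (z u + t)), ← hq2,
            neg_add_cancel, hq0]
  -- the representatives
  set V : Finset (Gm k →* G ⧸ h13b_Z C) := hHf.toFinset.filter fun ψ =>
    ∃ w : (Gm k →* G) × (ι → Finset Fr.sys.P), w.1 ∈ HkM T M Fr.S A ∧ Rec5 C Fr v z A w.1 w.2 ∧
      ∀ σ, ψ σ = QuotientGroup.mk (C.nn (-aa5 Fr v 0 w.2 σ) 0 * w.1 σ) with hV
  have hVm : ∀ ψ : V, ∃ w : (Gm k →* G) × (ι → Finset Fr.sys.P), w.1 ∈ HkM T M Fr.S A ∧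
      Rec5 C Fr v z A w.1 w.2 ∧
      ∀ σ, (ψ : Gm k →* G ⧸ h13b_Z C) σ =
        QuotientGroup.mk (C.nn (-aa5 Fr v 0 w.2 σ) 0 * w.1 σ) := fun ψ =>
    (Finset.mem_filter.1 ψ.2).2
  choose f hf1 hf2 hf3 using hVm
  refine ⟨V.attach.image f, ?_, ?_, ?_⟩
  · refine Finset.card_image_le.trans ?_
    rw [Finset.card_attach]
    refine (Finset.card_filter_le _ _).trans ?_
    rw [← Set.ncard_eq_toFinset_card _ hHf]
    exact hHc
  · intro w hw
    obtain ⟨ψ, -, rfl⟩ := Finset.mem_image.1 hw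
    exact ⟨hf1 ψ, hf2 ψ⟩
  · intro ρ hρ x hx
    obtain ⟨ψ, hψm, hψe⟩ := hψ ρ x hρ hx
    have hψV : ψ ∈ V := Finset.mem_filter.2 ⟨hψm, (ρ, x), hρ, hx, hψe⟩
    refine ⟨f ⟨ψ, hψV⟩, Finset.mem_image.2 ⟨⟨ψ, hψV⟩, Finset.mem_attach _ _, rfl⟩, ?_⟩
    intro σ
    have h1 := (hf3 ⟨ψ, hψV⟩ σ).symm.trans (hψe σ)
    rw [QuotientGroup.eq, h13b_mem] at h1
    obtain ⟨z', hz⟩ := h1
    refine ⟨z', ?_⟩
    rw [inv_mul_eq_iff_eq_mul] at hz
    rw [hz, mul_assoc, Subgroup.mem_center_iff.1 (C.nn_cen z'), ← mul_assoc, h13b_mul0,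
      zero_add]

end

end Pool.Agent.H92.T5
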