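import Pool.Agent.H92.T5.GStm

/-!
# Project T5 (MP_a3214d), odd `l`, row H13c: the data of a class
-/

set_option autoImplicit false
set_option linter.unusedVariables false

open scoped BigOperators Topology
open NumberField IsDedekindDomain Filter

namespace Pool.Agent.H92.T5

open Pool.Agent.H98.MF (Om Gm Dec nrm rdN fld)
open Pool.Agent.H92.EL
open Pool.Agent.H92.EL.SysL (VV BD)
open Pool.Agent.TF (HypM Mcl OkM Cg5 HI5 InnF5 InnU5 Inn5)

section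

variable {k : Type} [Field k] [NumberField k] {l : ℕ} [Fact l.Prime] {T : TM k}
  {G : Type} [Group G] {M : Set G}

/-! ### the pairing -/

private theorem h13c_bp_one (C : Cd5 l G M) (v : VV l C.d) : C.bp 1 v = 0 := by
  have h := C.bp_mul 1 1 v
  rw [one_mul] at h
  exact left_eq_add.1 h

/-- the elements commuting with `v` up to the kernel of `ζ` -/
private def h13c_H (C : Cd5 l G M) (v : VV l C.d) (ζ : VV l C.n) : Subgroup G where
  carrier := {g | ζ ⬝ᵥ C.bp g v = 0}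
  mul_mem' := by
    intro g h hg hh
    have hg' : ζ ⬝ᵥ C.bp g v = 0 := hg
    have hh' : ζ ⬝ᵥ C.bp h v = 0 := hh
    show ζ ⬝ᵥ C.bp (g * h) v = 0
    rw [C.bp_mul, dotProduct_add, hg', hh', add_zero]
  one_mem' := by
    show ζ ⬝ᵥ C.bp 1 v = 0
    rw [h13c_bp_one, dotProduct_zero]
  inv_mem' := by
    intro g hg
    have hg' : ζ ⬝ᵥ C.bp g v = 0 := hg
    show ζ ⬝ᵥ C.bp g⁻¹ v = 0
    have h := C.bp_mul g⁻¹ g v
    rw [inv_mul_cancel, h13c_bp_one] at h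
    have h2 : ζ ⬝ᵥ (C.bp g⁻¹ v + C.bp g v) = 0 := by rw [← h, dotProduct_zero]
    rw [dotProduct_add, hg', add_zero] at h2
    exact h2

private theorem h13c_mem (C : Cd5 l G M) (v : VV l C.d) (ζ : VV l C.n) (g : G) :
    g ∈ h13c_H C v ζ ↔ ζ ⬝ᵥ C.bp g v = 0 := Iff.rfl

/-! ### the homomorphisms -/

private theorem h13c_hm (C : Cd5 l G M) (Fr : FrI k l T.tau T.phi) {ι : Type} [Fintype ι]
    (v : ι → VV l C.d) {ρ1 : Gm k →* G} {x1 : ι → Finset Fr.sys.P}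
    (hρ : IsLocallyConstant ρ1) (ha : ∀ i, Hm fun σ => aa5 Fr v 0 x1 σ i)
    (w : VV l C.d) (ζ : VV l C.n) :
    Hm fun σ => ζ ⬝ᵥ (C.bp (ρ1 σ) w - C.Bd.B (aa5 Fr v 0 x1 σ) w) := by
  refine ⟨?_, ?_⟩
  · rw [IsLocallyConstant.iff_eventually_eq]
    intro σ
    have h1 := (IsLocallyConstant.iff_eventually_eq _).1 hρ σ
    have h2 : ∀ i, ∀ᶠ τ in 𝓝 σ, aa5 Fr v 0 x1 τ i = aa5 Fr v 0 x1 σ i := fun i =>
      (IsLocallyConstant.iff_eventually_eq _).1 (ha i).lc σ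
    filter_upwards [h1, Filter.eventually_all.2 h2] with τ h3 h4
    rw [h3, show aa5 Fr v 0 x1 τ = aa5 Fr v 0 x1 σ from funext h4]
  · intro σ τ
    have h1 : aa5 Fr v 0 x1 (σ * τ) = aa5 Fr v 0 x1 σ + aa5 Fr v 0 x1 τ :=
      funext fun i => (ha i).add σ τ
    rw [map_mul, C.bp_mul, h1, map_add, LinearMap.add_apply, ← dotProduct_add]
    congr 1
    abel

private theorem h13c_cl0 (Fr : FrI k l T.tau T.phi) : Fr.cl (fun _ => 0) = 0 := by
  have h0 : Hm (k := k) (l := l) fun _ => 0 := ⟨IsLocallyConstant.const 0, fun _ _ => by simp⟩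
  have h := Fr.cl_add _ _ h0 h0
  have e : (fun _ : Gm k => (0 : ZMod l) + 0) = fun _ => 0 := by
    funext _
    exact add_zero 0
  rw [e] at h
  exact left_eq_add.1 h

/-! ### the primes -/

private theorem h13c_rg (Fr : FrI k l T.tau T.phi) {p : Fr.sys.P} (hp : Fr.sys.rg p)
    (g : Fr.sys.D) : Fr.sys.rg (Fr.sys.ac g p) := by
  intro h hh
  rw [← Fr.sys.ac_mul] at hh
  have h1 : Fr.sys.ac (g⁻¹ * (h * g)) p = p := by
    rw [Fr.sys.ac_mul, hh, ← Fr.sys.ac_mul, inv_mul_cancel, Fr.sys.ac_one]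
  have h2 := hp _ h1
  have h3 : h * g = g := by
    rw [inv_mul_eq_one] at h2
    exact h2.symm
  exact mul_eq_right.1 h3

private theorem h13c_fib (Fr : FrI k l T.tau T.phi) (P : HeightOneSpectrum (𝓞 k)) :
    {p : Fr.sys.P | Fr.dn p = P}.Finite ∧
      ∀ s : Finset Fr.sys.P, (∀ p ∈ s, Fr.dn p = P) → s.card ≤ Fintype.card Fr.sys.D := by
  classical
  rcases Set.eq_empty_or_nonempty {p : Fr.sys.P | Fr.dn p = P} with h | ⟨p0, hp0⟩
  · refine ⟨by rw [h]; exact Set.finite_empty, fun s hs => ?_⟩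
    have h1 : s = ∅ := by
      rw [Finset.eq_empty_iff_forall_notMem]
      intro p hp
      have h2 : p ∈ {p : Fr.sys.P | Fr.dn p = P} := hs p hp
      rw [h] at h2
      exact h2
    rw [h1, Finset.card_empty]
    exact Nat.zero_le _
  · have hp0' : Fr.dn p0 = P := hp0
    have key : ∀ p, Fr.dn p = P → p ∈ Finset.univ.image fun g : Fr.sys.D => Fr.sys.ac g p0 := by
      intro p hp
      obtain ⟨g, hg⟩ := (Fr.dn_eq p0 p).1 (hp0'.trans hp.symm)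
      exact Finset.mem_image.2 ⟨g, Finset.mem_univ g, hg⟩
    refine ⟨Set.Finite.subset (Finset.finite_toSet (Finset.univ.image fun g : Fr.sys.D =>
      Fr.sys.ac g p0)) fun p hp => Finset.mem_coe.2 (key p hp), fun s hs => ?_⟩
    refine (Finset.card_le_card fun p hp => key p (hs p hp)).trans ?_
    exact Finset.card_image_le

private theorem h13c_Q (Fr : FrI k l T.tau T.phi) (A : Finset (HeightOneSpectrum (𝓞 k))) :
    ∃ Q : Finset Fr.sys.P, ∀ p, p ∈ Q ↔ (Fr.sys.rg p ∧ Fr.dn p ∈ A) := by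
  have h1 : {p | Fr.sys.rg p ∧ Fr.dn p ∈ A}.Finite := by
    refine Set.Finite.subset (Set.Finite.biUnion (Finset.finite_toSet A)
      fun P _ => (h13c_fib Fr P).1) fun p hp => ?_
    exact Set.mem_biUnion (Finset.mem_coe.2 hp.2) rfl
  exact ⟨h1.toFinset, fun p => h1.mem_toFinset⟩

private theorem h13c_nm (Fr : FrI k l T.tau T.phi) (A : Finset (HeightOneSpectrum (𝓞 k)))
    (Q : Finset Fr.sys.P) (hQ : ∀ p, p ∈ Q ↔ (Fr.sys.rg p ∧ Fr.dn p ∈ A)) :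
    Fr.sys.nm Q ≤ (∏ P ∈ A, nrm P) ^ Fintype.card Fr.sys.D := by
  classical
  have h1 : Fr.sys.nm Q = ∏ p ∈ Q, nrm (Fr.dn p) :=
    Finset.prod_congr rfl fun p hp => Fr.N_eq p ((hQ p).1 hp).1
  rw [h1, ← Finset.prod_fiberwise_of_maps_to (g := Fr.dn) (t := A) fun p hp => ((hQ p).1 hp).2,
    ← Finset.prod_pow]
  refine Finset.prod_le_prod' fun P _ => ?_
  have h2 : ∏ p ∈ Q with Fr.dn p = P, nrm (Fr.dn p) =
      nrm P ^ (Q.filter fun p => Fr.dn p = P).card := by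
    rw [← Finset.prod_const]
    exact Finset.prod_congr rfl fun p hp => by rw [(Finset.mem_filter.1 hp).2]
  rw [h2]
  have h3 : 1 ≤ nrm P := by
    have h : nrm P ≠ 0 := by
      unfold Pool.Agent.H98.MF.nrm
      rw [Ne, Ideal.absNorm_eq_zero_iff]
      exact P.ne_bot
    exact Nat.one_le_iff_ne_zero.2 h
  exact Nat.pow_le_pow_right h3 ((h13c_fib Fr P).2 _ fun p hp => (Finset.mem_filter.1 hp).2)

/-- **H13c.** -/
theorem sh13c (hl : l ≠ 2) (hG : HypM l G M) (C : Cd5 l G M) (Fr : FrI k l T.tau T.phi)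
    (h4 : SH4 Fr) (hw : SHW) : SH13c C Fr := by
  classical
  intro ι _ v z hcls _ A ρ1 x1 hρ1 hx1
  obtain ⟨hx, -, hcl, hrec⟩ := hx1
  have hlc : IsLocallyConstant ρ1 := hρ1.1.2
  obtain ⟨ha, hat, han, -⟩ := h4 C.d ι v 0 x1 hx
  have hhm := fun w ζ => h13c_hm C Fr v hlc ha w ζ
  obtain ⟨Q, hQ⟩ := h13c_Q Fr A
  -- triviality of the outer character
  have hz : ∀ u ζ, oc6 C Fr v ρ1 x1 u ζ = 0 → ∀ σ,
      ζ ⬝ᵥ (C.bp (ρ1 σ) (v u) - C.Bd.B (aa5 Fr v 0 x1 σ) (v u)) = 0 := by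
    intro u ζ h σ
    exact congrFun (Fr.cl_inj _ (hhm (v u) ζ) h) σ
  refine ⟨Q, hQ, ?_, h13c_nm Fr A Q hQ, ?_, ?_, ?_, ?_⟩
  · intro g p hp
    rw [hQ] at hp ⊢
    refine ⟨h13c_rg Fr hp.1 g, ?_⟩
    rw [← (Fr.dn_eq p (Fr.sys.ac g p)).2 ⟨g, rfl⟩]
    exact hp.2
  · intro u ζ p hp
    have h1 := Fr.cl_sup _ (hhm (v u) ζ) p hp
    have h2 := Fr.dn_not p
    rw [hQ]
    refine ⟨?_, ?_⟩
    · have h3 : ((nrm (Fr.dn p) : ℕ) : ZMod l) = 1 := by
        by_contra h4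
        exact h1 (Fr.tam _ (hhm (v u) ζ) _ h2 h4)
      obtain ⟨q, hq, hqp⟩ := (Fr.dn_ex _ h2).2 h3
      obtain ⟨g, rfl⟩ := (Fr.dn_eq q p).1 hqp
      exact h13c_rg Fr hq g
    · by_contra h3
      refine h1 ?_
      show ζ ⬝ᵥ (C.bp (ρ1 (T.tau (Fr.dn p))) (v u) -
        C.Bd.B (aa5 Fr v 0 x1 (T.tau (Fr.dn p))) (v u)) = 0
      by_cases h5 : ∃ w, ∃ q ∈ x1 w, Fr.dn q = Fr.dn p
      · obtain ⟨w, q, hq, hqp⟩ := h5
        obtain ⟨t, -, ht⟩ := hcl w q hq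
        rw [← hqp, ht, (hat w q hq).2, C.bp_nn, sub_self, dotProduct_zero]
      · have h6 : ∀ w, ∀ q ∈ x1 w, Fr.dn q ≠ Fr.dn p := by
          intro w q hq h7
          exact h5 ⟨w, q, hq, h7⟩
        rw [hrec _ h2 h3 h6, han _ h2 h6, h13c_bp_one, map_zero, LinearMap.zero_apply, sub_self,
          dotProduct_zero]
  · intro u ζ ζ'
    unfold oc6
    rw [← Fr.cl_add _ _ (hhm (v u) ζ) (hhm (v u) ζ')]
    congr 1
    funext σ
    exact add_dotProduct _ _ _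
  · intro u ζ hζ
    obtain ⟨hw1, hw2, -⟩ := hw l G M C (v u)
    refine ⟨fun w => hζ _ (hw2 w), ?_⟩
    unfold oc6
    rw [← h13c_cl0 Fr]
    congr 1
    funext σ
    rw [dotProduct_sub, hζ _ ((hw1 _).2 ⟨_, rfl⟩), hζ _ (hw2 _), sub_zero]
  · intro U hU u ζ hc hwU t ht
    have h1 := hz u ζ hc
    have h2 : h13c_H C (v u) ζ = ⊤ := by
      rw [eq_top_iff]
      unfold gen6 at hU
      rw [← hU, Subgroup.closure_le]
      rintro g ((⟨σ, rfl⟩ | ⟨w, hw', rfl⟩) | ⟨y, rfl⟩)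
      · show ζ ⬝ᵥ C.bp (C.nn (-aa5 Fr v 0 x1 σ) 0 * ρ1 σ) (v u) = 0
        have h3 := h1 σ
        rw [C.bp_mul, C.bp_nn, map_neg, LinearMap.neg_apply, neg_add_eq_sub]
        exact h3
      · show ζ ⬝ᵥ C.bp (C.nn (v w) 0) (v u) = 0
        rw [C.bp_nn]
        exact hwU w hw'
      · show ζ ⬝ᵥ C.bp (C.nn 0 y) (v u) = 0
        rw [C.bp_nn, map_zero, LinearMap.zero_apply, dotProduct_zero]
    obtain ⟨g, rfl⟩ := ((hw l G M C (v u)).1 t).1 ht
    have h3 : g ∈ h13c_H C (v u) ζ := by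
      rw [h2]
      exact Subgroup.mem_top _
    exact h3

end

end Pool.Agent.H92.T5
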