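import Pool.Agent.H92.T5.GStm

/-!
# Project T5 (MP_a3214d): H13d, the members of a class satisfy the conditions
-/

set_option autoImplicit false

open scoped BigOperators Topology
open NumberField IsDedekindDomain Filter

namespace Pool.Agent.H92.T5

open Pool.Agent.H98.MF (Gm Dec nrm rdN fld)
open Pool.Agent.H92.EL
open Pool.Agent.H92.EL.SysL (VV BD)
open Pool.Agent.TF (HypM OkM)

section

variable {k : Type} [Field k] [NumberField k] {l : ℕ} [Fact l.Prime] {T : TM k}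
  {G : Type} [Group G] {M : Set G}

private lemma h13d_smul {a b : ℕ} (f : VV l a → VV l b) (hf : ∀ v w, f (v + w) = f v + f w)
    (t : ZMod l) (v : VV l a) : f (t • v) = t • f v :=
  ZMod.map_smul (AddMonoidHom.mk' f hf) t v

private lemma h13d_pow {g : G} {n : ℕ} (hg : g ^ l = 1)
    (hn : ((n : ℕ) : ZMod l) = 1) : g ^ n = g := by
  have h1 : n ≡ 1 [MOD l] := by
    have : ((n : ℕ) : ZMod l) = ((1 : ℕ) : ZMod l) := by simpa using hn
    exact (ZMod.natCast_eq_natCast_iff _ _ _).1 this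
  have h2 : orderOf g ∣ l := orderOf_dvd_of_pow_eq_one hg
  have h3 : n ≡ 1 [MOD orderOf g] := h1.of_dvd h2
  have h4 := pow_eq_pow_iff_modEq.2 h3
  simpa using h4

private lemma h13d_bp (C : Cd5 l G M) {g : G} {v : VV l C.d} {t : ZMod l} {z : VV l C.n}
    (ht : t ≠ 0) (hc : g * C.nn (t • v) z * g⁻¹ = C.nn (t • v) z) : C.bp g v = 0 := by
  rw [C.bp_conj] at hc
  have h1 := (C.nn_inj _ _ _ _ hc).2
  have h2 : C.bp g (t • v) = 0 := by
    have h3 : z + C.bp g (t • v) = z + 0 := by rw [h1, add_zero]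
    exact add_left_cancel h3
  rw [h13d_smul (C.bp g) (C.bp_add g) t v] at h2
  exact (smul_eq_zero.1 h2).resolve_left ht

private lemma h13d_one (C : Cd5 l G M) (v : VV l C.d) : C.bp 1 v = 0 := by
  have h := C.bp_mul 1 1 v
  rw [one_mul] at h
  exact left_eq_add.1 h

variable {ι : Type} [Fintype ι]

private lemma h13d_cls (C : Cd5 l G M) (Fr : FrI k l T.tau T.phi) {v : ι → VV l C.d}
    {ρ1 ρ : Gm k →* G} {x1 x : ι → Finset Fr.sys.P} (h : Cls5 C Fr v ρ1 x1 ρ x) (σ : Gm k)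
    (w : VV l C.d) : C.bp (ρ σ) w - C.Bd.B (aa5 Fr v 0 x σ) w =
      C.bp (ρ1 σ) w - C.Bd.B (aa5 Fr v 0 x1 σ) w := by
  obtain ⟨z, hz⟩ := h σ
  have h1 := congrArg (fun g => C.bp g w) hz
  simp only [C.bp_mul, C.bp_nn, map_neg, LinearMap.neg_apply] at h1
  rw [sub_eq_neg_add, sub_eq_neg_add]
  exact h1

private lemma h13d_hm (C : Cd5 l G M) (Fr : FrI k l T.tau T.phi) {v : ι → VV l C.d}
    {ρ1 : Gm k →* G} (hρ : IsLocallyConstant ρ1) {x1 : ι → Finset Fr.sys.P}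
    (ha : ∀ i, Hm fun σ => aa5 Fr v 0 x1 σ i) (w : VV l C.d) (ζ : VV l C.n) :
    Hm fun σ => ζ ⬝ᵥ (C.bp (ρ1 σ) w - C.Bd.B (aa5 Fr v 0 x1 σ) w) := by
  have hla : IsLocallyConstant fun σ => aa5 Fr v 0 x1 σ := by
    rw [IsLocallyConstant.iff_eventually_eq]
    intro σ
    have h1 : ∀ᶠ τ in 𝓝 σ, ∀ i, aa5 Fr v 0 x1 τ i = aa5 Fr v 0 x1 σ i :=
      eventually_all.2 fun i => (IsLocallyConstant.iff_eventually_eq _).1 (ha i).lc σ
    filter_upwards [h1] with τ hτ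
    exact funext hτ
  refine ⟨hρ.comp₂ hla (fun g a => ζ ⬝ᵥ (C.bp g w - C.Bd.B a w)), ?_⟩
  intro σ τ
  have h1 : aa5 Fr v 0 x1 (σ * τ) = aa5 Fr v 0 x1 σ + aa5 Fr v 0 x1 τ := by
    funext i
    exact (ha i).add σ τ
  show ζ ⬝ᵥ (C.bp (ρ1 (σ * τ)) w - C.Bd.B (aa5 Fr v 0 x1 (σ * τ)) w) = _
  rw [h1, map_mul, C.bp_mul, map_add, LinearMap.add_apply, ← dotProduct_add]
  congr 1
  abel

/-- the linear form of a dual vector and a vector -/
private def h13d_f (C : Cd5 l G M) (v : VV l C.d) (ζ : VV l C.n) :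
    VV l C.d →ₗ[ZMod l] ZMod l where
  toFun a := ζ ⬝ᵥ C.Bd.B a v
  map_add' a b := by rw [map_add, LinearMap.add_apply, dotProduct_add]
  map_smul' t a := by
    rw [map_smul, LinearMap.smul_apply, dotProduct_smul, RingHom.id_apply]

private lemma h13d_un (Fr : FrI k l T.tau T.phi) (σ : Gm k) : Fr.un 0 σ = 0 := by
  have h := Fr.un_add 0 0 σ
  rw [add_zero] at h
  have h2 : Fr.un 0 σ + 0 = Fr.un 0 σ + Fr.un 0 σ := by rw [add_zero]; exact h
  exact (add_left_cancel h2).symm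

/-- the vectors in a subgroup containing the commutators form a submodule -/
private lemma h13d_sub (C : Cd5 l G M) (K : Subgroup G) (hZ : ∀ z, C.nn 0 z ∈ K) {κ : Type}
    (s : Finset κ) (c : κ → ZMod l) (w : κ → VV l C.d)
    (h : ∀ i ∈ s, c i ≠ 0 → C.nn (w i) 0 ∈ K) : C.nn (∑ i ∈ s, c i • w i) 0 ∈ K := by
  have hadd : ∀ a b, C.nn a 0 ∈ K → C.nn b 0 ∈ K → C.nn (a + b) 0 ∈ K := by
    intro a b ha hb
    have h1 : C.nn 0 (-((2 : ZMod l)⁻¹ • C.Bd.B a b)) * (C.nn a 0 * C.nn b 0) =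
        C.nn (a + b) 0 := by
      rw [C.nn_mul, C.nn_mul]
      simp
    rw [← h1]
    exact K.mul_mem (hZ _) (K.mul_mem ha hb)
  have hsm : ∀ (n : ℕ) a, C.nn a 0 ∈ K → C.nn (n • a) 0 ∈ K := by
    intro n a ha
    induction n with
    | zero => rw [zero_smul]; exact hZ 0
    | succ n ih => rw [succ_nsmul]; exact hadd _ _ ih ha
  classical
  induction s using Finset.induction_on with
  | empty => rw [Finset.sum_empty]; exact hZ 0
  | insert i s his ih =>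
    rw [Finset.sum_insert his]
    refine hadd _ _ ?_ (ih fun j hj => h j (Finset.mem_insert_of_mem hj))
    by_cases hc : c i = 0
    · rw [hc, zero_smul]; exact hZ 0
    · have h1 : c i • w i = (c i).val • w i := by
        rw [← Nat.cast_smul_eq_nsmul (ZMod l), ZMod.natCast_zmod_val]
      rw [h1]
      exact hsm _ _ (h i (Finset.mem_insert_self _ _) hc)

/-- the recorded ramification agrees with the homomorphism modulo the commutators -/
private lemma h13d_rec (C : Cd5 l G M) (Fr : FrI k l T.tau T.phi) (h4 : SH4 Fr)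
    {v : ι → VV l C.d} {z : ι → VV l C.n} {A : Finset (HeightOneSpectrum (𝓞 k))}
    {ρ1 : Gm k →* G} {x1 : ι → Finset Fr.sys.P} (hr1 : Rec5 C Fr v z A ρ1 x1)
    {P : HeightOneSpectrum (𝓞 k)} (hS : P ∉ Fr.S) (hA : P ∉ A) (w : VV l C.d) :
    C.bp (ρ1 (T.tau P)) w - C.Bd.B (aa5 Fr v 0 x1 (T.tau P)) w = 0 := by
  obtain ⟨-, hb, hc, -⟩ := h4 C.d ι v 0 x1 hr1.1
  by_cases hN : Nov Fr x1 P
  · rw [hr1.2.2.2 P hS hA hN, hc P hS hN, h13d_one]
    simp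
  · unfold Nov at hN
    push Not at hN
    obtain ⟨u, p, hp, rfl⟩ := hN
    obtain ⟨t, -, ht⟩ := hr1.2.2.1 u p hp
    rw [ht, (hb u p hp).2, C.bp_nn, sub_self]

/-- H13d: the members of a class satisfy the conditions -/
theorem sh13d (hl : l ≠ 2) (hG : HypM l G M) (C : Cd5 l G M) (Fr : FrI k l T.tau T.phi)
    (h4 : SH4 Fr) (hw : SHW) (hR : RelT k T.tau T.phi) : SH13d C Fr := by
  have : Finite G := hG.fin
  intro ι _ v z hCls hCtn A ρ1 ρ x1 x hρ1 hρ hr1 hr hcls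
  constructor
  · intro u q hq ζ
    have hrg : Fr.sys.rg q := hr.1.1 u q hq
    have hS : Fr.dn q ∉ Fr.S := Fr.dn_not q
    have hA : Fr.dn q ∉ A := hr.2.1 u q hq
    have hn : ((nrm (Fr.dn q) : ℕ) : ZMod l) = 1 := (Fr.dn_ex _ hS).1 ⟨q, hrg, rfl⟩
    obtain ⟨t, -, hz⟩ := hr.2.2.1 u q hq
    obtain ⟨-, hb, -, hb3⟩ := h4 C.d ι v 0 x hr.1
    have ht := (hb u q hq).1
    have hpw : ρ (T.tau (Fr.dn q)) ^ l = 1 := by
      rcases hρ.2 _ hS hA with h | h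
      · rw [h, one_pow]
      · exact hG.ord _ h
    have hrel := hR G ρ hρ.1.2 (Fr.dn q) (hCtn _ hS).symm
    rw [h13d_pow hpw hn, hz] at hrel
    have hbp : C.bp (ρ (T.phi (Fr.dn q))) (v u) = 0 := h13d_bp C ht hrel
    have hhm := h13d_hm C Fr hρ1.1.2 ((h4 C.d ι v 0 x1 hr1.1).1) (v u) ζ
    have hcl := Fr.cl_ex _ hhm q hrg (by
      show ζ ⬝ᵥ (C.bp (ρ1 (T.tau (Fr.dn q))) (v u) -
        C.Bd.B (aa5 Fr v 0 x1 (T.tau (Fr.dn q))) (v u)) = 0
      rw [h13d_rec C Fr h4 hr1 hS hA, dotProduct_zero])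
    have h3 := hb3 u q hq (h13d_f C (v u) ζ) (by
      show ζ ⬝ᵥ C.Bd.B (v u) (v u) = 0
      rw [C.Bd.alt, dotProduct_zero])
    have hcs := h13d_cls C Fr hcls (T.phi (Fr.dn q)) (v u)
    rw [hbp, zero_sub] at hcs
    simp only [← hcs, dotProduct_neg, mul_neg] at hcl
    have h0 : (fun i => Fr.un ((0 : Fin C.d → Fin Fr.U → ZMod l) i) (T.phi (Fr.dn q))) = 0 := by
      funext i
      exact h13d_un Fr _
    rw [h0, map_zero, mul_zero, zero_add] at h3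
    show ∑ w, (∑ q' ∈ x w, Fr.sys.J q' q) * (ζ ⬝ᵥ C.Bd.B (v w) (v u)) +
      Fr.sys.ex (oc6 C Fr v ρ1 x1 u ζ) q = 0
    have h5 : ∑ w, (∑ q' ∈ x w, Fr.sys.J q' q) * (ζ ⬝ᵥ C.Bd.B (v w) (v u)) =
        Fr.cc (Fr.dn q) * (ζ ⬝ᵥ C.Bd.B (aa5 Fr v 0 x (T.phi (Fr.dn q))) (v u)) := by
      refine Eq.trans ?_ h3.symm
      exact Finset.sum_congr rfl fun w _ => mul_comm _ _
    rw [h5]
    have h6 : Fr.sys.ex (oc6 C Fr v ρ1 x1 u ζ) q =
        -(Fr.cc (Fr.dn q) * (ζ ⬝ᵥ C.Bd.B (aa5 Fr v 0 x (T.phi (Fr.dn q))) (v u))) :=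
      hcl.symm
    rw [h6, add_neg_cancel]
  · unfold gen6
    set K : Subgroup G := Subgroup.closure
      ({g | ∃ σ, g = C.nn (-aa5 Fr v 0 x1 σ) 0 * ρ1 σ} ∪
        {g | ∃ u ∈ Fr.sys.pat x, g = C.nn (v u) 0} ∪ {g | ∃ z, g = C.nn 0 z}) with hK
    have hZ : ∀ z, C.nn 0 z ∈ K := fun z => Subgroup.subset_closure (Or.inr ⟨z, rfl⟩)
    have hV : ∀ u, (x u).Nonempty → C.nn (v u) 0 ∈ K := by
      intro u hu
      refine Subgroup.subset_closure (Or.inl (Or.inr ⟨u, ?_, rfl⟩))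
      unfold SysL.pat
      rw [Finset.mem_filter]
      exact ⟨Finset.mem_univ _, hu⟩
    have h1 : ∀ σ, C.nn (-aa5 Fr v 0 x1 σ) 0 * ρ1 σ ∈ K := fun σ =>
      Subgroup.subset_closure (Or.inl (Or.inl ⟨σ, rfl⟩))
    have ha : ∀ σ, C.nn (-aa5 Fr v 0 x σ) 0 ∈ K := by
      intro σ
      have h2 : -aa5 Fr v 0 x σ = ∑ u, (-∑ p ∈ x u, Fr.al p σ) • v u := by
        funext i
        have h3 : aa5 Fr v 0 x σ i = Fr.un 0 σ + ∑ u, v u i * ∑ p ∈ x u, Fr.al p σ := rfl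
        rw [Pi.neg_apply, h3, h13d_un, zero_add, Finset.sum_apply, ← Finset.sum_neg_distrib]
        refine Finset.sum_congr rfl fun u _ => ?_
        rw [Pi.smul_apply, smul_eq_mul, neg_mul, mul_comm]
      rw [h2]
      refine h13d_sub C K hZ _ _ _ fun u _ hu => ?_
      refine hV u ?_
      by_contra hne
      rw [Finset.not_nonempty_iff_eq_empty] at hne
      exact hu (by rw [hne, Finset.sum_empty, neg_zero])
    rw [eq_top_iff]
    rintro g -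
    obtain ⟨σ, rfl⟩ := hρ.1.1 g
    obtain ⟨z', hz'⟩ := hcls σ
    have h2 : C.nn (-aa5 Fr v 0 x1 σ) z' = C.nn 0 z' * C.nn (-aa5 Fr v 0 x1 σ) 0 := by
      rw [C.nn_mul]
      simp
    have h3 : C.nn (-aa5 Fr v 0 x σ) 0 * ρ σ ∈ K := by
      rw [hz', h2, mul_assoc]
      exact K.mul_mem (hZ z') (h1 σ)
    exact (K.mul_mem_cancel_left (ha σ)).1 h3

end

end Pool.Agent.H92.T5
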