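import Pool.Agent.H92.T5.GStm

/-!
# Project T5 (MP_a3214d), row H4: values of the noncentral part of a homomorphism
-/

set_option autoImplicit false

open scoped BigOperators Topology
open NumberField IsDedekindDomain Filter

namespace Pool.Agent.H92.T5

open Pool.Agent.H98.MF (Gm Dec nrm rdN fld)
open Pool.Agent.H92.EL
open Pool.Agent.H92.EL.SysL (VV BD)

section

variable {k : Type} [Field k] [NumberField k] {l : ℕ}

private theorem sh4_zero : Hm (k := k) (l := l) fun _ => 0 :=
  ⟨IsLocallyConstant.const 0, fun _ _ => (add_zero _).symm⟩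

private theorem sh4_add {g h : Gm k → ZMod l} (hg : Hm g) (hh : Hm h) :
    Hm fun σ => g σ + h σ :=
  ⟨hg.lc.add hh.lc, fun σ τ => by rw [hg.add, hh.add]; ring⟩

private theorem sh4_mul (c : ZMod l) {h : Gm k → ZMod l} (hh : Hm h) : Hm fun σ => c * h σ :=
  ⟨(IsLocallyConstant.const c).mul hh.lc, fun σ τ => by rw [hh.add]; ring⟩

private theorem sh4_sum {ι : Type*} (s : Finset ι) (f : ι → Gm k → ZMod l)
    (h : ∀ i ∈ s, Hm (f i)) : Hm fun σ => ∑ i ∈ s, f i σ := by
  classical
  induction s using Finset.induction_on with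
  | empty =>
    simp only [Finset.sum_empty]
    exact sh4_zero
  | insert i s hi ih =>
    simp only [Finset.sum_insert hi]
    exact sh4_add (h i (Finset.mem_insert_self i s))
      (ih fun j hj => h j (Finset.mem_insert_of_mem hj))

end

section

variable {k : Type} [Field k] [NumberField k] {l : ℕ} [Fact l.Prime] {T : TM k}

/-- primes of a good family over the same prime are equal -/
private theorem h4_eq (Fr : FrI k l T.tau T.phi) {ι : Type} {x : ι → Finset Fr.sys.P}
    (hx : Fr.sys.Gd x) {v w : ι} {p q : Fr.sys.P} (hp : p ∈ x v) (hq : q ∈ x w)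
    (h : Fr.dn p = Fr.dn q) : v = w ∧ p = q := by
  obtain ⟨g, hg⟩ := (Fr.dn_eq p q).1 h
  exact hx.2 v w p hp q hq g hg

/-- the sum as a linear combination -/
private theorem h4_aa (Fr : FrI k l T.tau T.phi) {ι : Type} [Fintype ι] {d : ℕ}
    (v : ι → VV l d) (y : Fin d → Fin Fr.U → ZMod l) (x : ι → Finset Fr.sys.P) (σ : Gm k) :
    aa5 Fr v y x σ = (fun i => Fr.un (y i) σ) +
      ∑ w : ι, (∑ p ∈ x w, Fr.al p σ) • v w := by
  funext i
  simp only [aa5, Pi.add_apply, Finset.sum_apply, Pi.smul_apply, smul_eq_mul]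
  congr 1
  refine Finset.sum_congr rfl fun w _ => ?_
  ring

/-- H4: values of the noncentral part -/
theorem sh4 (Fr : FrI k l T.tau T.phi) : SH4 Fr := by
  classical
  intro d ι _ v y x hx
  refine ⟨?_, ?_, ?_, ?_⟩
  · intro i
    exact sh4_add (Fr.un_hm (y i)) (sh4_sum Finset.univ _ fun u _ =>
      sh4_mul _ (sh4_sum (x u) _ fun p hp => Fr.al_hm p (hx.1 u p hp)))
  · intro u p hp
    obtain ⟨g, hg⟩ := (Fr.dn_eq (Fr.bs (Fr.dn p)) p).1 (Fr.bs_dn p)
    refine ⟨?_, ?_⟩
    · rw [Fr.al_self p (hx.1 u p hp) g hg]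
      exact mul_ne_zero (Fr.kt_ne _) (Units.ne_zero _)
    rw [h4_aa]
    have h1 : (fun i => Fr.un (y i) (T.tau (Fr.dn p))) = 0 := by
      funext i
      exact Fr.un_tau (y i) _ (Fr.dn_not p)
    rw [h1, zero_add, Finset.sum_eq_single u]
    · congr 1
      rw [Finset.sum_eq_single p]
      · intro q hq hqp
        refine Fr.al_tau q (hx.1 u q hq) _ (Fr.dn_not p) fun h => hqp ?_
        exact ((h4_eq Fr hx hp hq h).2).symm
      · intro h
        exact absurd hp h
    · intro w _ hw
      have h2 : ∑ q ∈ x w, Fr.al q (T.tau (Fr.dn p)) = 0 := by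
        refine Finset.sum_eq_zero fun q hq => ?_
        refine Fr.al_tau q (hx.1 w q hq) _ (Fr.dn_not p) fun h => hw ?_
        exact ((h4_eq Fr hx hp hq h).1).symm
      rw [h2, zero_smul]
    · intro h
      exact absurd (Finset.mem_univ u) h
  · intro P hP hne
    rw [h4_aa]
    have h1 : (fun i => Fr.un (y i) (T.tau P)) = 0 := by
      funext i
      exact Fr.un_tau (y i) _ hP
    rw [h1, zero_add]
    refine Finset.sum_eq_zero fun w _ => ?_
    have h2 : ∑ q ∈ x w, Fr.al q (T.tau P) = 0 := by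
      refine Finset.sum_eq_zero fun q hq => ?_
      exact Fr.al_tau q (hx.1 w q hq) _ hP fun h => hne w q hq h.symm
    rw [h2, zero_smul]
  · intro u q hq f hf
    rw [h4_aa, map_add, mul_add, map_sum, Finset.mul_sum]
    congr 1
    refine Finset.sum_congr rfl fun w _ => ?_
    rw [map_smul, smul_eq_mul]
    by_cases hw : w = u
    · rw [hw, hf]
      ring
    · have h3 : Fr.cc (Fr.dn q) * ∑ p ∈ x w, Fr.al p (T.phi (Fr.dn q)) =
          ∑ p ∈ x w, Fr.sys.J p q := by
        rw [Finset.mul_sum]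
        refine Finset.sum_congr rfl fun p hp => ?_
        refine Fr.al_phi p q (hx.1 w p hp) (hx.1 u q hq) fun h => hw ?_
        exact (h4_eq Fr hx hp hq h).1
      rw [← h3]
      ring

end

end Pool.Agent.H92.T5
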