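import Pool.Agent.H92.T5.GStm

/-!
# Project T5 (MP_a3214d), row H6: homomorphisms congruent modulo the subgroup generated by `M`
-/

set_option autoImplicit false

open scoped BigOperators Topology
open NumberField IsDedekindDomain Filter

namespace Pool.Agent.H92.T5

open Pool.Agent.H98.MF (Om Gm Dec nrm rdN fld)
open Pool.Agent.H92.EL
open Pool.Agent.H92.EL.SysL (VV BD)
open Pool.Agent.TF (HypM Mcl OkM Cg5 HI5 InnF5 InnU5 Inn5)

section

variable {l : ℕ} [Fact l.Prime] {G : Type} [Group G] {M : Set G} (C : Cd5 l G M)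

theorem h6_mul (v w : VV l C.d) (z y : VV l C.n) (g h : G) :
    C.nn v z * g * (C.nn w y * h) =
      C.nn (v + w) (z + y + (2 : ZMod l)⁻¹ • C.Bd.B v w + C.bp g w) * (g * h) := by
  have h2 : g * C.nn w y = C.nn w (y + C.bp g w) * g := by
    rw [← C.bp_conj g w y]
    group
  calc C.nn v z * g * (C.nn w y * h) = C.nn v z * (g * C.nn w y) * h := by
        simp only [mul_assoc]
    _ = C.nn v z * C.nn w (y + C.bp g w) * (g * h) := by
        rw [h2]
        simp only [mul_assoc]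
    _ = _ := by
        rw [C.nn_mul]
        have h3 : z + (y + C.bp g w) + (2 : ZMod l)⁻¹ • C.Bd.B v w =
            z + y + (2 : ZMod l)⁻¹ • C.Bd.B v w + C.bp g w := by abel
        rw [h3]

variable {k : Type} [Field k] [NumberField k]

omit [Fact l.Prime] in
theorem h6_lc {d : ℕ} (a : Gm k → VV l d) (ha : ∀ i, Hm fun σ => a σ i) :
    IsLocallyConstant a := by
  rw [IsLocallyConstant.iff_eventually_eq]
  intro x
  have h1 : ∀ᶠ y in 𝓝 x, ∀ i, a y i = a x i := by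
    rw [Filter.eventually_all]
    intro i
    exact (IsLocallyConstant.iff_eventually_eq _).1 (ha i).lc x
  exact h1.mono fun y hy => funext hy

theorem h6_lc2 (ρ0 : Gm k →* G) (a : Gm k → VV l C.d) (c : Gm k → VV l C.n)
    (h0 : IsLocallyConstant ρ0) (ha : ∀ i, Hm fun σ => a σ i) (hc : IsLocallyConstant c) :
    IsLocallyConstant fun σ => C.nn (a σ) (c σ) * ρ0 σ :=
  ((h6_lc a ha).comp₂ hc C.nn).comp₂ h0 fun x y => x * y

theorem h6_hom (ρ0 : Gm k →* G) (a : Gm k → VV l C.d) (c : Gm k → VV l C.n)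
    (ha : ∀ i, Hm fun σ => a σ i) (hco : Coc5 C ⊤ ρ0 a c) (σ τ : Gm k) :
    C.nn (a (σ * τ)) (c (σ * τ)) * ρ0 (σ * τ) =
      C.nn (a σ) (c σ) * ρ0 σ * (C.nn (a τ) (c τ) * ρ0 τ) := by
  rw [h6_mul, map_mul, hco σ (Subgroup.mem_top _) τ (Subgroup.mem_top _)]
  have h1 : a (σ * τ) = a σ + a τ := funext fun i => (ha i).add σ τ
  rw [h1]

end

/-- H6: homomorphisms congruent modulo the subgroup generated by `M` -/
theorem sh6 {l : ℕ} [Fact l.Prime] {G : Type} [Group G] {M : Set G} (k : Type) [Field k]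
    [NumberField k] (C : Cd5 l G M) : SH6 k C := by
  intro ρ ρ0 h0
  constructor
  · rintro ⟨h1, h2⟩
    have h3 : ∀ g : G, ∃ x : VV l C.d × VV l C.n, g ∈ Subgroup.closure M →
        g = C.nn x.1 x.2 := by
      intro g
      by_cases hg : g ∈ Subgroup.closure M
      · obtain ⟨v, z, h4⟩ := (C.nn_iff g).1 hg
        exact ⟨(v, z), fun _ => h4⟩
      · exact ⟨(0, 0), fun h => absurd h hg⟩
    choose f hf using h3
    have hlc : IsLocallyConstant fun σ => f (ρ σ * (ρ0 σ)⁻¹) :=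
      h1.comp₂ h0 fun x y => f (x * y⁻¹)
    obtain ⟨a, ha⟩ : ∃ a : Gm k → VV l C.d, a = fun σ => (f (ρ σ * (ρ0 σ)⁻¹)).1 := ⟨_, rfl⟩
    obtain ⟨c, hc⟩ : ∃ c : Gm k → VV l C.n, c = fun σ => (f (ρ σ * (ρ0 σ)⁻¹)).2 := ⟨_, rfl⟩
    have hρ : ∀ σ, ρ σ = C.nn (a σ) (c σ) * ρ0 σ := by
      intro σ
      rw [ha, hc]
      change ρ σ = C.nn (f (ρ σ * (ρ0 σ)⁻¹)).1 (f (ρ σ * (ρ0 σ)⁻¹)).2 * ρ0 σ
      rw [← hf _ (h2 σ), inv_mul_cancel_right]
    have hk : ∀ σ τ, a (σ * τ) = a σ + a τ ∧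
        c (σ * τ) = c σ + c τ + (2 : ZMod l)⁻¹ • C.Bd.B (a σ) (a τ) + C.bp (ρ0 σ) (a τ) := by
      intro σ τ
      have h4 := map_mul ρ σ τ
      rw [hρ, hρ σ, hρ τ, h6_mul, ← map_mul] at h4
      exact C.nn_inj _ _ _ _ (mul_right_cancel h4)
    refine ⟨a, c, fun i => ⟨?_, fun σ τ => ?_⟩, ?_, fun σ _ τ _ => (hk σ τ).2, hρ⟩
    · rw [ha]
      exact hlc.comp fun x => x.1 i
    · rw [(hk σ τ).1]
      rfl
    · rw [hc]
      exact hlc.comp Prod.snd
  · rintro ⟨a, c, ha, hc, hco, hρ⟩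
    refine ⟨?_, fun σ => ?_⟩
    · have h1 : (ρ : Gm k → G) = fun σ => C.nn (a σ) (c σ) * ρ0 σ := funext hρ
      rw [h1]
      exact h6_lc2 C ρ0 a c h0 ha hc
    · rw [hρ, mul_inv_cancel_right]
      exact (C.nn_iff _).2 ⟨_, _, rfl⟩

/-- H6b: every cocycle gives a homomorphism -/
theorem sh6b {l : ℕ} [Fact l.Prime] {G : Type} [Group G] {M : Set G} (k : Type) [Field k]
    [NumberField k] (C : Cd5 l G M) : SH6b k C := by
  intro ρ0 a c h0 ha hc hco
  exact ⟨MonoidHom.mk' (fun σ => C.nn (a σ) (c σ) * ρ0 σ) (h6_hom C ρ0 a c ha hco),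
    h6_lc2 C ρ0 a c h0 ha hc, fun σ => rfl⟩

end Pool.Agent.H92.T5
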