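import Pool.Agent.H92.T5.GStm

/-!
# Project T5 (MP_a3214d), odd `l`: the obstruction (row H7)
-/

set_option autoImplicit false

open scoped BigOperators Topology
open NumberField IsDedekindDomain Filter

namespace Pool.Agent.H92.T5

open Pool.Agent.H98.MF (Gm Dec nrm rdN fld)
open Pool.Agent.H92.EL
open Pool.Agent.H92.EL.SysL (VV BD)
open Pool.Agent.TF (HypM)

section

variable {k : Type} [Field k] [NumberField k] {l : ℕ} [Fact l.Prime] {T : TM k}
variable {G : Type} [Group G] {M : Set G} (C : Cd5 l G M)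

theorem h7_lc {n : ℕ} {f : Gm k → VV l n} (h : ∀ i, IsLocallyConstant fun σ => f σ i) :
    IsLocallyConstant f := by
  rw [IsLocallyConstant.iff_eventually_eq]
  intro σ
  have h1 : ∀ᶠ τ in 𝓝 σ, ∀ i, f τ i = f σ i := by
    rw [Filter.eventually_all]
    intro i
    exact (IsLocallyConstant.iff_eventually_eq _).1 (h i) σ
  filter_upwards [h1] with τ hτ
  exact funext hτ

theorem h7_bp_zero (g : G) : C.bp g 0 = 0 := by
  have h := C.bp_add g 0 0
  rw [add_zero] at h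
  exact left_eq_add.1 h

theorem h7_bp_one (v : VV l C.d) : C.bp 1 v = 0 := by
  have h := C.bp_mul 1 1 v
  rw [one_mul] at h
  exact left_eq_add.1 h

/-- the pairing as a linear map -/
def h7_lin (g : G) : VV l C.d →ₗ[ZMod l] VV l C.n :=
  AddMonoidHom.toZModLinearMap l
    { toFun := C.bp g
      map_zero' := h7_bp_zero C g
      map_add' := C.bp_add g }

theorem h7_lin_apply (g : G) (v : VV l C.d) : h7_lin C g v = C.bp g v := rfl

theorem h7_smul (g : G) (t : ZMod l) (v : VV l C.d) : C.bp g (t • v) = t • C.bp g v := by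
  rw [← h7_lin_apply, ← h7_lin_apply, map_smul]

variable {C}

theorem h7_skew (v w : VV l C.d) : C.Bd.B v w = - C.Bd.B w v := by
  have h := C.Bd.alt (v + w)
  rw [map_add, map_add C.Bd.B, LinearMap.add_apply, LinearMap.add_apply, C.Bd.alt, C.Bd.alt,
    zero_add, add_zero] at h
  exact eq_neg_of_add_eq_zero_right h

variable {Fr : FrI k l T.tau T.phi}

/-- the key identity -/
theorem h7_key (h4 : SH4 Fr) {ι : Type} [Fintype ι] (v : ι → VV l C.d)
    {ρ0 : Gm k →* G} (hρ0 : IsLocallyConstant ρ0) (hU : Unr T Fr.S ρ0)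
    (y : Fin C.d → Fin Fr.U → ZMod l) {x : ι → Finset Fr.sys.P} (hx : Fr.sys.Gd x) (u : ι)
    (q : Fr.sys.P) (hq : q ∈ x u) (ζ : VV l C.n) :
    ∑ w, (∑ p ∈ x w, Fr.sys.J p q) * (ζ ⬝ᵥ C.Bd.B (v w) (v u)) +
      Fr.sys.ex (oc5 C Fr v ρ0 y u ζ) q =
    Fr.cc (Fr.dn q) * (ζ ⬝ᵥ (C.Bd.B (aa5 Fr v y x (T.phi (Fr.dn q))) (v u) +
      C.bp (ρ0 (T.phi (Fr.dn q))) (v u))) := by
  have hun : ∀ σ τ, (fun i => Fr.un (y i) (σ * τ)) =
      (fun i => Fr.un (y i) σ) + fun i => Fr.un (y i) τ := by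
    intro σ τ
    funext i
    exact (Fr.un_hm (y i)).add σ τ
  have hunlc : IsLocallyConstant fun σ => (fun i => Fr.un (y i) σ : VV l C.d) :=
    h7_lc fun i => (Fr.un_hm (y i)).lc
  have hh : Hm fun σ => ζ ⬝ᵥ (C.bp (ρ0 σ) (v u) + C.Bd.B (fun i => Fr.un (y i) σ) (v u)) := by
    constructor
    · have h1 := hρ0.prodMk hunlc
      exact h1.comp fun z => ζ ⬝ᵥ (C.bp z.1 (v u) + C.Bd.B z.2 (v u))
    · intro σ τ
      rw [hun, map_mul, C.bp_mul, map_add, LinearMap.add_apply, ← dotProduct_add]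
      congr 1
      abel
  have hq1 := hx.1 u q hq
  have htau : ζ ⬝ᵥ (C.bp (ρ0 (T.tau (Fr.dn q))) (v u) +
      C.Bd.B (fun i => Fr.un (y i) (T.tau (Fr.dn q))) (v u)) = 0 := by
    have h1 : (fun i => Fr.un (y i) (T.tau (Fr.dn q))) = (0 : VV l C.d) := by
      funext i
      exact Fr.un_tau (y i) _ (Fr.dn_not q)
    rw [hU _ (Fr.dn_not q), h7_bp_one, h1, map_zero, LinearMap.zero_apply, add_zero,
      dotProduct_zero]
  have hex := Fr.cl_ex _ hh q hq1 htau
  have hoc : Fr.sys.ex (oc5 C Fr v ρ0 y u ζ) q = Fr.cc (Fr.dn q) *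
      (ζ ⬝ᵥ (C.bp (ρ0 (T.phi (Fr.dn q))) (v u) +
        C.Bd.B (fun i => Fr.un (y i) (T.phi (Fr.dn q))) (v u))) := hex.symm
  let f : VV l C.d →ₗ[ZMod l] ZMod l :=
    { toFun := fun w => ζ ⬝ᵥ C.Bd.B w (v u)
      map_add' := fun a b => by rw [map_add, LinearMap.add_apply, dotProduct_add]
      map_smul' := fun t a => by
        rw [map_smul, LinearMap.smul_apply, dotProduct_smul]
        rfl }
  have hf : ∀ w, f w = ζ ⬝ᵥ C.Bd.B w (v u) := fun w => rfl
  have h1 := (h4 C.d ι v y x hx).2.2.2 u q hq f (by rw [hf, C.Bd.alt, dotProduct_zero])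
  have h2 : ∑ w, (∑ p ∈ x w, Fr.sys.J p q) * (ζ ⬝ᵥ C.Bd.B (v w) (v u)) =
      ∑ w, f (v w) * ∑ p ∈ x w, Fr.sys.J p q :=
    Finset.sum_congr rfl fun w _ => by rw [hf, mul_comm]
  rw [hoc, h2, dotProduct_add, dotProduct_add]
  rw [hf (aa5 Fr v y x (T.phi (Fr.dn q))), hf (fun i => Fr.un (y i) (T.phi (Fr.dn q)))] at h1
  linear_combination -h1

theorem h7_nn_zero : C.nn 0 0 = 1 := by
  have h := C.nn_mul 0 0 0 0
  rw [map_zero, smul_zero, add_zero, add_zero, add_zero] at h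
  exact mul_eq_left.1 h

theorem h7_nn_pow (v : VV l C.d) (z : VV l C.n) (j : ℕ) :
    C.nn v z ^ j = C.nn ((j : ZMod l) • v) ((j : ZMod l) • z) := by
  induction j with
  | zero => rw [pow_zero, Nat.cast_zero, zero_smul, zero_smul, h7_nn_zero]
  | succ j ih =>
    rw [pow_succ, ih, C.nn_mul, map_smul, LinearMap.smul_apply, C.Bd.alt, smul_zero, smul_zero,
      add_zero, Nat.cast_succ, add_smul, add_smul, one_smul, one_smul]

theorem h7_nn_ord (v : VV l C.d) (z : VV l C.n) : C.nn v z ^ l = 1 := by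
  rw [h7_nn_pow, CharP.cast_eq_zero, zero_smul, zero_smul, h7_nn_zero]

/-- H7: the obstruction -/
theorem sh7 (hl : l ≠ 2) (hG : HypM l G M) (C : Cd5 l G M) (Fr : FrI k l T.tau T.phi)
    (h4 : SH4 Fr) (h6b : SH6b k C) (hK : HasK k l T.tau T.phi) (hR : RelT k T.tau T.phi) :
    SH7 C Fr := by
  intro ι _ v hCtn ρ0 hρ0 hU y x hx
  have hkey := h7_key (C := C) h4 v hρ0 hU y hx
  obtain ⟨aHm, hb1, hb2, -⟩ := h4 C.d ι v y x hx
  set a : Gm k → VV l C.d := aa5 Fr v y x with ha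
  have hadd : ∀ σ τ, a (σ * τ) = a σ + a τ := fun σ τ => funext fun i => (aHm i).add σ τ
  have halc : IsLocallyConstant a := h7_lc fun i => (aHm i).lc
  haveI := hG.fin
  constructor
  · rintro ⟨c, hc, hcoc⟩
    refine ⟨fun P _ => ⟨c, hc, fun σ _ τ _ => hcoc σ trivial τ trivial⟩, ?_⟩
    intro u q hq ζ
    obtain ⟨ρ, hρ, hρe⟩ := h6b ρ0 a c hρ0 aHm hc hcoc
    rw [hkey u q hq ζ]
    obtain ⟨ht, hat⟩ := hb1 u q hq
    have hP := Fr.dn_not q
    have hnrm : ((nrm (Fr.dn q) : ℕ) : ZMod l) = 1 :=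
      (Fr.dn_ex _ hP).1 ⟨q, hx.1 u q hq, rfl⟩
    have h1 := hR G ρ hρ (Fr.dn q) (hCtn _ hP).symm
    have h2 : ρ (T.tau (Fr.dn q)) = C.nn (a (T.tau (Fr.dn q))) (c (T.tau (Fr.dn q))) := by
      rw [hρe, hU _ hP, mul_one]
    have h3 : ρ (T.tau (Fr.dn q)) ^ l = 1 := by rw [h2, h7_nn_ord]
    have h4 : ρ (T.tau (Fr.dn q)) ^ nrm (Fr.dn q) = ρ (T.tau (Fr.dn q)) := by
      have h5 : nrm (Fr.dn q) ≡ 1 [MOD l] := by
        rw [← ZMod.natCast_eq_natCast_iff, hnrm, Nat.cast_one]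
      have h6 : nrm (Fr.dn q) ≡ 1 [MOD orderOf (ρ (T.tau (Fr.dn q)))] :=
        h5.of_dvd (orderOf_dvd_of_pow_eq_one h3)
      have h7 := pow_eq_pow_iff_modEq.2 h6
      rw [h7, pow_one]
    rw [h4, h2, C.bp_conj] at h1
    have h5 := (C.nn_inj _ _ _ _ h1).2
    rw [add_eq_left, hρe, C.bp_mul, C.bp_nn, hat, map_smul, h7_smul, ← smul_add] at h5
    have h6 := (smul_eq_zero.1 h5).resolve_left ht
    rw [h6, dotProduct_zero, mul_zero]
  · rintro ⟨hloc, hok⟩
    -- the bilinear expression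
    let Φ : Gm k → VV l C.d → VV l C.n := fun σ w =>
      (2 : ZMod l)⁻¹ • C.Bd.B (a σ) w + C.bp (ρ0 σ) w
    have hΦ : ∀ σ w i, Φ σ w i = ∑ j, Φ σ (Pi.single j 1) i * w j := by
      intro σ w i
      let L : VV l C.d →ₗ[ZMod l] VV l C.n :=
        (2 : ZMod l)⁻¹ • C.Bd.B (a σ) + h7_lin C (ρ0 σ)
      have hL : ∀ w, L w = Φ σ w := fun w => rfl
      have h1 : w = ∑ j, w j • (Pi.single j 1 : VV l C.d) := by
        funext s
        rw [Finset.sum_apply]
        simp [Pi.single_apply]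
      rw [← hL]
      conv_lhs => rw [h1]
      rw [map_sum, Finset.sum_apply]
      refine Finset.sum_congr rfl fun j _ => ?_
      rw [map_smul, Pi.smul_apply, smul_eq_mul, mul_comm, hL]
    have hΦm : ∀ w i, Hm fun σ => Φ σ w i := by
      intro w i
      constructor
      · have h1 := halc.prodMk hρ0
        exact h1.comp fun z => ((2 : ZMod l)⁻¹ • C.Bd.B z.1 w + C.bp z.2 w) i
      · intro σ τ
        show ((2 : ZMod l)⁻¹ • C.Bd.B (a (σ * τ)) w + C.bp (ρ0 (σ * τ)) w) i =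
          ((2 : ZMod l)⁻¹ • C.Bd.B (a σ) w + C.bp (ρ0 σ) w) i +
            ((2 : ZMod l)⁻¹ • C.Bd.B (a τ) w + C.bp (ρ0 τ) w) i
        rw [hadd, map_mul, C.bp_mul, map_add, LinearMap.add_apply, smul_add]
        simp only [Pi.add_apply]
        ring
    have hglob : ∀ i : Fin C.n, TrH (⊤ : Subgroup (Gm k))
        (fun (j : Fin C.d) σ => Φ σ (Pi.single j 1) i) (fun j σ => a σ j) := by
      intro i
      refine hK.glob C.d _ _ (fun j => hΦm _ i) aHm fun P => ?_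
      by_cases hP : P ∈ Fr.S
      · obtain ⟨c, hc, hcoc⟩ := hloc P hP
        refine ⟨fun σ => c σ i, hc.comp fun z => z i, fun σ hσ τ hτ => ?_⟩
        show c (σ * τ) i = c σ i + c τ i + ∑ j, Φ σ (Pi.single j 1) i * a τ j
        rw [hcoc σ hσ τ hτ, ← hΦ]
        simp only [Pi.add_apply, Φ]
        ring
      · refine hK.loc P (Fr.S_l P hP) C.d _ _ (fun j => hΦm _ i) aHm ?_
        show ∑ j, (Φ (T.phi P) (Pi.single j 1) i * a (T.tau P) j -
          Φ (T.tau P) (Pi.single j 1) i * a (T.phi P) j) = 0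
        rw [Finset.sum_sub_distrib, ← hΦ, ← hΦ]
        have h2 : Φ (T.phi P) (a (T.tau P)) i - Φ (T.tau P) (a (T.phi P)) i =
            (C.Bd.B (a (T.phi P)) (a (T.tau P)) + C.bp (ρ0 (T.phi P)) (a (T.tau P))) i := by
          have h3 : (2 : ZMod l)⁻¹ + (2 : ZMod l)⁻¹ = 1 := by
            have h4 : (2 : ZMod l) ≠ 0 := by
              intro h5
              have h6 : ((2 : ℕ) : ZMod l) = 0 := by exact_mod_cast h5
              rw [ZMod.natCast_eq_zero_iff] at h6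
              exact hl ((Nat.prime_dvd_prime_iff_eq (Fact.out : l.Prime) Nat.prime_two).1 h6)
            rw [← two_mul, mul_inv_cancel₀ h4]
          simp only [Φ]
          rw [hU P hP, h7_bp_one, add_zero, h7_skew (a (T.tau P)) (a (T.phi P))]
          simp only [Pi.add_apply, Pi.smul_apply, Pi.neg_apply, smul_eq_mul]
          linear_combination (C.Bd.B (a (T.phi P)) (a (T.tau P)) i) * h3
        rw [h2]
        by_cases hex : ∀ u, ∀ p ∈ x u, Fr.dn p ≠ P
        · rw [hb2 P hP hex, map_zero, h7_bp_zero, add_zero, Pi.zero_apply]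
        · push Not at hex
          obtain ⟨u, q, hq, rfl⟩ := hex
          obtain ⟨ht, hat⟩ := hb1 u q hq
          have h3 := hok u q hq (Pi.single i 1)
          rw [hkey u q hq] at h3
          have h4 := (mul_eq_zero.1 h3).resolve_left (Fr.cc_ne _)
          rw [single_dotProduct, one_mul] at h4
          rw [hat, map_smul, h7_smul, ← smul_add, Pi.smul_apply, h4, smul_zero]
    choose f hf1 hf2 using hglob
    refine ⟨fun σ i => f i σ, h7_lc hf1, fun σ hσ τ hτ => ?_⟩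
    funext i
    have h1 : f i (σ * τ) = f i σ + f i τ + ∑ j, Φ σ (Pi.single j 1) i * a τ j :=
      hf2 i σ hσ τ hτ
    rw [← hΦ] at h1
    show f i (σ * τ) = _
    rw [h1]
    simp only [Pi.add_apply, Φ]
    ring

end

end Pool.Agent.H92.T5
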