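import Pool.Agent.H92.T5.GStm

/-!
# Project T5 (MP_a3214d), row H8: parametrisation of the homomorphisms with inertia in `M`
-/

set_option autoImplicit false

open scoped BigOperators Topology
open NumberField IsDedekindDomain Filter

namespace Pool.Agent.H92.T5

open Pool.Agent.H98.MF (Om Gm Dec nrm rdN fld)
open Pool.Agent.H92.EL
open Pool.Agent.H92.EL.SysL (VV BD)
open Pool.Agent.TF (HypM Mcl OkM Cg5 HI5 InnF5 InnU5 Inn5)

/-! ### the group -/

section

variable {l : ℕ} [Fact l.Prime] {G : Type} [Group G] {M : Set G} (C : Cd5 l G M)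

private theorem h8_one : C.nn 0 0 = 1 := by
  have h := C.nn_mul 0 0 0 0
  rw [map_zero, smul_zero, add_zero, add_zero, add_zero] at h
  exact mul_eq_left.1 h

private theorem h8_bp0 (g : G) : C.bp g 0 = 0 := by
  have h := C.bp_add g 0 0
  rw [add_zero] at h
  exact left_eq_add.1 h

private theorem h8_pow (w : VV l C.d) (y : VV l C.n) (j : ℕ) :
    (C.nn w y) ^ j = C.nn ((j : ZMod l) • w) ((j : ZMod l) • y) := by
  induction j with
  | zero => rw [pow_zero, Nat.cast_zero, zero_smul, zero_smul, h8_one]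
  | succ j ih =>
    rw [pow_succ, ih, C.nn_mul, map_smul, LinearMap.smul_apply, C.Bd.alt, smul_zero, smul_zero,
      add_zero, Nat.cast_succ, add_smul, one_smul, add_smul, one_smul]

private theorem h8_smul (hG : HypM l G M) {w : VV l C.d} {y : VV l C.n} (h : C.nn w y ∈ M)
    {a : ZMod l} (ha : a ≠ 0) : C.nn (a • w) (a • y) ∈ M := by
  have h1 := hG.pow _ h a.val (fun hd => ha (by
    have h2 := (ZMod.natCast_eq_zero_iff a.val l).2 hd
    rwa [ZMod.natCast_zmod_val] at h2))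
  rw [h8_pow, ZMod.natCast_zmod_val] at h1
  exact h1

private theorem h8_cls (hG : HypM l G M) (hw : SHW) {w : VV l C.d} {y : VV l C.n}
    (h : C.nn w y ∈ M) {t : VV l C.n} (ht : t ∈ C.W w) : C.nn w (y + t) ∈ M := by
  obtain ⟨g, rfl⟩ := ((hw l G M C w).1 t).1 ht
  rw [← C.bp_conj]
  exact hG.conj g _ h

end

/-! ### homomorphisms -/

section

variable {k : Type} [Field k] [NumberField k] {l : ℕ}

private theorem h8_zero : Hm (k := k) (l := l) fun _ => 0 :=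
  ⟨IsLocallyConstant.const 0, fun _ _ => (add_zero _).symm⟩

private theorem h8_add {g h : Gm k → ZMod l} (hg : Hm g) (hh : Hm h) :
    Hm fun σ => g σ + h σ :=
  ⟨hg.lc.add hh.lc, fun σ τ => by rw [hg.add, hh.add]; ring⟩

private theorem h8_mul (c : ZMod l) {h : Gm k → ZMod l} (hh : Hm h) : Hm fun σ => c * h σ :=
  ⟨(IsLocallyConstant.const c).mul hh.lc, fun σ τ => by rw [hh.add]; ring⟩

private theorem h8_sum {ι : Type*} (s : Finset ι) (f : ι → Gm k → ZMod l)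
    (h : ∀ i ∈ s, Hm (f i)) : Hm fun σ => ∑ i ∈ s, f i σ := by
  classical
  induction s using Finset.induction_on with
  | empty =>
    simp only [Finset.sum_empty]
    exact h8_zero
  | insert i s hi ih =>
    simp only [Finset.sum_insert hi]
    exact h8_add (h i (Finset.mem_insert_self i s))
      (ih fun j hj => h j (Finset.mem_insert_of_mem hj))

end

section

variable {k : Type} [Field k] [NumberField k] {l : ℕ} [Fact l.Prime] {T : TM k}
  (Fr : FrI k l T.tau T.phi) {ι : Type} [Fintype ι]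

/-- the ramified part -/
private noncomputable def h8R {d : ℕ} (v : ι → VV l d) (x : ι → Finset Fr.sys.P)
    (σ : Gm k) (i : Fin d) : ZMod l := ∑ u, v u i * ∑ p ∈ x u, Fr.al p σ

private theorem h8_aa {d : ℕ} (v : ι → VV l d) (y : Fin d → Fin Fr.U → ZMod l)
    (x : ι → Finset Fr.sys.P) (σ : Gm k) (i : Fin d) :
    aa5 Fr v y x σ i = Fr.un (y i) σ + h8R Fr v x σ i := rfl

private theorem h8R_hm {d : ℕ} {v : ι → VV l d} {x : ι → Finset Fr.sys.P}
    (hx : Fr.sys.Gd x) (i : Fin d) : Hm fun σ => h8R Fr v x σ i :=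
  h8_sum Finset.univ _ fun u _ => h8_mul _ (h8_sum (x u) _ fun p hp =>
    Fr.al_hm p (hx.1 u p hp))

private theorem h8_ex (p : Fr.sys.P) : ∃ g, Fr.sys.ac g (Fr.bs (Fr.dn p)) = p :=
  (Fr.dn_eq _ _).1 (Fr.bs_dn p)

private theorem h8_al_ne {p : Fr.sys.P} (hp : Fr.sys.rg p) : Fr.al p (T.tau (Fr.dn p)) ≠ 0 := by
  obtain ⟨g, hg⟩ := h8_ex Fr p
  rw [Fr.al_self p hp g hg]
  exact mul_ne_zero (Fr.kt_ne _) (Units.ne_zero _)

/-- the ramified part at a prime without members of the family -/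
private theorem h8R_zero {d : ℕ} {v : ι → VV l d} {x : ι → Finset Fr.sys.P}
    (hx : Fr.sys.Gd x) {P : HeightOneSpectrum (𝓞 k)} (hP : P ∉ Fr.S)
    (h : Nov Fr x P) (i : Fin d) : h8R Fr v x (T.tau P) i = 0 := by
  unfold h8R
  refine Finset.sum_eq_zero fun u _ => ?_
  rw [Finset.sum_eq_zero, mul_zero]
  intro p hp
  exact Fr.al_tau p (hx.1 u p hp) P hP fun h1 => h u p hp h1.symm

/-- the ramified part at a prime with a member of the family -/
private theorem h8R_one {d : ℕ} {v : ι → VV l d} {x : ι → Finset Fr.sys.P}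
    (hx : Fr.sys.Gd x) {u : ι} {p : Fr.sys.P} (hp : p ∈ x u) (i : Fin d) :
    h8R Fr v x (T.tau (Fr.dn p)) i = v u i * Fr.al p (T.tau (Fr.dn p)) := by
  classical
  unfold h8R
  have h0 : ∀ w, ∀ q ∈ x w, (w ≠ u ∨ q ≠ p) → Fr.al q (T.tau (Fr.dn p)) = 0 := by
    intro w q hq hwq
    refine Fr.al_tau q (hx.1 w q hq) _ (Fr.dn_not p) fun h1 => ?_
    obtain ⟨g, hg⟩ := (Fr.dn_eq p q).1 h1
    obtain ⟨h2, h3⟩ := hx.2 u w p hp q hq g hg
    rcases hwq with h4 | h4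
    · exact h4 h2.symm
    · exact h4 h3.symm
  rw [Finset.sum_eq_single u]
  · congr 1
    refine Finset.sum_eq_single p (fun q hq hqp => h0 u q hq (Or.inr hqp)) fun h1 => ?_
    exact absurd hp h1
  · intro w _ hw
    rw [Finset.sum_eq_zero, mul_zero]
    intro q hq
    exact h0 w q hq (Or.inl hw)
  · intro h1
    exact absurd (Finset.mem_univ u) h1

private theorem h8_rg {p : Fr.sys.P} (hp : Fr.sys.rg p) (g : Fr.sys.D) :
    Fr.sys.rg (Fr.sys.ac g p) := by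
  intro h h1
  apply hp h
  have h2 : Fr.sys.ac g⁻¹ (Fr.sys.ac h (Fr.sys.ac g p)) = Fr.sys.ac g⁻¹ (Fr.sys.ac g p) := by
    rw [h1]
  rw [← Fr.sys.ac_mul, ← Fr.sys.ac_mul, ← Fr.sys.ac_mul] at h2
  have h3 : g⁻¹ * h * g = h := by
    rw [mul_assoc, mul_comm h g, inv_mul_cancel_left]
  rw [h3, inv_mul_cancel, Fr.sys.ac_one] at h2
  exact h2

variable {G : Type} [Group G] {M : Set G} {C : Cd5 l G M}

/-- the prime and the class are determined -/
private theorem h8_un (hw : SHW) {v : ι → VV l C.d} {z : ι → VV l C.n}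
    (hC : Cls C Fr.sys ι v z) {u u' : ι} {p q : Fr.sys.P} (hp : Fr.sys.rg p)
    (hq : Fr.sys.rg q) (hpq : Fr.dn p = Fr.dn q) {t t' : VV l C.n}
    (ht : t ∈ C.W (v u)) (ht' : t' ∈ C.W (v u'))
    (h1 : Fr.al p (T.tau (Fr.dn p)) • v u = Fr.al q (T.tau (Fr.dn q)) • v u')
    (h2 : Fr.al p (T.tau (Fr.dn p)) • (z u + t) = Fr.al q (T.tau (Fr.dn q)) • (z u' + t')) :
    u = u' ∧ p = q := by
  obtain ⟨g, hg⟩ := h8_ex Fr p
  obtain ⟨g', hg'⟩ := h8_ex Fr q
  rw [Fr.al_self p hp g hg, Fr.al_self q hq g' hg', ← hpq] at h1 h2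
  have hk := Fr.kt_ne (Fr.dn p)
  have key : ∀ {m : ℕ} (a b : VV l m), (Fr.kt (Fr.dn p) * (Fr.sys.e g : ZMod l)) • a =
      (Fr.kt (Fr.dn p) * (Fr.sys.e g' : ZMod l)) • b →
      a = (Fr.sys.e (g⁻¹ * g') : ZMod l) • b := by
    intro m a b h
    ext i
    have h3 := congrFun h i
    simp only [Pi.smul_apply, smul_eq_mul] at h3 ⊢
    have h4 : (Fr.sys.e g : ZMod l) * a i = Fr.sys.e g' * b i := by
      apply mul_left_cancel₀ hk
      linear_combination h3
    rw [map_mul, map_inv, Units.val_mul, mul_assoc, ← h4, ← mul_assoc, Units.inv_mul, one_mul]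
  have h3 := key _ _ h1
  have h4 := key _ _ h2
  have he : (Fr.sys.e (g⁻¹ * g') : ZMod l) ≠ 0 := Units.ne_zero _
  have hW : C.W (v u) = C.W (v u') := by
    rw [h3]
    exact (hw l G M C (v u')).2.2 _ he
  obtain ⟨h5, h6⟩ := hC.unq u u' (g⁻¹ * g') h3
    ⟨t' - (Fr.sys.e (g⁻¹ * g') : ZMod l)⁻¹ • t, by
      refine Submodule.sub_mem _ ht' (Submodule.smul_mem _ _ ?_)
      rw [← hW]
      exact ht, by
      rw [add_sub, smul_sub, ← h4, smul_smul, mul_inv_cancel₀ he, one_smul,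
        add_sub_cancel_right]⟩
  refine ⟨h5, ?_⟩
  have h7 : g = g' := inv_mul_eq_one.1 h6
  rw [← hg, ← hg', h7, hpq]

/-- the members of the family of a homomorphism -/
private def h8X (C : Cd5 l G M) (v : ι → VV l C.d) (z : ι → VV l C.n) (a : Gm k → VV l C.d)
    (c : Gm k → VV l C.n) (u : ι) : Set Fr.sys.P :=
  {p | Fr.sys.rg p ∧ C.nn (a (T.tau (Fr.dn p))) (c (T.tau (Fr.dn p))) ∈ M ∧
    a (T.tau (Fr.dn p)) = Fr.al p (T.tau (Fr.dn p)) • v u ∧
    ∃ t ∈ C.W (v u), c (T.tau (Fr.dn p)) = Fr.al p (T.tau (Fr.dn p)) • (z u + t)}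

private theorem h8X_un (hw : SHW) {v : ι → VV l C.d} {z : ι → VV l C.n}
    (hC : Cls C Fr.sys ι v z) {a : Gm k → VV l C.d} {c : Gm k → VV l C.n} {u u' : ι}
    {p q : Fr.sys.P} (hp : p ∈ h8X Fr C v z a c u) (hq : q ∈ h8X Fr C v z a c u')
    (hpq : Fr.dn p = Fr.dn q) : u = u' ∧ p = q := by
  obtain ⟨hp1, -, hp3, t, ht, hp4⟩ := hp
  obtain ⟨hq1, -, hq3, t', ht', hq4⟩ := hq
  refine h8_un Fr hw hC hp1 hq1 hpq ht ht' ?_ ?_
  · rw [← hp3, ← hq3, hpq]
  · rw [← hp4, ← hq4, hpq]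

/-- the member of the family at a ramified prime -/
private theorem h8X_ex (hG : HypM l G M) {v : ι → VV l C.d} {z : ι → VV l C.n}
    (hC : Cls C Fr.sys ι v z) {a : Gm k → VV l C.d} {c : Gm k → VV l C.n}
    {P : HeightOneSpectrum (𝓞 k)} (hP : P ∉ Fr.S)
    (hM : C.nn (a (T.tau P)) (c (T.tau P)) ∈ M) (h1 : ((nrm P : ℕ) : ZMod l) = 1) :
    ∃ (u : ι) (p : Fr.sys.P), Fr.dn p = P ∧ p ∈ h8X Fr C v z a c u := by
  obtain ⟨q, hq, hqP⟩ := (Fr.dn_ex P hP).2 h1
  obtain ⟨g, hg⟩ := h8_ex Fr q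
  rw [hqP] at hg
  have hb : Fr.sys.rg (Fr.bs P) := by
    have h2 := h8_rg Fr hq g⁻¹
    rw [← hg, ← Fr.sys.ac_mul, inv_mul_cancel, Fr.sys.ac_one] at h2
    exact h2
  have hdb : Fr.dn (Fr.bs P) = P := by
    have h2 := Fr.bs_dn q
    rw [hqP] at h2
    exact h2
  have hk := Fr.kt_ne P
  obtain ⟨u, h, hh, t, ht, hy⟩ := hC.cov _ _ (h8_smul C hG hM (inv_ne_zero hk))
  have hd : Fr.dn (Fr.sys.ac h (Fr.bs P)) = P := by
    have h4 : Fr.dn (Fr.bs P) = Fr.dn (Fr.sys.ac h (Fr.bs P)) := (Fr.dn_eq _ _).2 ⟨h, rfl⟩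
    rw [← h4, hdb]
  have hr := h8_rg Fr hb h
  have hs := Fr.al_self _ hr h (by rw [hd])
  rw [hd] at hs
  refine ⟨u, Fr.sys.ac h (Fr.bs P), hd, hr, ?_, ?_, t, ht, ?_⟩
  · rw [hd]
    exact hM
  · rw [hd, hs, mul_smul, ← hh, smul_smul, mul_inv_cancel₀ hk, one_smul]
  · rw [hd, hs, mul_smul, ← hy, smul_smul, mul_inv_cancel₀ hk, one_smul]

end

section

variable {k : Type} [Field k] [NumberField k] {l : ℕ} [Fact l.Prime] {T : TM k}
  {G : Type} [Group G] {M : Set G}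

/-- the norm of a ramified prime -/
private theorem h8_nrm (hG : HypM l G M) (C : Cd5 l G M) (Fr : FrI k l T.tau T.phi)
    (hR : RelT k T.tau T.phi) (hS : Ctn Fr.S (Nat.card G)) {ρ ρ0 : Gm k →* G}
    (hρ : IsLocallyConstant ρ) (h0 : Unr T Fr.S ρ0) {a : Gm k → VV l C.d}
    {c : Gm k → VV l C.n} (ha : ∀ i, Hm fun σ => a σ i)
    (he : ∀ σ, ρ σ = C.nn (a σ) (c σ) * ρ0 σ) {P : HeightOneSpectrum (𝓞 k)} (hP : P ∉ Fr.S)
    (hM : C.nn (a (T.tau P)) (c (T.tau P)) ∈ M) : ((nrm P : ℕ) : ZMod l) = 1 := by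
  by_contra hn
  have h1 : a (T.tau P) = 0 := by
    ext i
    exact Fr.tam _ (ha i) P hP hn
  have := hG.fin
  have h2 := hR G ρ hρ P (hS P hP).symm
  have h3 : ρ (T.tau P) = C.nn 0 (c (T.tau P)) := by
    rw [he, h0 P hP, mul_one, h1]
  rw [h3, C.bp_conj, h8_bp0, add_zero, h8_pow, smul_zero] at h2
  have h4 := (C.nn_inj _ _ _ _ h2).2
  have h5 : c (T.tau P) ≠ 0 := by
    intro h6
    rw [h1, h6, h8_one] at hM
    exact hG.one hM
  obtain ⟨i, hi⟩ := Function.ne_iff.1 h5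
  have h6 := congrFun h4 i
  rw [Pi.smul_apply, smul_eq_mul] at h6
  exact hn (mul_right_cancel₀ hi (h6.symm.trans (one_mul _).symm))

/-- one inclusion between the families of two configurations -/
private theorem h8_sub (hG : HypM l G M) (C : Cd5 l G M) (Fr : FrI k l T.tau T.phi)
    (h4 : SH4 Fr) (hw : SHW) {ι : Type} [Fintype ι] {v : ι → VV l C.d} {z : ι → VV l C.n}
    (hC : Cls C Fr.sys ι v z) {ρ0 : Gm k →* G} {y y' : Fin C.d → Fin Fr.U → ZMod l}
    {x x' : ι → Finset Fr.sys.P} {c c' : Gm k → VV l C.n} (hc : Cfg C Fr v z ρ0 y x c)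
    (hc' : Cfg C Fr v z ρ0 y' x' c') (ha : ∀ σ, aa5 Fr v y x σ = aa5 Fr v y' x' σ)
    (hcc : ∀ σ, c σ = c' σ) (u : ι) : x u ⊆ x' u := by
  intro p hp
  have hA := h4 C.d ι v y x hc.gd
  have hA' := h4 C.d ι v y' x' hc'.gd
  obtain ⟨hal, hap⟩ := hA.2.1 u p hp
  obtain ⟨t, ht, hct⟩ := hc.cls u p hp
  by_cases hN : Nov Fr x' (Fr.dn p)
  · exfalso
    have h1 := hA'.2.2.1 _ (Fr.dn_not p) hN
    have h2 := hc'.off _ (Fr.dn_not p) hN
    rw [← ha, hap] at h1
    rw [← hcc, hct] at h2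
    have h3 : v u = 0 := (smul_eq_zero.1 h1).resolve_left hal
    have h5 : z u + t = 0 := (smul_eq_zero.1 h2).resolve_left hal
    have h6 := h8_cls C hG hw (hC.mem u) ht
    rw [h5, h3, h8_one] at h6
    exact hG.one h6
  · unfold Nov at hN
    push Not at hN
    obtain ⟨u', q, hq, hqp⟩ := hN
    obtain ⟨-, haq⟩ := hA'.2.1 u' q hq
    obtain ⟨t', ht', hct'⟩ := hc'.cls u' q hq
    obtain ⟨h1, h2⟩ := h8_un Fr hw hC (hc.gd.1 u p hp) (hc'.gd.1 u' q hq) hqp.symm ht ht'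
      (by rw [← hap, ← haq, ha, hqp]) (by rw [← hct, ← hct', hcc, hqp])
    rw [h1, h2]
    exact hq

/-- H8: parametrisation of the homomorphisms with inertia in `M` outside `S` -/
theorem sh8 (_hl : l ≠ 2) (hG : HypM l G M) (C : Cd5 l G M) (Fr : FrI k l T.tau T.phi)
    (h4 : SH4 Fr) (h6 : SH6 k C) (_h6b : SH6b k C) (hw : SHW) (hR : RelT k T.tau T.phi)
    (hF : FinT k T.tau) : SH8 C Fr := by
  classical
  intro ι _ v z hC hS ρ0 hρ0 h0
  refine ⟨?_, ?_, ?_⟩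
  · -- existence
    intro ρ hρ hcg hok
    obtain ⟨a, c, ha, hcl, hcoc, he⟩ := (h6 ρ ρ0 hρ0).1 ⟨hρ, hcg⟩
    have := hG.fin
    have hnn : ∀ P, P ∉ Fr.S → ρ (T.tau P) = C.nn (a (T.tau P)) (c (T.tau P)) := by
      intro P hP
      rw [he, h0 P hP, mul_one]
    have hfin : ∀ u, (h8X Fr C v z a c u).Finite := by
      intro u
      refine Set.Finite.of_injOn (f := Fr.dn) (fun p hp => ?_) (fun p hp q hq hpq => ?_)
        (hF G ρ hρ)
      · show ρ (T.tau (Fr.dn p)) ≠ 1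
        intro h1
        have h2 := hp.2.1
        rw [← hnn _ (Fr.dn_not p), h1] at h2
        exact hG.one h2
      · exact (h8X_un Fr hw hC hp hq hpq).2
    let x : ι → Finset Fr.sys.P := fun u => (hfin u).toFinset
    have hmem : ∀ u p, p ∈ x u ↔ p ∈ h8X Fr C v z a c u := fun u p =>
      Set.Finite.mem_toFinset _
    have hx : Fr.sys.Gd x := by
      refine ⟨fun u p hp => ((hmem u p).1 hp).1, fun u u' p hp q hq g hg => ?_⟩
      exact h8X_un Fr hw hC ((hmem u p).1 hp) ((hmem u' q).1 hq) ((Fr.dn_eq p q).2 ⟨g, hg⟩)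
    -- the two cases outside `S`
    have htwo : ∀ P, P ∉ Fr.S → (a (T.tau P) = 0 ∧ c (T.tau P) = 0 ∧ Nov Fr x P) ∨
        ∃ u, ∃ p ∈ x u, Fr.dn p = P := by
      intro P hP
      rcases hok P hP with h1 | h1
      · left
        rw [hnn P hP, ← h8_one C] at h1
        obtain ⟨h2, h3⟩ := C.nn_inj _ _ _ _ h1
        refine ⟨h2, h3, fun u p hp hpP => ?_⟩
        have h5 := ((hmem u p).1 hp).2.1
        rw [hpP, h2, h3, h8_one] at h5
        exact hG.one h5
      · right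
        rw [hnn P hP] at h1
        obtain ⟨u, p, h2, h3⟩ := h8X_ex Fr hG hC hP h1
          (h8_nrm hG C Fr hR hS hρ h0 ha he hP h1)
        exact ⟨u, p, (hmem u p).2 h3, h2⟩
    -- the ramified part
    have hram : ∀ P, P ∉ Fr.S → ∀ i, a (T.tau P) i = h8R Fr v x (T.tau P) i := by
      intro P hP i
      rcases htwo P hP with ⟨h1, -, h2⟩ | ⟨u, p, hp, rfl⟩
      · rw [h1, h8R_zero Fr hx hP h2]
        rfl
      · rw [h8R_one Fr hx hp, ((hmem u p).1 hp).2.2.1, Pi.smul_apply, smul_eq_mul, mul_comm]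
    have hy : ∀ i, ∃ y : Fin Fr.U → ZMod l, ∀ σ, a σ i = Fr.un y σ + h8R Fr v x σ i := by
      intro i
      have h1 : Hm fun σ => a σ i + (-1) * h8R Fr v x σ i :=
        h8_add (ha i) (h8_mul (-1) (h8R_hm Fr hx i))
      obtain ⟨y, h2⟩ := Fr.un_ex _ h1 fun P hP => by
        show a (T.tau P) i + (-1) * h8R Fr v x (T.tau P) i = 0
        rw [hram P hP i]
        ring
      refine ⟨y, fun σ => ?_⟩
      rw [← h2]
      ring
    choose y hy using hy
    have haa : ∀ σ, a σ = aa5 Fr v y x σ := by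
      intro σ
      ext i
      rw [h8_aa, hy i σ]
    have haa' : a = aa5 Fr v y x := funext haa
    refine ⟨y, x, c, ⟨hx, ⟨hcl, ?_⟩, fun u p hp => ((hmem u p).1 hp).2.2.2, ?_⟩, ?_⟩
    · rw [← haa']
      exact hcoc
    · intro P hP hN
      rcases htwo P hP with ⟨-, h1, -⟩ | ⟨u, p, hp, hpP⟩
      · exact h1
      · exact absurd hpP (hN u p hp)
    · intro σ
      rw [he, haa]
  · -- the homomorphism of a configuration
    intro ρ y x c hc he
    have hA := h4 C.d ι v y x hc.gd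
    have h1 := (h6 ρ ρ0 hρ0).2 ⟨aa5 Fr v y x, c, hA.1, hc.lft.1, hc.lft.2, he⟩
    have h2 : ∀ u, ∀ p ∈ x u, ∃ t ∈ C.W (v u), ρ (T.tau (Fr.dn p)) =
        C.nn (Fr.al p (T.tau (Fr.dn p)) • v u) (Fr.al p (T.tau (Fr.dn p)) • (z u + t)) := by
      intro u p hp
      obtain ⟨t, ht, hct⟩ := hc.cls u p hp
      refine ⟨t, ht, ?_⟩
      rw [he, h0 _ (Fr.dn_not p), mul_one, (hA.2.1 u p hp).2, hct]
    have h3 : ∀ P, P ∉ Fr.S → Nov Fr x P → ρ (T.tau P) = 1 := by
      intro P hP hN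
      rw [he, h0 P hP, mul_one, hA.2.2.1 P hP hN, hc.off P hP hN, h8_one]
    refine ⟨h1.1, h1.2, fun P hP => ?_, hc.gd, fun _ _ _ => Finset.notMem_empty _, h2,
      fun P hP _ hN => h3 P hP hN⟩
    by_cases hN : Nov Fr x P
    · exact Or.inl (h3 P hP hN)
    · unfold Nov at hN
      push Not at hN
      obtain ⟨u, p, hp, rfl⟩ := hN
      right
      obtain ⟨t, ht, h5⟩ := h2 u p hp
      rw [h5]
      exact h8_smul C hG (h8_cls C hG hw (hC.mem u) ht) (hA.2.1 u p hp).1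
  · -- uniqueness
    intro y x c y' x' c' hc hc' hnn
    have ha : ∀ σ, aa5 Fr v y x σ = aa5 Fr v y' x' σ := fun σ =>
      (C.nn_inj _ _ _ _ (hnn σ)).1
    have hcc : ∀ σ, c σ = c' σ := fun σ => (C.nn_inj _ _ _ _ (hnn σ)).2
    have hxx : x = x' := by
      funext u
      exact Finset.Subset.antisymm (h8_sub hG C Fr h4 hw hC hc hc' ha hcc u)
        (h8_sub hG C Fr h4 hw hC hc' hc (fun σ => (ha σ).symm) (fun σ => (hcc σ).symm) u)
    refine ⟨?_, hxx, funext hcc⟩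
    subst hxx
    funext i
    have h1 : Fr.un (y i - y' i) = fun _ => 0 := by
      funext σ
      have h2 := Fr.un_add (y i - y' i) (y' i) σ
      rw [sub_add_cancel] at h2
      have h3 : Fr.un (y i) σ = Fr.un (y' i) σ := by
        have h4 := congrFun (ha σ) i
        rw [h8_aa, h8_aa] at h4
        exact add_right_cancel h4
      rw [h3] at h2
      exact (left_eq_add.1 (h2.trans (add_comm _ _)))
    exact sub_eq_zero.1 (Fr.un_inj _ h1)

end

end Pool.Agent.H92.T5
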