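import Pool.Agent.H92.T5.GStm

/-!
# Project T5 (MP_a3214d), row T5-H8b: the outer characters of a base homomorphism unramified
outside `S`
-/

set_option autoImplicit false

open scoped BigOperators Topology
open NumberField IsDedekindDomain Filter

namespace Pool.Agent.H92.T5

open Pool.Agent.H98.MF (Om Gm Dec nrm rdN fld)
open Pool.Agent.H92.EL
open Pool.Agent.H92.EL.SysL (VV BD)
open Pool.Agent.TF (HypM Mcl OkM Cg5 HI5 InnF5 InnU5 Inn5)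

section

variable {k : Type} [Field k] [NumberField k] {l : ℕ} [Fact l.Prime] {T : TM k}
variable {G : Type} [Group G] {M : Set G}

/-- the commutator with the neutral element -/
theorem h8b_bp1 (C : Cd5 l G M) (v : VV l C.d) : C.bp 1 v = 0 := by
  have h := C.bp_mul 1 1 v
  rw [mul_one] at h
  have h2 : C.bp 1 v + 0 = C.bp 1 v + C.bp 1 v := by rw [add_zero]; exact h
  exact (add_left_cancel h2).symm

/-- the commutator with an inverse -/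
theorem h8b_bpi (C : Cd5 l G M) (g : G) (v : VV l C.d) : C.bp g⁻¹ v = - C.bp g v := by
  have h := C.bp_mul g⁻¹ g v
  rw [inv_mul_cancel, h8b_bp1] at h
  exact eq_neg_of_add_eq_zero_left h.symm

/-- the elements with vanishing commutator with `v` after applying `ζ` -/
def h8b_K (C : Cd5 l G M) (v : VV l C.d) (ζ : VV l C.n) : Subgroup G where
  carrier := {g | ζ ⬝ᵥ C.bp g v = 0}
  one_mem' := by
    show ζ ⬝ᵥ C.bp 1 v = 0
    rw [h8b_bp1, dotProduct_zero]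
  mul_mem' := by
    intro a b ha hb
    show ζ ⬝ᵥ C.bp (a * b) v = 0
    have ha' : ζ ⬝ᵥ C.bp a v = 0 := ha
    have hb' : ζ ⬝ᵥ C.bp b v = 0 := hb
    rw [C.bp_mul, dotProduct_add, ha', hb', add_zero]
  inv_mem' := by
    intro a ha
    show ζ ⬝ᵥ C.bp a⁻¹ v = 0
    have ha' : ζ ⬝ᵥ C.bp a v = 0 := ha
    rw [h8b_bpi, dotProduct_neg, ha', neg_zero]

/-- the homomorphism of an outer character -/
noncomputable def h8b_h (C : Cd5 l G M) (Fr : FrI k l T.tau T.phi) (ρ0 : Gm k →* G)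
    (y : Fin C.d → Fin Fr.U → ZMod l) (v : VV l C.d) (ζ : VV l C.n) : Gm k → ZMod l :=
  fun σ => ζ ⬝ᵥ (C.bp (ρ0 σ) v + C.Bd.B (fun i => Fr.un (y i) σ) v)

theorem h8b_hm (C : Cd5 l G M) (Fr : FrI k l T.tau T.phi) (ρ0 : Gm k →* G)
    (hρ : IsLocallyConstant ρ0) (y : Fin C.d → Fin Fr.U → ZMod l) (v : VV l C.d)
    (ζ : VV l C.n) : Hm (h8b_h C Fr ρ0 y v ζ) := by
  constructor
  · have h1 : IsLocallyConstant (fun σ : Gm k => fun i : Fin C.d => Fr.un (y i) σ) := by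
      rw [IsLocallyConstant.iff_eventually_eq]
      intro σ
      have h2 : ∀ i : Fin C.d, ∀ᶠ τ in 𝓝 σ, Fr.un (y i) τ = Fr.un (y i) σ := fun i =>
        (IsLocallyConstant.iff_eventually_eq _).1 (Fr.un_hm (y i)).lc σ
      filter_upwards [eventually_all.2 h2] with τ hτ
      funext i
      exact hτ i
    exact IsLocallyConstant.comp₂ hρ h1 (fun g w => ζ ⬝ᵥ (C.bp g v + C.Bd.B w v))
  · intro σ τ
    have h1 : (fun i => Fr.un (y i) (σ * τ)) =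
        (fun i => Fr.un (y i) σ) + (fun i => Fr.un (y i) τ) := by
      funext i
      exact (Fr.un_hm (y i)).add σ τ
    show ζ ⬝ᵥ (C.bp (ρ0 (σ * τ)) v + C.Bd.B (fun i => Fr.un (y i) (σ * τ)) v) =
      ζ ⬝ᵥ (C.bp (ρ0 σ) v + C.Bd.B (fun i => Fr.un (y i) σ) v) +
        ζ ⬝ᵥ (C.bp (ρ0 τ) v + C.Bd.B (fun i => Fr.un (y i) τ) v)
    rw [h1, map_mul, C.bp_mul, map_add, LinearMap.add_apply, ← dotProduct_add]
    congr 1
    abel

theorem h8b_tau (C : Cd5 l G M) (Fr : FrI k l T.tau T.phi) (ρ0 : Gm k →* G)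
    (hu : Unr T Fr.S ρ0) (y : Fin C.d → Fin Fr.U → ZMod l) (v : VV l C.d)
    (ζ : VV l C.n) (P : HeightOneSpectrum (𝓞 k)) (hP : P ∉ Fr.S) :
    h8b_h C Fr ρ0 y v ζ (T.tau P) = 0 := by
  have h1 : (fun i => Fr.un (y i) (T.tau P)) = (0 : VV l C.d) := by
    funext i
    exact Fr.un_tau (y i) P hP
  show ζ ⬝ᵥ (C.bp (ρ0 (T.tau P)) v + C.Bd.B (fun i => Fr.un (y i) (T.tau P)) v) = 0
  rw [h1, hu P hP, h8b_bp1, map_zero, LinearMap.zero_apply, add_zero, dotProduct_zero]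

theorem h8b_cl2 (C : Cd5 l G M) (Fr : FrI k l T.tau T.phi) (ρ0 : Gm k →* G)
    (hρ : IsLocallyConstant ρ0) (hu : Unr T Fr.S ρ0) (y : Fin C.d → Fin Fr.U → ZMod l)
    (v : VV l C.d) (ζ : VV l C.n) : (Fr.cl (h8b_h C Fr ρ0 y v ζ)).2 = 0 := by
  by_contra hne
  obtain ⟨p, hp⟩ := Finsupp.support_nonempty_iff.2 hne
  exact Fr.cl_sup _ (h8b_hm C Fr ρ0 hρ y v ζ) p hp
    (h8b_tau C Fr ρ0 hu y v ζ (Fr.dn p) (Fr.dn_not p))

theorem h8b_cl0 (Fr : FrI k l T.tau T.phi) : Fr.cl (fun _ => 0) = 0 := by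
  have h0 : Hm (fun _ : Gm k => (0 : ZMod l)) :=
    ⟨IsLocallyConstant.const 0, fun _ _ => (add_zero 0).symm⟩
  have h := Fr.cl_add _ _ h0 h0
  have h2 : (fun σ : Gm k => (fun _ : Gm k => (0 : ZMod l)) σ +
      (fun _ : Gm k => (0 : ZMod l)) σ) = fun _ => 0 := by
    funext σ
    exact add_zero 0
  rw [h2] at h
  have h3 : Fr.cl (fun _ => 0) + 0 = Fr.cl (fun _ => 0) + Fr.cl (fun _ => 0) := by
    rw [add_zero]; exact h
  exact (add_left_cancel h3).symm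

/-- the pairing with a dual vector vanishes on the whole group -/
theorem h8b_key (C : Cd5 l G M) (Fr : FrI k l T.tau T.phi) (ρ0 : Gm k →* G)
    {ι : Type} (v : ι → VV l C.d) (y : Fin C.d → Fin Fr.U → ZMod l) (a : VV l C.d)
    (ζ : VV l C.n) (hh : ∀ σ, h8b_h C Fr ρ0 y a ζ σ = 0) (U : Finset ι)
    (hU : gen5 C Fr v ρ0 y U)
    (hw : ∀ w ∈ U, ζ ⬝ᵥ C.Bd.B (v w) a = 0) (g : G) : ζ ⬝ᵥ C.bp g a = 0 := by
  have h1 : Subgroup.closure ({g | ∃ σ, g = C.nn (fun i => Fr.un (y i) σ) 0 * ρ0 σ} ∪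
    {g | ∃ u ∈ U, g = C.nn (v u) 0} ∪ {g | ∃ z, g = C.nn 0 z}) ≤ h8b_K C a ζ := by
    rw [Subgroup.closure_le]
    rintro g ((⟨σ, rfl⟩ | ⟨w, hwU, rfl⟩) | ⟨z, rfl⟩)
    · show ζ ⬝ᵥ C.bp (C.nn (fun i => Fr.un (y i) σ) 0 * ρ0 σ) a = 0
      rw [C.bp_mul, C.bp_nn, add_comm]
      exact hh σ
    · show ζ ⬝ᵥ C.bp (C.nn (v w) 0) a = 0
      rw [C.bp_nn]
      exact hw w hwU
    · show ζ ⬝ᵥ C.bp (C.nn 0 z) a = 0
      rw [C.bp_nn, map_zero, LinearMap.zero_apply, dotProduct_zero]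
  have h2 : (⊤ : Subgroup G) ≤ h8b_K C a ζ := by
    rw [← (hU : Subgroup.closure _ = ⊤)]
    exact h1
  exact h2 (Subgroup.mem_top g)

/-- H8b: the outer characters of a base homomorphism unramified outside `S` -/
theorem sh8b (_hG : HypM l G M) (C : Cd5 l G M) (Fr : FrI k l T.tau T.phi) (hw : SHW) :
    SH8b C Fr := by
  classical
  intro ι _ v ρ0 hρ hu y
  have hoc : ∀ u ζ, oc5 C Fr v ρ0 y u ζ = Fr.cl (h8b_h C Fr ρ0 y (v u) ζ) := fun _ _ => rfl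
  have hcT : oc5 C Fr v ρ0 y = cT5 Fr.sys (fun u ζ => (oc5 C Fr v ρ0 y u ζ).1) := by
    funext u ζ
    exact Prod.ext rfl (h8b_cl2 C Fr ρ0 hρ hu y (v u) ζ)
  refine ⟨fun u ζ => (oc5 C Fr v ρ0 y u ζ).1, hcT, ?_, ?_, ?_, ?_⟩
  · rw [← hcT]
    intro u ζ ζ'
    have h := Fr.cl_add _ _ (h8b_hm C Fr ρ0 hρ y (v u) ζ) (h8b_hm C Fr ρ0 hρ y (v u) ζ')
    have h2 : (fun σ => h8b_h C Fr ρ0 y (v u) ζ σ + h8b_h C Fr ρ0 y (v u) ζ' σ) =
        h8b_h C Fr ρ0 y (v u) (ζ + ζ') := by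
      funext σ
      exact (add_dotProduct ζ ζ' _).symm
    rw [h2] at h
    exact h
  · rw [← hcT]
    intro u ζ hz
    have hB : ∀ w : VV l C.d, ζ ⬝ᵥ C.Bd.B w (v u) = 0 := fun w =>
      hz _ ((hw l G M C (v u)).2.1 w)
    refine ⟨hB, ?_⟩
    have hg : ∀ g : G, ζ ⬝ᵥ C.bp g (v u) = 0 := fun g =>
      hz _ (Submodule.subset_span ⟨g, rfl⟩)
    have hzero : h8b_h C Fr ρ0 y (v u) ζ = fun _ => 0 := by
      funext σ
      show ζ ⬝ᵥ (C.bp (ρ0 σ) (v u) + C.Bd.B (fun i => Fr.un (y i) σ) (v u)) = 0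
      rw [dotProduct_add, hg, hB, add_zero]
    rw [hoc, hzero]
    exact h8b_cl0 Fr
  · rw [← hcT]
    intro U hU u ζ hc hwU z hz
    rw [hoc] at hc
    have hz0 := Fr.cl_inj _ (h8b_hm C Fr ρ0 hρ y (v u) ζ) hc
    have hg : ∀ g : G, ζ ⬝ᵥ C.bp g (v u) = 0 :=
      h8b_key C Fr ρ0 v y (v u) ζ (fun σ => congrFun hz0 σ) U hU hwU
    unfold Cd5.W at hz
    induction hz using Submodule.span_induction with
    | mem z hz =>
      obtain ⟨g, rfl⟩ := hz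
      exact hg g
    | zero => exact dotProduct_zero ζ
    | add a b _ _ ha hb => rw [dotProduct_add, ha, hb, add_zero]
    | smul r a _ ha => rw [dotProduct_smul, ha, smul_zero]
  · rintro ⟨U, hU⟩
    have h1 : Subgroup.closure ({g | ∃ σ, g = C.nn (fun i => Fr.un (y i) σ) 0 * ρ0 σ} ∪
        {g | ∃ u ∈ U, g = C.nn (v u) 0} ∪ {g | ∃ z, g = C.nn 0 z}) ≤
        Subgroup.closure ({g | ∃ σ, g = C.nn (fun i => Fr.un (y i) σ) 0 * ρ0 σ} ∪
        {g | ∃ u ∈ (Finset.univ : Finset ι), g = C.nn (v u) 0} ∪ {g | ∃ z, g = C.nn 0 z}) := by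
      apply Subgroup.closure_mono
      rintro g ((⟨σ, rfl⟩ | ⟨w, hwU, rfl⟩) | ⟨z, rfl⟩)
      · exact Or.inl (Or.inl ⟨σ, rfl⟩)
      · exact Or.inl (Or.inr ⟨w, Finset.mem_univ w, rfl⟩)
      · exact Or.inr ⟨z, rfl⟩
    have h2 : (⊤ : Subgroup G) ≤
        Subgroup.closure ({g | ∃ σ, g = C.nn (fun i => Fr.un (y i) σ) 0 * ρ0 σ} ∪
        {g | ∃ u ∈ (Finset.univ : Finset ι), g = C.nn (v u) 0} ∪ {g | ∃ z, g = C.nn 0 z}) := by
      rw [← (hU : Subgroup.closure _ = ⊤)]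
      exact h1
    exact top_le_iff.1 h2

end

end Pool.Agent.H92.T5
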