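import Pool.Agent.H92.T5.GStm

/-!
# Project T5 (MP_a3214d), odd `l`, row H8c: the number of homomorphisms with a given configuration
satisfying a local condition
-/

set_option autoImplicit false

open scoped BigOperators Topology
open NumberField IsDedekindDomain Filter

namespace Pool.Agent.H92.T5

open Pool.Agent.H98.MF (Om Gm Dec nrm rdN fld)
open Pool.Agent.H92.EL
open Pool.Agent.H92.EL.SysL (VV BD)
open Pool.Agent.TF (HypM Mcl OkM Cg5 HI5 InnF5 InnU5 Inn5)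

/-! ### homomorphisms to `ZMod l` -/

section

variable {k : Type} [Field k] [NumberField k] {l : ℕ}

private theorem h8c_add {h h' : Gm k → ZMod l} (H : Hm h) (H' : Hm h') :
    Hm fun σ => h σ + h' σ := by
  refine ⟨H.lc.comp₂ H'.lc fun x y => x + y, fun σ τ => ?_⟩
  show h (σ * τ) + h' (σ * τ) = (h σ + h' σ) + (h τ + h' τ)
  rw [H.add, H'.add]
  exact add_add_add_comm _ _ _ _

private theorem h8c_smul (c : ZMod l) {h : Gm k → ZMod l} (H : Hm h) : Hm fun σ => c * h σ := by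
  refine ⟨H.lc.comp (fun x => c * x), fun σ τ => ?_⟩
  show c * h (σ * τ) = c * h σ + c * h τ
  rw [H.add, mul_add]

private theorem h8c_sum {ι : Type} (s : Finset ι) (h : ι → Gm k → ZMod l)
    (H : ∀ i ∈ s, Hm (h i)) : Hm fun σ => ∑ i ∈ s, h i σ := by
  classical
  induction s using Finset.induction_on with
  | empty =>
    refine ⟨IsLocallyConstant.const _, fun σ τ => ?_⟩
    simp
  | insert i s hi ih =>
    have h1 := h8c_add (H i (Finset.mem_insert_self i s))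
      (ih fun j hj => H j (Finset.mem_insert_of_mem hj))
    have h2 : (fun σ => ∑ j ∈ insert i s, h j σ) = fun σ => h i σ + ∑ j ∈ s, h j σ := by
      funext σ
      rw [Finset.sum_insert hi]
    rw [h2]
    exact h1

end

section

variable {k : Type} [Field k] [NumberField k] {l : ℕ} [Fact l.Prime] {T : TM k}
  (Fr : FrI k l T.tau T.phi) {ι : Type} [Fintype ι]

private theorem h8c_aa {d : ℕ} (v : ι → VV l d) (y : Fin d → Fin Fr.U → ZMod l)
    {x : ι → Finset Fr.sys.P} (hx : Fr.sys.Gd x) (i : Fin d) : Hm fun σ => aa5 Fr v y x σ i := by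
  refine h8c_add (Fr.un_hm (y i)) (h8c_sum _ _ fun u _ => ?_)
  exact h8c_smul _ (h8c_sum _ _ fun p hp => Fr.al_hm p (hx.1 u p hp))

omit [Fintype ι] in
private theorem h8c_al {x : ι → Finset Fr.sys.P} (hx : Fr.sys.Gd x) {u : ι} {p : Fr.sys.P}
    (hp : p ∈ x u) : Fr.al p (T.tau (Fr.dn p)) ≠ 0 := by
  obtain ⟨g, hg⟩ := (Fr.dn_eq (Fr.bs (Fr.dn p)) p).1 (Fr.bs_dn p)
  rw [Fr.al_self p (hx.1 u p hp) g hg]
  exact mul_ne_zero (Fr.kt_ne _) (Units.ne_zero _)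

variable {G : Type} [Group G] {M : Set G} (C : Cd5 l G M)

/-- twisting a lift by a homomorphism -/
private theorem h8c_lft {v : ι → VV l C.d} {ρ0 : Gm k →* G} {y : Fin C.d → Fin Fr.U → ZMod l}
    {x : ι → Finset Fr.sys.P} {c0 : Gm k → VV l C.n} (h : Lft5 C Fr v ρ0 y x c0)
    {b : Gm k → VV l C.n} (hb : ∀ i, Hm fun σ => b σ i) :
    Lft5 C Fr v ρ0 y x (fun σ => c0 σ + b σ) := by
  have hlb : IsLocallyConstant b := by
    refine (IsLocallyConstant.iff_eventually_eq b).2 fun σ => ?_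
    have h1 : ∀ᶠ τ in 𝓝 σ, ∀ i, b τ i = b σ i :=
      eventually_all.2 fun i => (IsLocallyConstant.iff_eventually_eq _).1 (hb i).lc σ
    exact h1.mono fun τ hτ => funext hτ
  refine ⟨h.1.comp₂ hlb fun x y => x + y, ?_⟩
  intro σ hσ τ hτ
  have hbm : b (σ * τ) = b σ + b τ := funext fun i => (hb i).add σ τ
  show c0 (σ * τ) + b (σ * τ) = (c0 σ + b σ) + (c0 τ + b τ) +
      (2 : ZMod l)⁻¹ • C.Bd.B (aa5 Fr v y x σ) (aa5 Fr v y x τ) + C.bp (ρ0 σ) (aa5 Fr v y x τ)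
  rw [h.2 σ hσ τ hτ, hbm]
  abel

/-- the difference of two lifts -/
private theorem h8c_sub {v : ι → VV l C.d} {ρ0 : Gm k →* G} {y : Fin C.d → Fin Fr.U → ZMod l}
    {x : ι → Finset Fr.sys.P} {c0 c : Gm k → VV l C.n} (h0 : Lft5 C Fr v ρ0 y x c0)
    (h : Lft5 C Fr v ρ0 y x c) (i : Fin C.n) : Hm fun σ => (c σ - c0 σ) i := by
  refine ⟨(h.1.sub h0.1).comp (fun v : VV l C.n => v i), ?_⟩
  intro σ τ
  have e1 := h.2 σ (Subgroup.mem_top _) τ (Subgroup.mem_top _)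
  have e2 := h0.2 σ (Subgroup.mem_top _) τ (Subgroup.mem_top _)
  show (c (σ * τ) - c0 (σ * τ)) i = (c σ - c0 σ) i + (c τ - c0 τ) i
  rw [e1, e2]
  simp only [Pi.sub_apply, Pi.add_apply]
  ring

end

/-! ### the main step: one configuration -/

section

variable {k : Type} [Field k] [NumberField k] {l : ℕ} [Fact l.Prime] {T : TM k}
  (Fr : FrI k l T.tau T.phi) {ι : Type} [Fintype ι] {G : Type} [Group G] {M : Set G}
  (C : Cd5 l G M)

open Classical in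
/-- the number of homomorphisms with a given configuration -/
private theorem h8c_main (h5 : SH5 Fr) (h6b : SH6b k C) {v : ι → VV l C.d} {z : ι → VV l C.n}
    {ρ0 : Gm k →* G} (h0 : IsLocallyConstant ρ0) {H : (Gm k →* G) → Prop} (hH : HLo Fr.S H)
    {y : Fin C.d → Fin Fr.U → ZMod l} {x : ι → Finset Fr.sys.P} (hx : Fr.sys.Gd x)
    {c0 : Gm k → VV l C.n} (hL : Lft5 C Fr v ρ0 y x c0)
    (hz : ∀ P, P ∉ Fr.S → c0 (T.tau P) = 0)
    (hfin : (Zc (fun u => C.W (v u)) z x).Finite) (g : (Fin C.n → Fr.sys.T) → ℝ)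
    (hg : ∀ t, ∀ ρu : (Fin C.n → Fin Fr.U → ZMod l) → (Gm k →* G),
      (∀ u σ, ρu u σ = C.nn (aa5 Fr v y x σ)
        (c0 σ + fun i => Fr.un (u i) σ + Fr.lam (t i) σ) * ρ0 σ) →
        ((Finset.univ.filter fun u => H (ρu u)).card : ℝ) = g t * ((l : ℝ) ^ Fr.U) ^ C.n) :
    (HX C Fr v z ρ0 H y x).Finite ∧ (((HX C Fr v z ρ0 H y x).ncard : ℕ) : ℝ) =
      ((l : ℝ) ^ Fr.U) ^ C.n * ∑ ζ ∈ hfin.toFinset, g (tz5 Fr.sys x ζ) := by
  obtain ⟨h51, h52⟩ := h5 C.n ι x hx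
  -- the homomorphism of a cochain
  have hex : ∀ b : Gm k → VV l C.n, (∀ i, Hm fun σ => b σ i) → ∃ ρ : Gm k →* G,
      IsLocallyConstant ρ ∧ ∀ σ, ρ σ = C.nn (aa5 Fr v y x σ) (c0 σ + b σ) * ρ0 σ := by
    intro b hb
    have h1 := h8c_lft Fr C hL hb
    exact h6b ρ0 (aa5 Fr v y x) _ h0 (h8c_aa Fr v y hx) h1.1 h1.2
  have hex2 : ∀ (ζ : Fr.sys.P → VV l C.n) (u' : Fin C.n → Fin Fr.U → ZMod l),
      ∃ ρ : Gm k →* G, ∀ σ, ρ σ =
        C.nn (aa5 Fr v y x σ) (c0 σ + cz5 Fr x u' ζ σ) * ρ0 σ := by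
    intro ζ u'
    obtain ⟨ρ, -, h⟩ := hex _ (h51 u' ζ).1
    exact ⟨ρ, h⟩
  choose Ψ hΨ using hex2
  have hb : ∀ (t : Fin C.n → Fr.sys.T) (u' : Fin C.n → Fin Fr.U → ZMod l), ∀ i, Hm fun σ =>
      (fun (σ : Gm k) (i : Fin C.n) => Fr.un (u' i) σ + Fr.lam (t i) σ) σ i :=
    fun t u' i => h8c_add (Fr.un_hm (u' i)) (Fr.lam_hm (t i))
  have hex3 : ∀ (t : Fin C.n → Fr.sys.T) (u' : Fin C.n → Fin Fr.U → ZMod l),
      ∃ ρ : Gm k →* G, ∀ σ, ρ σ = C.nn (aa5 Fr v y x σ)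
        (c0 σ + fun i => Fr.un (u' i) σ + Fr.lam (t i) σ) * ρ0 σ := by
    intro t u'
    obtain ⟨ρ, -, h⟩ := hex _ (hb t u')
    exact ⟨ρ, h⟩
  choose ρu hρu using hex3
  -- the count for one choice of central elements
  have hcnt : ∀ ζ : Fr.sys.P → VV l C.n, ((Finset.univ.filter fun u' => H (Ψ ζ u')).card : ℝ) =
      g (tz5 Fr.sys x ζ) * ((l : ℝ) ^ Fr.U) ^ C.n := by
    intro ζ
    rw [← hg (tz5 Fr.sys x ζ) (ρu (tz5 Fr.sys x ζ)) (hρu _)]
    have hloc : ∀ u', ∀ P ∈ Fr.S, ∀ σ ∈ Dec P, Ψ ζ u' σ = ρu (tz5 Fr.sys x ζ) u' σ := by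
      intro u' P hP σ hσ
      rw [hΨ, hρu]
      have e : cz5 Fr x u' ζ σ = fun i => Fr.un (u' i) σ + Fr.lam (tz5 Fr.sys x ζ i) σ :=
        funext fun i => (h51 u' ζ).2.2.2 P hP σ hσ i
      rw [e]
    have hiff : ∀ u', H (Ψ ζ u') ↔ H (ρu (tz5 Fr.sys x ζ) u') := fun u' =>
      ⟨hH _ _ (hloc u'), hH _ _ fun P hP σ hσ => (hloc u' P hP σ hσ).symm⟩
    have hf : (Finset.univ.filter fun u' => H (Ψ ζ u')) =
        Finset.univ.filter fun u' => H (ρu (tz5 Fr.sys x ζ) u') := by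
      ext u'
      rw [Finset.mem_filter, Finset.mem_filter, hiff u']
    rw [hf]
  -- the finite set of the data
  let D : Finset (Σ _ : Fr.sys.P → VV l C.n, Fin C.n → Fin Fr.U → ZMod l) :=
    hfin.toFinset.sigma fun ζ => Finset.univ.filter fun u' => H (Ψ ζ u')
  let Φ : (Σ _ : Fr.sys.P → VV l C.n, Fin C.n → Fin Fr.U → ZMod l) → (Gm k →* G) :=
    fun w => Ψ w.1 w.2
  have hmem : ∀ w, w ∈ D ↔ w.1 ∈ Zc (fun u => C.W (v u)) z x ∧ H (Ψ w.1 w.2) := by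
    intro w
    simp only [D, Finset.mem_sigma, Set.Finite.mem_toFinset, Finset.mem_filter,
      Finset.mem_univ, true_and]
  have hset : HX C Fr v z ρ0 H y x = Φ '' (D : Set _) := by
    ext ρ
    constructor
    · rintro ⟨hHρ, c, hc, hval⟩
      have hh := h8c_sub Fr C hL hc.lft
      have hv : ∀ P, P ∉ Fr.S → Nov Fr x P → (fun σ => c σ - c0 σ) (T.tau P) = 0 := by
        intro P hP hN
        show c (T.tau P) - c0 (T.tau P) = 0
        rw [hc.off P hP hN, hz P hP, sub_zero]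
      obtain ⟨w, ⟨hw1, hw2⟩, -⟩ := h52 (fun σ => c σ - c0 σ) hh hv
      obtain ⟨u', ζ⟩ := w
      dsimp only at hw1 hw2
      have hρ : Ψ ζ u' = ρ := by
        ext σ
        rw [hΨ, hval σ, ← hw2 σ, add_sub_cancel]
      refine ⟨⟨ζ, u'⟩, Finset.mem_coe.2 ((hmem _).2 ⟨⟨?_, ?_⟩, ?_⟩), hρ⟩
      · intro u p hp
        obtain ⟨t, ht, hct⟩ := hc.cls u p hp
        have e1 := (h51 u' ζ).2.1 u p hp
        rw [← hw2, hct, hz _ (Fr.dn_not p), sub_zero] at e1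
        have e2 : z u + t = ζ p := smul_right_injective _ (h8c_al Fr hx hp) e1
        show ζ p - z u ∈ C.W (v u)
        rw [← e2, add_sub_cancel_left]
        exact ht
      · exact hw1
      · show H (Ψ ζ u')
        rw [hρ]
        exact hHρ
    · rintro ⟨⟨ζ, u'⟩, hw, rfl⟩
      obtain ⟨⟨hz1, hz2⟩, hHw⟩ := (hmem _).1 (Finset.mem_coe.1 hw)
      dsimp only at hz1 hz2 hHw
      refine ⟨hHw, fun σ => c0 σ + cz5 Fr x u' ζ σ, ⟨hx, h8c_lft Fr C hL (h51 u' ζ).1, ?_, ?_⟩,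
        fun σ => hΨ ζ u' σ⟩
      · intro u p hp
        refine ⟨ζ p - z u, hz1 u p hp, ?_⟩
        show c0 (T.tau (Fr.dn p)) + cz5 Fr x u' ζ (T.tau (Fr.dn p)) = _
        rw [hz _ (Fr.dn_not p), zero_add, (h51 u' ζ).2.1 u p hp, add_sub_cancel]
      · intro P hP hN
        show c0 (T.tau P) + cz5 Fr x u' ζ (T.tau P) = 0
        rw [hz P hP, (h51 u' ζ).2.2.1 P hP hN, zero_add]
  have hinj : Set.InjOn Φ (D : Set _) := by
    rintro ⟨ζ1, u1⟩ hw1 ⟨ζ2, u2⟩ hw2 h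
    obtain ⟨a1, -⟩ := (hmem _).1 (Finset.mem_coe.1 hw1)
    obtain ⟨a2, -⟩ := (hmem _).1 (Finset.mem_coe.1 hw2)
    dsimp only at a1 a2
    have h' : Ψ ζ1 u1 = Ψ ζ2 u2 := h
    have h3 : ∀ σ, cz5 Fr x u1 ζ1 σ = cz5 Fr x u2 ζ2 σ := by
      intro σ
      have h4 := congrArg (fun ρ : Gm k →* G => ρ σ) h'
      simp only [hΨ] at h4
      exact add_left_cancel (C.nn_inj _ _ _ _ (mul_right_cancel h4)).2
    obtain ⟨w, -, hw⟩ := h52 (cz5 Fr x u1 ζ1) (h51 u1 ζ1).1 (h51 u1 ζ1).2.2.1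
    have e1 := hw (u1, ζ1) ⟨a1.2, fun σ => rfl⟩
    have e2 := hw (u2, ζ2) ⟨a2.2, h3⟩
    have e3 : (u1, ζ1) = (u2, ζ2) := e1.trans e2.symm
    rw [Prod.mk.injEq] at e3
    rw [e3.1, e3.2]
  refine ⟨hset ▸ (D.finite_toSet.image Φ), ?_⟩
  rw [hset, hinj.ncard_image, Set.ncard_coe_finset, Finset.card_sigma, Nat.cast_sum,
    Finset.mul_sum]
  refine Finset.sum_congr rfl fun ζ _ => ?_
  rw [hcnt ζ, mul_comm]

end

/-- H8c: the count for one configuration -/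
theorem sh8c {k : Type} [Field k] [NumberField k] {l : ℕ} [Fact l.Prime] {T : TM k}
    {G : Type} [Group G] {M : Set G} (_hl : l ≠ 2) (_hG : HypM l G M) (C : Cd5 l G M)
    (Fr : FrI k l T.tau T.phi) (h5 : SH5 Fr) (h6b : SH6b k C) (h7 : SH7 C Fr)
    (h8r : SH8r C Fr) (h8g : SH8g C Fr) (ht : SH8t) : SH8c C Fr := by
  classical
  intro ι _ v z _ hC ρ0 h0 hu H hH
  have hch : ∀ (y : Fin C.d → Fin Fr.U → ZMod l) (x : ι → Finset Fr.sys.P),
      ∃ c0 : Gm k → VV l C.n, Fr.sys.Gd x → (∃ c, Lft5 C Fr v ρ0 y x c) →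
        Lft5 C Fr v ρ0 y x c0 ∧ ∀ P, P ∉ Fr.S → c0 (T.tau P) = 0 := by
    intro y x
    by_cases h : Fr.sys.Gd x ∧ ∃ c, Lft5 C Fr v ρ0 y x c
    · obtain ⟨c, hc⟩ := h8r ι v hC ρ0 h0 hu y x h.1 h.2
      exact ⟨c, fun _ _ => hc⟩
    · exact ⟨0, fun h1 h2 => absurd ⟨h1, h2⟩ h⟩
  choose c0 hc0 using hch
  obtain ⟨g, θ, hg1, hg2, hg3, hg4, hg5, hg6⟩ := h8g ι v hC ρ0 h0 hu H hH c0
    (fun y x hx hL => (hc0 y x hx hL).1)
  have hl0 : (0 : ℝ) < l := by exact_mod_cast (Fact.out : l.Prime).pos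
  refine ⟨fun y t => min (θ y t) 1, fun y t => ⟨le_min (hg2 y t) zero_le_one, min_le_right _ _⟩,
    fun h => lt_min (hg4 h) one_pos, fun y x hx => ?_⟩
  obtain ⟨t1, t2, t3⟩ := ht l Fr.sys C.n ι (fun u => C.W (v u)) z x hx
  have hnW : 0 ≤ nW (fun u => C.W (v u)) x := by
    unfold nW
    exact Finset.prod_nonneg fun u _ => pow_nonneg (Nat.cast_nonneg _) _
  by_cases hL : ∃ c, Lft5 C Fr v ρ0 y x c
  · obtain ⟨hL0, hz0⟩ := hc0 y x hx hL
    have hok : okc5 C.Bd v (oc5 C Fr v ρ0 y) x :=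
      ((h7 ι v hC ρ0 h0 hu y x hx).1 hL).2
    obtain ⟨m1, m2⟩ := h8c_main Fr C h5 h6b h0 hH hx hL0 hz0 t1 (g y x)
      (fun t ρu hρu => hg6 y x t hx hL ρu hρu)
    refine ⟨m1, ?_, fun h => absurd hok h, fun _ hful => ?_⟩
    · rw [m2, ← t2]
      refine mul_le_mul_of_nonneg_left ?_ (by positivity)
      have e1 : ∑ ζ ∈ t1.toFinset, g y x (tz5 Fr.sys x ζ) ≤ ∑ ζ ∈ t1.toFinset, (1 : ℝ) :=
        Finset.sum_le_sum fun ζ _ => (hg1 y x _).2
      refine e1.trans (le_of_eq ?_)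
      rw [Finset.sum_const, nsmul_eq_mul, mul_one, Set.ncard_eq_toFinset_card _ t1]
    · rw [m2]
      congr 1
      have hT : (0 : ℝ) < ((l : ℝ) ^ Fr.sys.m) ^ C.n := by positivity
      have e1 : ∑ ζ ∈ t1.toFinset, g y x (tz5 Fr.sys x ζ) =
          ∑ t : Fin C.n → Fr.sys.T, (nW (fun u => C.W (v u)) x / ((l : ℝ) ^ Fr.sys.m) ^ C.n) *
            g y x t := by
        rw [← Finset.sum_fiberwise_of_maps_to (s := t1.toFinset)
          (t := (Finset.univ : Finset (Fin C.n → Fr.sys.T)))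
          (g := fun ζ => tz5 Fr.sys x ζ) (fun ζ _ => Finset.mem_univ _)]
        refine Finset.sum_congr rfl fun t _ => ?_
        have e2 : ∑ ζ ∈ t1.toFinset.filter (fun ζ => tz5 Fr.sys x ζ = t),
            g y x (tz5 Fr.sys x ζ) =
            ∑ ζ ∈ t1.toFinset.filter (fun ζ => tz5 Fr.sys x ζ = t), g y x t := by
          refine Finset.sum_congr rfl fun ζ hζ => ?_
          rw [(Finset.mem_filter.1 hζ).2]
        rw [e2, Finset.sum_const, nsmul_eq_mul]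
        congr 1
        rw [eq_div_iff hT.ne', ← t3 hful t]
        congr 2
        have e3 : {ζ ∈ Zc (fun u => C.W (v u)) z x | tz5 Fr.sys x ζ = t} =
            ((t1.toFinset.filter (fun ζ => tz5 Fr.sys x ζ = t) :
              Finset (Fr.sys.P → VV l C.n)) : Set (Fr.sys.P → VV l C.n)) := by
          ext ζ
          rw [Set.mem_ofPred_eq, Finset.mem_coe, Finset.mem_filter, Set.Finite.mem_toFinset]
        rw [e3, Set.ncard_coe_finset]
      have e4 := hg3 y x hx hok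
      have e5 : ∑ t : Fin C.n → Fr.sys.T, g y x t ≤ ((l : ℝ) ^ Fr.sys.m) ^ C.n := by
        have e6 : ∑ t : Fin C.n → Fr.sys.T, g y x t ≤ ∑ _t : Fin C.n → Fr.sys.T, (1 : ℝ) :=
          Finset.sum_le_sum fun t _ => (hg1 y x t).2
        refine e6.trans (le_of_eq ?_)
        rw [Finset.sum_const, nsmul_eq_mul, mul_one, Finset.card_univ]
        have e7 : Fintype.card (Fin C.n → Fr.sys.T) = (l ^ Fr.sys.m) ^ C.n := by
          show Fintype.card (Fin C.n → Fin Fr.sys.m → ZMod l) = _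
          rw [Fintype.card_pi_const, Fintype.card_pi_const, ZMod.card]
        rw [e7]
        push_cast
        rfl
      have e8 : θ y (fun u => Fr.sys.tys (x u)) ≤ 1 := by
        rw [← e4, one_div, inv_mul_le_iff₀ hT, mul_one]
        exact e5
      show ∑ ζ ∈ t1.toFinset, g y x (tz5 Fr.sys x ζ) =
        min (θ y (fun u => Fr.sys.tys (x u))) 1 * nW (fun u => C.W (v u)) x
      rw [e1, ← Finset.mul_sum, min_eq_left e8, ← e4]
      field_simp
  · have hemp : HX C Fr v z ρ0 H y x = ∅ := by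
      rw [Set.eq_empty_iff_forall_notMem]
      rintro ρ ⟨-, c, hc, -⟩
      exact hL ⟨c, hc.lft⟩
    refine ⟨hemp ▸ Set.finite_empty, ?_, fun _ => hemp, fun hok _ => ?_⟩
    · rw [hemp, Set.ncard_empty, Nat.cast_zero]
      positivity
    · have e1 := hg3 y x hx hok
      have e2 : ∑ t : Fin C.n → Fr.sys.T, g y x t = 0 :=
        Finset.sum_eq_zero fun t _ => hg5 y x t fun h => hL h.2
      rw [e2, mul_zero] at e1
      show (((HX C Fr v z ρ0 H y x).ncard : ℕ) : ℝ) = ((l : ℝ) ^ Fr.U) ^ C.n *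
        (min (θ y (fun u => Fr.sys.tys (x u))) 1 * nW (fun u => C.W (v u)) x)
      rw [← e1, hemp, Set.ncard_empty, Nat.cast_zero, min_eq_left zero_le_one, zero_mul, mul_zero]

end Pool.Agent.H92.T5
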