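import Pool.Agent.H92.T5.GStm

/-!
# Project T5 (MP_a3214d), row H8n: the product of the norms of the ramified primes
-/

set_option autoImplicit false

open scoped BigOperators Topology
open NumberField IsDedekindDomain Filter

namespace Pool.Agent.H92.T5

open Pool.Agent.H98.MF (Om Gm Dec nrm rdN fld)
open Pool.Agent.H92.EL
open Pool.Agent.H92.EL.SysL (VV BD)
open Pool.Agent.TF (HypM Mcl OkM Cg5 HI5 InnF5 InnU5 Inn5)

/-! ### the group -/

section

variable {l : ℕ} [Fact l.Prime] {G : Type} [Group G] {M : Set G} (C : Cd5 l G M)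

private theorem h8n_one : C.nn 0 0 = 1 := by
  have h := C.nn_mul 0 0 0 0
  rw [map_zero, smul_zero, add_zero, add_zero, add_zero] at h
  exact mul_eq_left.1 h

private theorem h8n_pow (w : VV l C.d) (y : VV l C.n) (j : ℕ) :
    (C.nn w y) ^ j = C.nn ((j : ZMod l) • w) ((j : ZMod l) • y) := by
  induction j with
  | zero => rw [pow_zero, Nat.cast_zero, zero_smul, zero_smul, h8n_one]
  | succ j ih =>
    rw [pow_succ, ih, C.nn_mul, map_smul, LinearMap.smul_apply, C.Bd.alt, smul_zero, smul_zero,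
      add_zero, Nat.cast_succ, add_smul, one_smul, add_smul, one_smul]

private theorem h8n_smul (hG : HypM l G M) {w : VV l C.d} {y : VV l C.n} (h : C.nn w y ∈ M)
    {a : ZMod l} (ha : a ≠ 0) : C.nn (a • w) (a • y) ∈ M := by
  have h1 := hG.pow _ h a.val (fun hd => ha (by
    have h2 := (ZMod.natCast_eq_zero_iff a.val l).2 hd
    rwa [ZMod.natCast_zmod_val] at h2))
  rw [h8n_pow, ZMod.natCast_zmod_val] at h1
  exact h1

private theorem h8n_cls (hG : HypM l G M) (hw : SHW) {w : VV l C.d} {y : VV l C.n}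
    (h : C.nn w y ∈ M) {t : VV l C.n} (ht : t ∈ C.W w) : C.nn w (y + t) ∈ M := by
  obtain ⟨g, rfl⟩ := ((hw l G M C w).1 t).1 ht
  rw [← C.bp_conj]
  exact hG.conj g _ h

end

section

variable {k : Type} [Field k] [NumberField k] {l : ℕ} [Fact l.Prime] {T : TM k}

private theorem h8n_al_ne (Fr : FrI k l T.tau T.phi) {p : Fr.sys.P} (hp : Fr.sys.rg p) :
    Fr.al p (T.tau (Fr.dn p)) ≠ 0 := by
  obtain ⟨g, hg⟩ := (Fr.dn_eq _ _).1 (Fr.bs_dn p)
  rw [Fr.al_self p hp g hg]
  exact mul_ne_zero (Fr.kt_ne _) (Units.ne_zero _)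

variable {G : Type} [Group G] {M : Set G}

/-- H8n: the product of the norms of the ramified primes -/
theorem sh8n (hG : HypM l G M) (C : Cd5 l G M) (Fr : FrI k l T.tau T.phi) (hw : SHW) :
    SH8n C Fr := by
  classical
  intro ι _ v z hC A ρ x hR
  obtain ⟨hgd, hA, hρ, hoff⟩ := hR
  have hne : ∀ u, ∀ p ∈ x u, ρ (T.tau (Fr.dn p)) ≠ 1 := by
    intro u p hp h1
    obtain ⟨t, ht, h2⟩ := hρ u p hp
    have h3 := h8n_smul C hG (h8n_cls C hG hw (hC.mem u) ht) (h8n_al_ne Fr (hgd.1 u p hp))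
    rw [← h2, h1] at h3
    exact hG.one h3
  have hset : {P : HeightOneSpectrum (𝓞 k) | P ∉ Fr.S ∪ A ∧ ρ (T.tau P) ≠ 1} =
      (((Finset.univ.biUnion x).image Fr.dn : Finset (HeightOneSpectrum (𝓞 k))) :
        Set (HeightOneSpectrum (𝓞 k))) := by
    ext P
    rw [Set.mem_ofPred_eq, Finset.mem_coe, Finset.mem_image, Finset.mem_union, not_or]
    constructor
    · rintro ⟨⟨hS, hPA⟩, hP1⟩
      by_contra hn
      push Not at hn
      exact hP1 (hoff P hS hPA fun u p hp =>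
        hn p (Finset.mem_biUnion.2 ⟨u, Finset.mem_univ u, hp⟩))
    · rintro ⟨p, hp, rfl⟩
      obtain ⟨u, -, hu⟩ := Finset.mem_biUnion.1 hp
      exact ⟨⟨Fr.dn_not p, hA u p hu⟩, hne u p hu⟩
  have hinj : ∀ p ∈ Finset.univ.biUnion x, ∀ q ∈ Finset.univ.biUnion x,
      Fr.dn p = Fr.dn q → p = q := by
    intro p hp q hq h
    obtain ⟨u, -, hu⟩ := Finset.mem_biUnion.1 hp
    obtain ⟨w, -, hw'⟩ := Finset.mem_biUnion.1 hq
    obtain ⟨g, hg⟩ := (Fr.dn_eq p q).1 h
    exact (hgd.2 u w p hu q hw' g hg).2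
  have hdis : (↑(Finset.univ : Finset ι) : Set ι).PairwiseDisjoint x := by
    intro u _ w _ huw
    refine Finset.disjoint_left.2 fun p hp hq => huw ?_
    exact (hgd.2 u w p hp p hq 1 (Fr.sys.ac_one p)).1
  unfold nO
  rw [hset, finprod_mem_coe_finset, Finset.prod_image hinj, Finset.prod_biUnion hdis]
  refine Finset.prod_congr rfl fun u _ => ?_
  unfold Pool.Agent.H98.MF.Pre.nm
  exact Finset.prod_congr rfl fun p hp => (Fr.N_eq p (hgd.1 u p hp)).symm

end

end Pool.Agent.H92.T5
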