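import Pool.Agent.H92.T5.GStm
import Pool.Agent.H92.EL.G1

/-!
# Project T5 (MP_a3214d): coordinates of the subgroup generated by `M`

The subgroup `N` generated by `M` is a vector space for the sum `a * b * [a, b] ^ ((l - 1) / 2)`.
-/

set_option autoImplicit false

open scoped BigOperators

namespace Pool.Agent.H92.T5

open Pool.Agent.H92.EL
open Pool.Agent.H92.EL.SysL (VV BD)
open Pool.Agent.H92.EL.G1 (kom cen_comm mul_eq_kom kom_swap kom_self kom_one_left kom_one_right
  kom_mul_left kom_mul_right kom_cen_left kom_cen_right kom_pow_left mul_pow_kom dvd_choose_two)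
open Pool.Agent.TF (HypM)

namespace HCd

/-- odd primes, groups of exponent `l` in the second center -/
class Hy (l : ℕ) (G : Type) [Group G] (N : Subgroup G) : Prop where
  pr : l.Prime
  ne : l ≠ 2
  nor : N.Normal
  zt : ∀ a ∈ N, a ∈ Subgroup.upperCentralSeries G 2
  ex : ∀ a ∈ N, a ^ l = 1

section

variable {l : ℕ} {G : Type} [Group G]

theorem kom_cen {a : G} (ha : a ∈ Subgroup.upperCentralSeries G 2) (g : G) :
    kom a g ∈ Subgroup.center G := by
  have h3 := (Subgroup.mem_upperCentralSeries_succ_iff (n := 1)).1 ha g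
  rwa [Subgroup.upperCentralSeries_one] at h3

theorem hy_of (l : ℕ) (hl : l.Prime) (h2 : l ≠ 2) (M : Set G) (h : HypM l G M) :
    Hy l G (Subgroup.closure M) := by
  have hz : ∀ a ∈ Subgroup.closure M, a ∈ Subgroup.upperCentralSeries G 2 := by
    intro a ha
    exact (Subgroup.closure_le (Subgroup.upperCentralSeries G 2)).2 h.z2 ha
  refine ⟨hl, h2, ⟨?_⟩, hz, ?_⟩
  · intro n hn g
    induction hn using Subgroup.closure_induction with
    | mem x hx => exact Subgroup.subset_closure (h.conj g x hx)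
    | one => rw [mul_one, mul_inv_cancel]; exact one_mem _
    | mul x y _ _ hx hy =>
      have h3 : g * (x * y) * g⁻¹ = (g * x * g⁻¹) * (g * y * g⁻¹) := by group
      rw [h3]
      exact mul_mem hx hy
    | inv x _ hx =>
      have h3 : g * x⁻¹ * g⁻¹ = (g * x * g⁻¹)⁻¹ := by group
      rw [h3]
      exact inv_mem hx
  · intro a ha
    induction ha using Subgroup.closure_induction with
    | mem x hx => exact h.ord x hx
    | one => exact one_pow l
    | mul x y hx hy hx1 hy1 =>
      have hc : kom y x ∈ Subgroup.center G := kom_cen (hz y hy) x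
      rw [mul_pow_kom hc, hx1, hy1]
      obtain ⟨k, hk⟩ := dvd_choose_two hl h2
      rw [hk, pow_mul, ← kom_pow_left hc, hy1, kom_one_left]
      simp
    | inv x _ hx => rw [inv_pow, hx, inv_one]

end

/-- the elements of `N` -/
def AA (l : ℕ) {G : Type} [Group G] (N : Subgroup G) : Type := {g : G // g ∈ N ∧ l = l}

section AA

variable {l : ℕ} {G : Type} [Group G] {N : Subgroup G} [hy : Hy l G N]

omit hy in
theorem ext' {a b : AA l N} (h : a.1 = b.1) : a = b := Subtype.ext h

omit hy in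
theorem mm (a : AA l N) : a.1 ∈ N := a.2.1

theorem kc (a : AA l N) (g : G) : kom a.1 g ∈ Subgroup.center G := kom_cen (hy.zt _ (mm a)) g

theorem al (a : AA l N) : a.1 ^ l = 1 := hy.ex _ (mm a)

theorem kl (a : AA l N) (g : G) : kom a.1 g ^ l = 1 := by
  rw [← kom_pow_left (kc a g), al, kom_one_left]

theorem km (a : AA l N) (g : G) : kom a.1 g ∈ N := by
  have h1 : kom a.1 g = a.1 * (g * a.1⁻¹ * g⁻¹) := by unfold kom; group
  rw [h1]
  have := hy.nor
  exact mul_mem (mm a) (this.conj_mem _ (inv_mem (mm a)) g)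

omit hy in
theorem two_half (hy : Hy l G N) : 2 * ((l - 1) / 2) + 1 = l := by
  have h1 := hy.pr.eq_two_or_odd
  have h2 := hy.ne
  have h3 := hy.pr.two_le
  omega

theorem kcp (a : AA l N) (g : G) (m : ℕ) : kom a.1 g ^ m ∈ Subgroup.center G :=
  Subgroup.pow_mem _ (kc a g) m

/-- the sum -/
def ad (a b : AA l N) : AA l N :=
  ⟨a.1 * b.1 * kom a.1 b.1 ^ ((l - 1) / 2),
    mul_mem (mul_mem (mm a) (mm b)) (pow_mem (km a b.1) _), rfl⟩

theorem ad_val (a b : AA l N) : (ad a b).1 = a.1 * b.1 * kom a.1 b.1 ^ ((l - 1) / 2) := rfl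

theorem kom_ad (a b : AA l N) (g : G) : kom (ad a b).1 g = kom a.1 g * kom b.1 g := by
  have h1 : kom (kom a.1 b.1 ^ ((l - 1) / 2)) g = 1 := kom_cen_left (kcp a b.1 _) g
  rw [ad_val, kom_mul_left _ _ _ (by rw [h1]; exact one_mem _), h1, mul_one,
    kom_mul_left _ _ _ (kc b g)]

theorem kom_ad' (a b : AA l N) (g : G) : kom g (ad a b).1 = kom g a.1 * kom g b.1 := by
  rw [kom_swap (ad a b).1 g, kom_ad, kom_swap a.1 g, kom_swap b.1 g, mul_inv_rev]
  rw [← Subgroup.mem_center_iff.1 (Subgroup.inv_mem _ (kc a g)) (kom b.1 g)⁻¹]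

theorem ad_comm (a b : AA l N) : ad a b = ad b a := by
  apply ext'
  rw [ad_val, ad_val, mul_eq_kom a.1 b.1, kom_swap a.1 b.1]
  have h1 : kom a.1 b.1 * (b.1 * a.1) * kom a.1 b.1 ^ ((l - 1) / 2) =
      b.1 * a.1 * kom a.1 b.1 ^ ((l - 1) / 2 + 1) := by
    rw [cen_comm (kc a b.1), mul_assoc, ← pow_succ']
  rw [h1]
  congr 1
  rw [inv_pow, eq_inv_iff_mul_eq_one, ← pow_add]
  have := two_half hy
  have h2 : (l - 1) / 2 + 1 + (l - 1) / 2 = l := by omega
  rw [h2, kl]

theorem ad_assoc (a b c : AA l N) : ad (ad a b) c = ad a (ad b c) := by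
  apply ext'
  rw [ad_val (ad a b) c, kom_ad, ad_val a (ad b c), kom_ad', ad_val, ad_val]
  set h := (l - 1) / 2
  have e1 := kcp a b.1 h
  have e2 := kcp b c.1 h
  have e3 := kc a c.1
  have e4 := kc b c.1
  have e5 := kc a b.1
  have c1 : Commute (kom a.1 c.1) (kom b.1 c.1) := cen_comm e3 _
  have c2 : Commute (kom a.1 b.1) (kom a.1 c.1) := cen_comm e5 _
  rw [c1.mul_pow, c2.mul_pow]
  have e6 := kcp a c.1 h
  calc a.1 * b.1 * kom a.1 b.1 ^ h * c.1 * (kom a.1 c.1 ^ h * kom b.1 c.1 ^ h)
      = a.1 * b.1 * (kom a.1 b.1 ^ h * c.1) * (kom a.1 c.1 ^ h * kom b.1 c.1 ^ h) := by group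
    _ = a.1 * b.1 * (c.1 * kom a.1 b.1 ^ h) * (kom a.1 c.1 ^ h * kom b.1 c.1 ^ h) := by
        rw [cen_comm e1]
    _ = a.1 * b.1 * c.1 * (kom a.1 b.1 ^ h * kom a.1 c.1 ^ h * kom b.1 c.1 ^ h) := by group
    _ = a.1 * b.1 * c.1 * (kom b.1 c.1 ^ h * (kom a.1 b.1 ^ h * kom a.1 c.1 ^ h)) := by
        rw [cen_comm e2]
    _ = a.1 * (b.1 * c.1 * kom b.1 c.1 ^ h) * (kom a.1 b.1 ^ h * kom a.1 c.1 ^ h) := by group

instance : Zero (AA l N) := ⟨⟨1, one_mem _, rfl⟩⟩
instance : Add (AA l N) := ⟨ad⟩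
instance : Neg (AA l N) := ⟨fun a => ⟨a.1⁻¹, inv_mem (mm a), rfl⟩⟩

theorem add_val (a b : AA l N) : (a + b).1 = a.1 * b.1 * kom a.1 b.1 ^ ((l - 1) / 2) := rfl
omit hy in
theorem zero_val : (0 : AA l N).1 = 1 := rfl
omit hy in
theorem neg_val (a : AA l N) : (-a).1 = a.1⁻¹ := rfl

instance : AddCommGroup (AA l N) where
  add_assoc := ad_assoc
  zero_add a := by
    apply ext'; rw [add_val, zero_val, kom_one_left]; simp
  add_zero a := by
    apply ext'; rw [add_val, zero_val, kom_one_right]; simp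
  nsmul := nsmulRec
  zsmul := zsmulRec
  neg_add_cancel a := by
    apply ext'
    have h : kom a.1⁻¹ a.1 = 1 := by unfold kom; group
    rw [add_val, neg_val, h]; simp [zero_val]
  add_comm := ad_comm

theorem nsmul_val (n : ℕ) (a : AA l N) : (n • a).1 = a.1 ^ n := by
  induction n with
  | zero => rw [zero_smul, pow_zero]; rfl
  | succ n ih =>
    rw [succ_nsmul, add_val, ih, pow_succ]
    have h : kom (a.1 ^ n) a.1 = 1 := by
      rw [kom_pow_left (kc a a.1), kom_self, one_pow]
    rw [h]; simp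

noncomputable instance [Fact l.Prime] : Module (ZMod l) (AA l N) :=
  AddCommGroup.zmodModule fun a => ext' (by rw [nsmul_val, al]; rfl)

/-! ### commutators -/

theorem smul_val [Fact l.Prime] (r : ZMod l) (a : AA l N) : (r • a).1 = a.1 ^ r.val := by
  have h1 : r • a = r.val • a := by
    conv_lhs => rw [← ZMod.natCast_zmod_val r]
    exact Nat.cast_smul_eq_nsmul (ZMod l) r.val a
  rw [h1, nsmul_val]

theorem add_val_cen (a c : AA l N) (hc : c.1 ∈ Subgroup.center G) : (a + c).1 = a.1 * c.1 := by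
  rw [add_val, kom_cen_right hc]; simp

/-- the commutator as an element of the space -/
def br (a : AA l N) (g : G) : AA l N := ⟨kom a.1 g, km a g, rfl⟩

theorem br_val (a : AA l N) (g : G) : (br a g).1 = kom a.1 g := rfl

theorem mul_val [Fact l.Prime] (a b : AA l N) :
    a.1 * b.1 = (a + b + (2 : ZMod l)⁻¹ • br a b.1).1 := by
  have h2 : (2 : ZMod l)⁻¹ = -(((l - 1) / 2 : ℕ) : ZMod l) := by
    apply inv_eq_of_mul_eq_one_right
    have h3 : ((2 * ((l - 1) / 2) + 1 : ℕ) : ZMod l) = 0 := by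
      rw [two_half hy, ZMod.natCast_self]
    push_cast at h3
    linear_combination -h3
  have h4 : ((2 : ZMod l)⁻¹ • br a b.1).1 = (kom a.1 b.1 ^ ((l - 1) / 2))⁻¹ := by
    rw [h2, neg_smul, Nat.cast_smul_eq_nsmul, neg_val, nsmul_val, br_val]
  rw [add_val_cen _ _ (by rw [h4]; exact Subgroup.inv_mem _ (kcp a b.1 _)), h4, add_val]
  group

variable (l N) in
/-- the central elements -/
noncomputable def ZZ [Fact l.Prime] : Submodule (ZMod l) (AA l N) where
  carrier := {a | a.1 ∈ Subgroup.center G}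
  add_mem' {a b} ha hb := by
    show (a + b).1 ∈ Subgroup.center G
    rw [add_val_cen a b hb]
    exact Subgroup.mul_mem _ ha hb
  zero_mem' := by
    show (0 : AA l N).1 ∈ Subgroup.center G
    rw [zero_val]
    exact one_mem _
  smul_mem' r a ha := by
    show (r • a).1 ∈ Subgroup.center G
    rw [smul_val]
    exact Subgroup.pow_mem _ ha _

variable (l N) in
/-- the commutators -/
noncomputable def WW [Fact l.Prime] : Submodule (ZMod l) (AA l N) :=
  Submodule.span (ZMod l) {x | ∃ (a : AA l N) (g : G), x = br a g}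

variable [Fact l.Prime]

theorem ww_cen (a : WW l N) : (a : AA l N).1 ∈ Subgroup.center G := by
  have h1 : WW l N ≤ ZZ l N := by
    refine Submodule.span_le.2 ?_
    rintro x ⟨a, g, rfl⟩
    exact kc a g
  exact h1 a.2

/-- the commutator as a central element -/
noncomputable def bw (a : AA l N) (g : G) : WW l N := ⟨br a g, Submodule.subset_span ⟨a, g, rfl⟩⟩

theorem bw_val (a : AA l N) (g : G) : ((bw a g : WW l N) : AA l N).1 = kom a.1 g := rfl

theorem ww_ext {a b : WW l N} (h : (a : AA l N).1 = (b : AA l N).1) : a = b :=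
  Subtype.ext (ext' h)

theorem ww_add (a b : WW l N) : ((a + b : WW l N) : AA l N).1 = (a : AA l N).1 * (b : AA l N).1 :=
  add_val_cen (a : AA l N) (b : AA l N) (ww_cen b)

theorem bw_add (a b : AA l N) (g : G) : bw (a + b) g = bw a g + bw b g := by
  apply ww_ext
  rw [ww_add, bw_val, bw_val, bw_val]
  exact kom_ad a b g

theorem bw_mul (a : AA l N) (g h : G) : bw a (g * h) = bw a g + bw a h := by
  apply ww_ext
  rw [ww_add, bw_val, bw_val, bw_val]
  exact kom_mul_right a.1 g h (kc a h)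

theorem bw_add' (a b c : AA l N) : bw a (b + c).1 = bw a b.1 + bw a c.1 := by
  apply ww_ext
  rw [ww_add, bw_val, bw_val, bw_val]
  exact kom_ad' b c a.1

theorem bw_cen (a : AA l N) {c : G} (hc : c ∈ Subgroup.center G) : bw a c = 0 := by
  apply ww_ext
  rw [bw_val, kom_cen_right hc]
  rfl

theorem bw_cen' (a : AA l N) (ha : a.1 ∈ Subgroup.center G) (g : G) : bw a g = 0 := by
  apply ww_ext
  rw [bw_val, kom_cen_left ha]
  rfl

theorem bw_self (a : AA l N) : bw a a.1 = 0 := by
  apply ww_ext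
  rw [bw_val, kom_self]
  rfl

theorem bw_swap (a b : AA l N) : bw a b.1 = - bw b a.1 := by
  have h := bw_self (a + b)
  rw [bw_add, bw_add', bw_add', bw_self, bw_self, zero_add, add_zero] at h
  exact eq_neg_of_add_eq_zero_left h

theorem conj_val (a : AA l N) (g : G) : g * a.1 * g⁻¹ = (a + (-(bw a g : WW l N) : WW l N)).1 := by
  have h1 : (((-(bw a g : WW l N) : WW l N)) : AA l N).1 = (kom a.1 g)⁻¹ := rfl
  rw [add_val_cen _ _ (ww_cen (-(bw a g : WW l N))), h1,
    ← cen_comm (Subgroup.inv_mem _ (kc a g))]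
  unfold kom
  group

/-- the commutator with a fixed element -/
noncomputable def bL (g : G) : AA l N →+ WW l N :=
  AddMonoidHom.mk' (fun a => bw a g) fun a b => bw_add a b g

/-- the commutator with a fixed element, on the right -/
noncomputable def bR (a : AA l N) : AA l N →+ WW l N :=
  AddMonoidHom.mk' (fun b => bw a b.1) fun b c => bw_add' a b c

theorem smul_bw (r : ZMod l) (a : AA l N) (g : G) : bw (r • a) g = r • bw a g := by
  have h := ZMod.map_smul (bL (l := l) g) r a
  exact h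

theorem smul_bw' (r : ZMod l) (a b : AA l N) : bw a (r • b).1 = r • bw a b.1 := by
  have h := ZMod.map_smul (bR a) r b
  exact h

end AA

end HCd

open HCd

/-- H1: coordinates exist -/
theorem shCd : SHCd := by
  intro l hp h2 G _ M hM
  have : Hy l G (Subgroup.closure M) := hy_of l hp.out h2 M hM
  have := hM.fin
  set N := Subgroup.closure M with hN
  have : Finite (AA l N) := inferInstanceAs (Finite {g : G // g ∈ N ∧ l = l})
  have : Module.Finite (ZMod l) (AA l N) := inferInstance
  obtain ⟨V, hV⟩ := Submodule.exists_isCompl (WW l N)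
  let eV : VV l (Module.finrank (ZMod l) V) ≃ₗ[ZMod l] V :=
    (Module.finBasis (ZMod l) V).equivFun.symm
  let eW : VV l (Module.finrank (ZMod l) (WW l N)) ≃ₗ[ZMod l] WW l N :=
    (Module.finBasis (ZMod l) (WW l N)).equivFun.symm
  let E : (V × WW l N) ≃ₗ[ZMod l] AA l N := Submodule.prodEquivOfIsCompl V (WW l N) hV.symm
  have hE : ∀ v z, E (eV v, eW z) = (eV v : AA l N) + (eW z : AA l N) := fun v z =>
    Submodule.coe_prodEquivOfIsCompl' V (WW l N) hV.symm (eV v, eW z)
  let B : VV l (Module.finrank (ZMod l) V) →ₗ[ZMod l]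
      VV l (Module.finrank (ZMod l) V) →ₗ[ZMod l] VV l (Module.finrank (ZMod l) (WW l N)) :=
    LinearMap.mk₂ (ZMod l) (fun w v => eW.symm (bw (eV w : AA l N) (eV v : AA l N).1))
      (fun w w' v => by
        rw [map_add eV, Submodule.coe_add, bw_add, map_add])
      (fun r w v => by
        rw [map_smul eV, Submodule.coe_smul, smul_bw, map_smul])
      (fun w v v' => by
        rw [map_add eV, Submodule.coe_add, bw_add', map_add])
      (fun r w v => by
        rw [map_smul eV, Submodule.coe_smul, smul_bw', map_smul])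
  have hB : ∀ w v, B w v = eW.symm (bw (eV w : AA l N) (eV v : AA l N).1) := fun w v => rfl
  -- the coordinates
  let nn : VV l (Module.finrank (ZMod l) V) → VV l (Module.finrank (ZMod l) (WW l N)) → G :=
    fun v z => ((eV v : AA l N) + (eW z : AA l N)).1
  let bp : G → VV l (Module.finrank (ZMod l) V) → VV l (Module.finrank (ZMod l) (WW l N)) :=
    fun g v => eW.symm (-(bw (eV v : AA l N) g))
  have hbr : ∀ v z w y, bw ((eV v : AA l N) + (eW z : AA l N)) ((eV w : AA l N) +
      (eW y : AA l N)).1 = bw (eV v : AA l N) (eV w : AA l N).1 := by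
    intro v z w y
    rw [bw_add, bw_add', bw_add', bw_cen' _ (ww_cen (eW z)), bw_cen' _ (ww_cen (eW z)),
      bw_cen _ (ww_cen (eW y))]
    simp
  have hsurj : ∀ a : AA l N, ∃ v z, a = (eV v : AA l N) + (eW z : AA l N) := by
    intro a
    obtain ⟨⟨x, b⟩, hab⟩ := E.surjective a
    refine ⟨eV.symm x, eW.symm b, ?_⟩
    have h1 := hE (eV.symm x) (eW.symm b)
    rw [LinearEquiv.apply_symm_apply, LinearEquiv.apply_symm_apply] at h1
    rw [LinearEquiv.apply_symm_apply, LinearEquiv.apply_symm_apply, ← h1, hab]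
  refine ⟨⟨Module.finrank (ZMod l) V, Module.finrank (ZMod l) (WW l N), ⟨B, ?_⟩, nn,
    ?_, ?_, ?_, ?_, bp, ?_, ?_, ?_, ?_, ?_⟩⟩
  · intro v
    rw [hB, bw_self, map_zero]
  · intro v w z y
    show ((eV v : AA l N) + (eW z : AA l N)).1 * ((eV w : AA l N) + (eW y : AA l N)).1 = _
    rw [mul_val]
    show _ = ((eV (v + w) : AA l N) + (eW (z + y + (2 : ZMod l)⁻¹ • B v w) : AA l N)).1
    congr 1
    rw [map_add eV, map_add eW, map_add eW, map_smul eW, hB, LinearEquiv.apply_symm_apply]
    have h1 : br ((eV v : AA l N) + (eW z : AA l N)) ((eV w : AA l N) + (eW y : AA l N)).1 =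
        ((bw (eV v : AA l N) (eV w : AA l N).1 : WW l N) : AA l N) := by
      rw [← hbr v z w y]; rfl
    rw [h1]
    push_cast
    abel
  · intro v w z y h
    have h1 : E (eV v, eW z) = E (eV w, eW y) := by
      rw [hE, hE]
      exact ext' h
    have h2 := E.injective h1
    rw [Prod.mk.injEq] at h2
    exact ⟨eV.injective h2.1, eW.injective h2.2⟩
  · intro g
    constructor
    · intro hg
      obtain ⟨v, z, h1⟩ := hsurj ⟨g, hg, rfl⟩
      exact ⟨v, z, congrArg Subtype.val h1⟩
    · rintro ⟨v, z, rfl⟩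
      exact mm ((eV v : AA l N) + (eW z : AA l N))
  · intro z
    have h1 : nn 0 z = (eW z : AA l N).1 := by
      show ((eV 0 : AA l N) + (eW z : AA l N)).1 = _
      rw [map_zero, Submodule.coe_zero, zero_add]
    rw [h1]
    exact ww_cen _
  · intro g v z
    show g * ((eV v : AA l N) + (eW z : AA l N)).1 * g⁻¹ =
      ((eV v : AA l N) + (eW (z + eW.symm (-(bw (eV v : AA l N) g))) : AA l N)).1
    rw [conj_val, bw_add, bw_cen' _ (ww_cen (eW z)), add_zero, map_add,
      LinearEquiv.apply_symm_apply, Submodule.coe_add, add_assoc]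
  · intro g h v
    show eW.symm (-(bw (eV v : AA l N) (g * h))) = _
    rw [bw_mul, neg_add, map_add]
  · intro g v w
    show eW.symm (-(bw (eV (v + w) : AA l N) g)) = _
    rw [map_add, Submodule.coe_add, bw_add, neg_add, map_add]
  · intro w z v
    show eW.symm (-(bw (eV v : AA l N) ((eV w : AA l N) + (eW z : AA l N)).1)) = B w v
    rw [bw_add', bw_cen _ (ww_cen (eW z)), add_zero, ← bw_swap, hB]
  · intro ζ hζ
    -- the functional vanishes on the commutators
    have key : ∀ (x : AA l N) (hx : x ∈ WW l N), ζ ⬝ᵥ eW.symm ⟨x, hx⟩ = 0 := by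
      intro x hx
      induction hx using Submodule.span_induction with
      | mem x hx =>
        obtain ⟨a, g, rfl⟩ := hx
        obtain ⟨v, z, rfl⟩ := hsurj a
        have h1 : bw ((eV v : AA l N) + (eW z : AA l N)) g = bw (eV v : AA l N) g := by
          rw [bw_add, bw_cen' _ (ww_cen (eW z)), add_zero]
        have h3 := hζ g v
        change ζ ⬝ᵥ eW.symm (-(bw (eV v : AA l N) g)) = 0 at h3
        rw [map_neg, dotProduct_neg, neg_eq_zero, ← h1] at h3
        exact h3
      | zero =>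
        have h1 : (⟨0, Submodule.zero_mem _⟩ : WW l N) = 0 := rfl
        rw [h1, map_zero, dotProduct_zero]
      | add x y hx hy ihx ihy =>
        have h1 : (⟨x + y, Submodule.add_mem _ hx hy⟩ : WW l N) = ⟨x, hx⟩ + ⟨y, hy⟩ := rfl
        rw [h1, map_add, dotProduct_add, ihx, ihy, add_zero]
      | smul a x hx ih =>
        have h1 : (⟨a • x, Submodule.smul_mem _ a hx⟩ : WW l N) = a • ⟨x, hx⟩ := rfl
        rw [h1, map_smul, dotProduct_smul, ih, smul_zero]
    funext i
    classical
    have h1 := key (eW (Pi.single i 1) : AA l N) (eW (Pi.single i 1)).2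
    have h3 : (⟨(eW (Pi.single i 1) : AA l N), (eW (Pi.single i 1)).2⟩ : WW l N) =
        eW (Pi.single i 1) := rfl
    rw [h3, LinearEquiv.symm_apply_apply, dotProduct_single, mul_one] at h1
    exact h1

end Pool.Agent.H92.T5
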