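import Pool.Agent.H92.T5.GStm

/-!
# Project T5 (MP_a3214d), odd `l`, row H2: the commutators with a vector, and the classes
-/

set_option autoImplicit false

open scoped BigOperators Topology
open NumberField IsDedekindDomain Filter

namespace Pool.Agent.H92.T5

open Pool.Agent.H92.EL
open Pool.Agent.H92.EL.SysL (VV BD)
open Pool.Agent.TF (HypM Mcl)

section HW

variable {l : ℕ} [Fact l.Prime] {G : Type} [Group G] {M : Set G} (C : Cd5 l G M)

theorem hw_bp_one (v : VV l C.d) : C.bp 1 v = 0 := by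
  have h := C.bp_mul 1 1 v
  rw [mul_one] at h
  simpa using h

theorem hw_bp_zero (g : G) : C.bp g 0 = 0 := by
  have h := C.bp_add g 0 0
  rw [add_zero] at h
  simpa using h

theorem hw_bp_smul (g : G) (a : ZMod l) (v : VV l C.d) : C.bp g (a • v) = a • C.bp g v := by
  let F : VV l C.d →+ VV l C.n :=
    { toFun := C.bp g
      map_zero' := hw_bp_zero C g
      map_add' := C.bp_add g }
  exact ZMod.map_smul F a v

theorem hw_mem (v : VV l C.d) (z : VV l C.n) : z ∈ C.W v ↔ ∃ g, z = C.bp g v := by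
  constructor
  · intro hz
    let A : AddSubgroup (VV l C.n) :=
      { carrier := Set.range fun g => C.bp g v
        zero_mem' := ⟨1, hw_bp_one C v⟩
        add_mem' := by
          rintro _ _ ⟨g, rfl⟩ ⟨h, rfl⟩
          exact ⟨g * h, C.bp_mul g h v⟩
        neg_mem' := by
          rintro _ ⟨g, rfl⟩
          refine ⟨g⁻¹, ?_⟩
          have h1 := C.bp_mul g⁻¹ g v
          rw [inv_mul_cancel, hw_bp_one] at h1
          exact eq_neg_of_add_eq_zero_left h1.symm }
    have h1 : C.W v ≤ AddSubgroup.toZModSubmodule l A := by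
      refine Submodule.span_le.mpr ?_
      rintro _ ⟨g, rfl⟩
      exact ⟨g, rfl⟩
    obtain ⟨g, hg⟩ := h1 hz
    exact ⟨g, hg.symm⟩
  · rintro ⟨g, rfl⟩
    exact Submodule.subset_span ⟨g, rfl⟩

theorem hw_smul (v : VV l C.d) (a : ZMod l) (ha : a ≠ 0) : C.W (a • v) = C.W v := by
  have key : ∀ (a : ZMod l) (v : VV l C.d), C.W (a • v) ≤ C.W v := by
    intro a v z hz
    obtain ⟨g, rfl⟩ := (hw_mem C _ _).mp hz
    rw [hw_bp_smul]
    exact Submodule.smul_mem _ _ ((hw_mem C _ _).mpr ⟨g, rfl⟩)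
  refine le_antisymm (key a v) ?_
  have h := key a⁻¹ (a • v)
  rwa [smul_smul, inv_mul_cancel₀ ha, one_smul] at h

/-- Row H2, first part. -/
theorem shW : SHW := by
  intro l _ G _ M C v
  refine ⟨hw_mem C v, fun w => ?_, fun a ha => hw_smul C v a ha⟩
  rw [hw_mem]
  exact ⟨C.nn w 0, (C.bp_nn w 0 v).symm⟩

theorem hw_nn_zero : C.nn 0 0 = 1 := by
  have h := C.nn_mul 0 0 0 0
  rw [C.Bd.alt 0, smul_zero, add_zero, add_zero, add_zero] at h
  exact mul_eq_left.mp h

theorem hw_nn_pow (v : VV l C.d) (z : VV l C.n) (j : ℕ) :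
    C.nn v z ^ j = C.nn ((j : ZMod l) • v) ((j : ZMod l) • z) := by
  induction j with
  | zero => rw [pow_zero, Nat.cast_zero, zero_smul, zero_smul, hw_nn_zero]
  | succ j ih =>
    rw [pow_succ, ih, C.nn_mul, map_smul, LinearMap.smul_apply, C.Bd.alt, smul_zero, smul_zero,
      add_zero, Nat.cast_succ, add_smul, add_smul, one_smul, one_smul]

theorem hw_nn_smul (v : VV l C.d) (z : VV l C.n) (a : ZMod l) :
    C.nn (a • v) (a • z) = C.nn v z ^ a.val := by
  rw [hw_nn_pow, ZMod.natCast_zmod_val]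

theorem hw_first (ζ : VV l C.n)
    (h : ∀ w y, C.nn w y ∈ M → ∀ t ∈ C.W w, ζ ⬝ᵥ t = 0) : ζ = 0 := by
  refine C.bp_span ζ fun g v => ?_
  have key : ∀ x ∈ Subgroup.closure M, ∀ v z, x = C.nn v z → ζ ⬝ᵥ C.bp g v = 0 := by
    intro x hx
    induction hx using Subgroup.closure_induction with
    | mem x hx =>
      intro v z hvz
      exact h v z (hvz ▸ hx) _ ((hw_mem C _ _).mpr ⟨g, rfl⟩)
    | one =>
      intro v z hvz
      have h1 := (C.nn_inj 0 v 0 z ((hw_nn_zero C).trans hvz)).1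
      rw [← h1, hw_bp_zero, dotProduct_zero]
    | mul x y hx hy ihx ihy =>
      intro v z hvz
      obtain ⟨a, b, hab⟩ := (C.nn_iff x).mp hx
      obtain ⟨c, d, hcd⟩ := (C.nn_iff y).mp hy
      rw [hab, hcd, C.nn_mul] at hvz
      have h1 := (C.nn_inj _ _ _ _ hvz).1
      rw [← h1, C.bp_add, dotProduct_add, ihx a b hab, ihy c d hcd, add_zero]
    | inv x hx ih =>
      intro v z hvz
      obtain ⟨a, b, hab⟩ := (C.nn_iff x).mp hx
      have h1 : C.nn a b * C.nn v z = C.nn 0 0 := by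
        rw [← hab, ← hvz, mul_inv_cancel, hw_nn_zero]
      rw [C.nn_mul] at h1
      have h2 := (C.nn_inj _ _ _ _ h1).1
      have h3 : v = (-1 : ZMod l) • a := by
        rw [neg_smul, one_smul]
        exact eq_neg_of_add_eq_zero_right h2
      rw [h3, hw_bp_smul, dotProduct_smul, ih a b hab, smul_zero]
  exact key (C.nn v 0) ((C.nn_iff _).mpr ⟨v, 0, rfl⟩) v 0 rfl

variable (S : SysL l)

/-- the relation between the pairs -/
def hw_rel (p q : VV l C.d × VV l C.n) : Prop :=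
  ∃ g : S.D, p.1 = (S.e g : ZMod l) • q.1 ∧
    ∃ t ∈ C.W q.1, p.2 = (S.e g : ZMod l) • (q.2 + t)

theorem hw_e_inv (g : S.D) : (S.e g⁻¹ : ZMod l) * (S.e g : ZMod l) = 1 := by
  rw [← Units.val_mul, ← map_mul, inv_mul_cancel, map_one, Units.val_one]

theorem hw_rel_refl (p : VV l C.d × VV l C.n) : hw_rel C S p p := by
  refine ⟨1, ?_, 0, Submodule.zero_mem _, ?_⟩
  · rw [map_one, Units.val_one, one_smul]
  · rw [map_one, Units.val_one, one_smul, add_zero]

theorem hw_rel_symm {p q : VV l C.d × VV l C.n} (h : hw_rel C S p q) : hw_rel C S q p := by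
  obtain ⟨g, h1, t, ht, h2⟩ := h
  refine ⟨g⁻¹, ?_, -((S.e g : ZMod l) • t), ?_, ?_⟩
  · rw [h1, smul_smul, hw_e_inv, one_smul]
  · rw [h1, hw_smul C _ _ (Units.ne_zero _)]
    exact Submodule.neg_mem _ (Submodule.smul_mem _ _ ht)
  · have h3 : p.2 + -((S.e g : ZMod l) • t) = (S.e g : ZMod l) • q.2 := by
      rw [h2, smul_add, add_neg_cancel_right]
    rw [h3, smul_smul, hw_e_inv, one_smul]

theorem hw_rel_trans {p q r : VV l C.d × VV l C.n} (h : hw_rel C S p q)
    (h' : hw_rel C S q r) : hw_rel C S p r := by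
  obtain ⟨g, h1, t, ht, h2⟩ := h
  obtain ⟨g', h1', t', ht', h2'⟩ := h'
  have ht2 : (S.e g'⁻¹ : ZMod l) • t ∈ C.W r.1 := by
    rw [h1', hw_smul C _ _ (Units.ne_zero _)] at ht
    exact Submodule.smul_mem _ _ ht
  refine ⟨g * g', ?_, t' + (S.e g'⁻¹ : ZMod l) • t, Submodule.add_mem _ ht' ht2, ?_⟩
  · rw [h1, h1', smul_smul, map_mul, Units.val_mul]
  · have h3 : (S.e g' : ZMod l) • ((S.e g'⁻¹ : ZMod l) • t) = t := by
      rw [smul_smul, mul_comm, hw_e_inv, one_smul]
    rw [h2, h2', map_mul, Units.val_mul, ← smul_smul, ← add_assoc, smul_add _ (r.2 + t'), h3]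

/-- the setoid on the pairs with `nn` in `M` -/
def hw_set : Setoid {p : VV l C.d × VV l C.n // C.nn p.1 p.2 ∈ M} where
  r p q := hw_rel C S p.1 q.1
  iseqv :=
    { refl := fun p => hw_rel_refl C S p.1
      symm := fun h => hw_rel_symm C S h
      trans := fun h h' => hw_rel_trans C S h h' }

end HW

/-- Row H2, second part. -/
theorem shCls (_hw : SHW) : SHCls := by
  intro l _ hl G _ M hM C
  refine ⟨hw_first C, ?_⟩
  intro k _ _ S hS
  have hfin : Finite (Quotient (hw_set C S)) := inferInstance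
  let v : Quotient (hw_set C S) → VV l C.d := fun u => u.out.1.1
  let z : Quotient (hw_set C S) → VV l C.n := fun u => u.out.1.2
  have hmem : ∀ u, C.nn (v u) (z u) ∈ M := fun u => u.out.2
  have hfree : ∀ (u : Quotient (hw_set C S)) (g : S.D), v u = (S.e g : ZMod l) • v u →
      (∃ t ∈ C.W (v u), z u = (S.e g : ZMod l) • (z u + t)) → g = 1 := by
    rintro u g h1 ⟨t, ht, h2⟩
    have h3 : ∀ {m : ℕ} (w : VV l m), w ≠ 0 → w = (S.e g : ZMod l) • w → g = 1 := by
      intro m w hw hgw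
      have h4 : ((S.e g : ZMod l) - 1) • w = 0 := by
        rw [sub_smul, one_smul, ← hgw, sub_self]
      rcases smul_eq_zero.mp h4 with h5 | h5
      · have h6 : S.e g = S.e 1 := by
          rw [map_one]
          exact Units.ext (sub_eq_zero.mp h5)
        exact S.e_inj h6
      · exact absurd h5 hw
    by_cases hv : v u = 0
    · obtain ⟨h, rfl⟩ := (hw_mem C _ _).mp ht
      rw [hv, hw_bp_zero, add_zero] at h2
      refine h3 (z u) ?_ h2
      intro hz
      have h7 := hmem u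
      rw [hv, hz, hw_nn_zero] at h7
      exact hM.one h7
    · exact h3 (v u) hv h1
  have hcls : Cls C S (Quotient (hw_set C S)) v z := by
    refine ⟨hmem, ?_, ?_⟩
    · intro w y hwy
      refine ⟨Quotient.mk (hw_set C S) ⟨(w, y), hwy⟩, ?_⟩
      have h1 : (hw_set C S).r ⟨(w, y), hwy⟩
          (Quotient.mk (hw_set C S) ⟨(w, y), hwy⟩).out :=
        (hw_set C S).iseqv.symm
          (Quotient.exact (Quotient.out_eq (Quotient.mk (hw_set C S) ⟨(w, y), hwy⟩)))
      obtain ⟨g, hg, t, ht, h2⟩ := h1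
      exact ⟨g, hg, t, ht, h2⟩
    · rintro u u' g h1 ⟨t, ht, h2⟩
      have h3 : u = u' := by
        rw [← Quotient.out_eq u, ← Quotient.out_eq u']
        exact Quotient.sound (s := hw_set C S) ⟨g, h1, t, ht, h2⟩
      subst h3
      exact ⟨rfl, hfree u g h1 ⟨t, ht, h2⟩⟩
  have hD : Nat.card (cyc k l) = Nat.card S.D := by
    refine (Nat.card_congr (Equiv.ofBijective
      (fun g : S.D => (⟨S.e g, (hS (S.e g)).mp ⟨g, rfl⟩⟩ : cyc k l)) ⟨?_, ?_⟩)).symm
    · intro g g' h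
      exact S.e_inj (congrArg Subtype.val h)
    · rintro ⟨u, hu⟩
      obtain ⟨g, hg⟩ := (hS u).mpr hu
      exact ⟨g, Subtype.ext hg⟩
  have hpow : ∀ (u : Quotient (hw_set C S)) (g : S.D),
      C.nn ((S.e g : ZMod l) • v u) ((S.e g : ZMod l) • z u) ∈ M := by
    intro u g
    rw [hw_nn_smul]
    refine hM.pow _ (hmem u) _ fun hd => ?_
    have h1 : ((S.e g : ZMod l).val : ZMod l) = 0 := (ZMod.natCast_eq_zero_iff _ _).mpr hd
    rw [ZMod.natCast_zmod_val] at h1
    exact Units.ne_zero _ h1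
  have hcard : Nat.card (Quotient (hw_set C S) × S.D) = Nat.card (Mcl M) := by
    refine Nat.card_congr (Equiv.ofBijective
      (fun x : Quotient (hw_set C S) × S.D =>
        (⟨ConjClasses.mk (C.nn ((S.e x.2 : ZMod l) • v x.1) ((S.e x.2 : ZMod l) • z x.1)),
          ⟨_, rfl, hpow x.1 x.2⟩⟩ : Mcl M)) ⟨?_, ?_⟩)
    · rintro ⟨u, g⟩ ⟨u', g'⟩ h
      have h1 : IsConj (C.nn ((S.e g : ZMod l) • v u) ((S.e g : ZMod l) • z u))
          (C.nn ((S.e g' : ZMod l) • v u') ((S.e g' : ZMod l) • z u')) :=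
        ConjClasses.mk_eq_mk_iff_isConj.mp (congrArg Subtype.val h)
      obtain ⟨c, hc⟩ := isConj_iff.mp h1
      rw [C.bp_conj] at hc
      obtain ⟨h2, h3⟩ := C.nn_inj _ _ _ _ hc
      rw [hw_bp_smul, ← smul_add] at h3
      have h4 : v u' = (S.e (g'⁻¹ * g) : ZMod l) • v u := by
        rw [map_mul, Units.val_mul, ← smul_smul, h2, smul_smul, hw_e_inv, one_smul]
      have h5 : z u' = (S.e (g'⁻¹ * g) : ZMod l) • (z u + C.bp c (v u)) := by
        rw [map_mul, Units.val_mul, ← smul_smul, h3, smul_smul, hw_e_inv, one_smul]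
      obtain ⟨h6, h7⟩ := hcls.unq u' u (g'⁻¹ * g) h4
        ⟨C.bp c (v u), (hw_mem C _ _).mpr ⟨c, rfl⟩, h5⟩
      subst h6
      rw [inv_mul_eq_one] at h7
      rw [h7]
    · rintro ⟨c, m, hmc, hm⟩
      obtain ⟨w, y, hwy⟩ := (C.nn_iff m).mp (Subgroup.subset_closure hm)
      obtain ⟨u, g, h1, t, ht, h2⟩ := hcls.cov w y (hwy ▸ hm)
      obtain ⟨h, rfl⟩ := (hw_mem C _ _).mp ht
      refine ⟨(u, g), Subtype.ext ?_⟩
      show ConjClasses.mk (C.nn ((S.e g : ZMod l) • v u) ((S.e g : ZMod l) • z u)) = c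
      rw [← hmc, hwy, ConjClasses.mk_eq_mk_iff_isConj, isConj_iff]
      refine ⟨h, ?_⟩
      rw [C.bp_conj, h1, h2, hw_bp_smul, smul_add]
  have hne : Nonempty (Quotient (hw_set C S)) := by
    obtain ⟨m, hm⟩ := hM.ne
    obtain ⟨w, y, hwy⟩ := (C.nn_iff m).mp (Subgroup.subset_closure hm)
    exact ⟨Quotient.mk (hw_set C S) ⟨(w, y), hwy ▸ hm⟩⟩
  refine ⟨Quotient (hw_set C S), Fintype.ofFinite _, v, z, hcls, hne, ?_⟩
  rw [hD, ← hcard, Nat.card_prod]
  congr 1
  exact Fintype.card_eq_nat_card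

end Pool.Agent.H92.T5
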